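import Mathlib
import Pool.Agent.Run7.h129.BD.Zs

set_option autoImplicit false

/-!
# The difference between `∑ m^(2πiκξ)` and the integral
-/

open Complex Filter Topology Set MeasureTheory Metric
open scoped Real

namespace Pool.Agent.Run7.h129.BU

open Pool.Agent.Run7.h129.BD

/-- the exponential -/
noncomputable def ek (κ ξ x : ℝ) : ℂ := cexp (((2 * π * ξ * (κ * Real.log x) : ℝ) : ℂ) * I)

/-- sum minus integral -/
noncomputable def DI (κ : ℝ) (N N' : ℕ) (ξ : ℝ) : ℂ :=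
  ∑ m ∈ Finset.Ioc N N', ek κ ξ m - ∫ t in (N : ℝ)..N', ek κ ξ t

lemma ek_norm (κ ξ x : ℝ) : ‖ek κ ξ x‖ = 1 := by
  unfold ek
  rw [Complex.norm_exp_ofReal_mul_I]

lemma ek_eq {κ ξ x : ℝ} (hx : 0 < x) :
    ek κ ξ x = (x : ℂ) ^ (-((-(2 * π * κ * ξ) : ℝ) : ℂ) * Complex.I) := by
  rw [cpow_eq hx]
  unfold ek
  congr 2
  push_cast
  ring

lemma int_eq {κ ξ : ℝ} {N N' : ℕ} (hN : 1 ≤ N) (hNN : N ≤ N') :
    ∫ t in (N : ℝ)..N', ek κ ξ t = prim (-(2 * π * κ * ξ)) N' - prim (-(2 * π * κ * ξ)) N := by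
  have hN0 : (0 : ℝ) < N := by exact_mod_cast hN
  have hle : (N : ℝ) ≤ N' := by exact_mod_cast hNN
  have h1 : ∀ x ∈ uIcc (N : ℝ) N', HasDerivAt (prim (-(2 * π * κ * ξ))) (ek κ ξ x) x := by
    intro x hx
    rw [uIcc_of_le hle] at hx
    have hx0 : 0 < x := lt_of_lt_of_le hN0 hx.1
    rw [ek_eq hx0]
    exact prim_deriv hx0
  refine intervalIntegral.integral_eq_sub_of_hasDerivAt h1 ?_
  refine ContinuousOn.intervalIntegrable ?_
  intro x hx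
  rw [uIcc_of_le hle] at hx
  have hx0 : 0 < x := lt_of_lt_of_le hN0 hx.1
  unfold ek
  refine ContinuousAt.continuousWithinAt ?_
  have := Real.continuousAt_log hx0.ne'
  fun_prop

lemma key_em {N : ℕ} (t : ℝ) (hN : 1 ≤ N) : ∀ M : ℕ, N ≤ M →
    ‖∑ n ∈ Finset.Ioc N M, (n : ℂ) ^ (-(t : ℂ) * Complex.I) -
      (prim t M - prim t N)‖ ≤ (M - N : ℕ) * (|t| / N) := by
  intro M hM
  induction M, hM using Nat.le_induction with
  | base => simp
  | succ M hM ih =>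
    rw [Finset.sum_Ioc_succ_top hM, add_comm (∑ n ∈ Finset.Ioc N M, (n : ℂ) ^ (-(t : ℂ) * Complex.I))]
    have h3 := step (t := t) (n := M) (hN.trans hM)
    have hN0 : (0 : ℝ) < N := by exact_mod_cast hN
    have hMN : (N : ℝ) ≤ M := by exact_mod_cast hM
    have h4 : |t| / M ≤ |t| / N := div_le_div_of_nonneg_left (abs_nonneg _) hN0 hMN
    have e : ((M + 1 : ℕ) : ℂ) ^ (-(t : ℂ) * Complex.I) + ∑ n ∈ Finset.Ioc N M, (n : ℂ) ^ (-(t : ℂ) * Complex.I) -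
        (prim t ((M + 1 : ℕ) : ℝ) - prim t N) =
        (((M + 1 : ℕ) : ℂ) ^ (-(t : ℂ) * Complex.I) - (prim t ((M + 1 : ℕ) : ℝ) - prim t (M : ℝ))) +
        (∑ n ∈ Finset.Ioc N M, (n : ℂ) ^ (-(t : ℂ) * Complex.I) - (prim t M - prim t N)) := by ring
    rw [e]
    refine (norm_add_le _ _).trans ?_
    have h5 : ((M + 1 - N : ℕ) : ℝ) = ((M - N : ℕ) : ℝ) + 1 := by
      rw [Nat.succ_sub hM]
      push_cast
      ring
    rw [h5]
    linarith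

lemma DI_low {κ : ℝ} {N N' : ℕ} (hN : 1 ≤ N) (hNN : N ≤ N') (h2 : N' ≤ 2 * N) (ξ : ℝ) :
    ‖DI κ N N' ξ‖ ≤ |2 * π * κ * ξ| := by
  have h1 := key_em (-(2 * π * κ * ξ)) hN N' hNN
  have hN0 : (0 : ℝ) < N := by exact_mod_cast hN
  unfold DI
  rw [int_eq hN hNN]
  have e : ∑ m ∈ Finset.Ioc N N', ek κ ξ m =
      ∑ n ∈ Finset.Ioc N N', (n : ℂ) ^ (-((-(2 * π * κ * ξ) : ℝ) : ℂ) * Complex.I) := by
    refine Finset.sum_congr rfl fun m hm => ?_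
    rw [Finset.mem_Ioc] at hm
    have := ek_eq (κ := κ) (ξ := ξ) (x := (m : ℝ)) (by exact_mod_cast (by omega : 0 < m))
    rw [this, Complex.ofReal_natCast]
  rw [e]
  refine h1.trans ?_
  rw [abs_neg]
  have h4 : ((N' - N : ℕ) : ℝ) ≤ N := by
    have : N' - N ≤ N := by omega
    exact_mod_cast this
  calc ((N' - N : ℕ) : ℝ) * (|2 * π * κ * ξ| / N) ≤ N * (|2 * π * κ * ξ| / N) := by gcongr
    _ = _ := by field_simp

lemma DI_triv {κ : ℝ} {N N' : ℕ} (hNN : N ≤ N') (h2 : N' ≤ 2 * N) (ξ : ℝ) :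
    ‖DI κ N N' ξ‖ ≤ 2 * N := by
  unfold DI
  refine (norm_sub_le _ _).trans ?_
  have hle : (N : ℝ) ≤ N' := by exact_mod_cast hNN
  have h3 : (N' : ℝ) ≤ 2 * N := by exact_mod_cast h2
  have h4 : ‖∑ m ∈ Finset.Ioc N N', ek κ ξ m‖ ≤ N' - N := by
    refine (norm_sum_le _ _).trans (le_of_eq ?_)
    rw [Finset.sum_congr rfl fun m _ => ek_norm _ _ _]
    simp only [Finset.sum_const, Nat.card_Ioc, nsmul_eq_mul, mul_one]
    rw [Nat.cast_sub hNN]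
  have h5 : ‖∫ t in (N : ℝ)..N', ek κ ξ t‖ ≤ N' - N := by
    have := intervalIntegral.norm_integral_le_of_norm_le_const (a := (N : ℝ)) (b := N') (C := 1)
      (f := fun t => ek κ ξ t) fun x _ => (ek_norm _ _ _).le
    rwa [one_mul, abs_of_nonneg (by linarith)] at this
  linarith

theorem DI_le {κ : ℝ} (hκ : 0 < κ) {A : ℝ} (hA : 1 ≤ A) : ∃ C c : ℝ, 0 < C ∧ 0 < c ∧ c ≤ 1 / 10 ∧
    ∀ᶠ N : ℕ in atTop, ∀ N' : ℕ, N ≤ N' → N' ≤ 2 * N → ∀ ξ : ℝ, |ξ| ≤ (N : ℝ) ^ A →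
      ‖DI κ N N' ξ‖ ≤ C * (N : ℝ) ^ (1 - c) := by
  obtain ⟨C, c, hC, hc, hc1, hz⟩ := zs_pow (A + 1)
  have hπ := Real.pi_pos
  set w : ℝ := 2 * π * κ with hw
  have hw0 : 0 < w := by positivity
  refine ⟨C + 3, c, by positivity, hc, hc1, ?_⟩
  filter_upwards [eventually_ge_atTop 2, tendsto_natCast_atTop_atTop.eventually_ge_atTop w] with N hN hNw N' hNN h2 ξ hξ
  have hN0 : (0 : ℝ) < N := by exact_mod_cast (by omega : 0 < N)
  have hN1 : (1 : ℝ) ≤ N := by exact_mod_cast (by omega : 1 ≤ N)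
  have habs : |2 * π * κ * ξ| = w * |ξ| := by rw [abs_mul, ← hw, abs_of_pos hw0]
  have hhalf : (N : ℝ) ^ (1 / 2 : ℝ) ≤ (N : ℝ) ^ (1 - c) :=
    Real.rpow_le_rpow_of_exponent_le hN1 (by linarith)
  have hp : 0 < (N : ℝ) ^ (1 - c) := Real.rpow_pos_of_pos hN0 _
  rcases le_or_gt (w * |ξ|) ((N : ℝ) ^ (1 / 2 : ℝ)) with h1 | h1
  · refine (DI_low (by omega) hNN h2 ξ).trans ?_
    rw [habs]
    nlinarith
  · have hx0 : 0 < w * |ξ| := lt_of_le_of_lt (Real.rpow_nonneg hN0.le _) h1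
    have hξ0 : -(2 * π * κ * ξ) ≠ 0 := by
      intro h0
      rw [← abs_eq_zero, abs_neg, habs] at h0
      linarith
    have habs2 : |-(2 * π * κ * ξ)| = w * |ξ| := by rw [abs_neg, habs]
    have h3 : w * |ξ| ≤ (N : ℝ) ^ (A + 1) := by
      rw [Real.rpow_add hN0, Real.rpow_one, mul_comm]
      exact mul_le_mul hξ hNw hw0.le (Real.rpow_nonneg hN0.le _)
    have h4 := hz N N' (-(2 * π * κ * ξ)) hN hNN h2 (by rw [habs2]; exact h1.le) (by rw [habs2]; exact h3)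
    unfold DI
    refine (norm_sub_le _ _).trans ?_
    have e : ∑ m ∈ Finset.Ioc N N', ek κ ξ m =
        ∑ n ∈ Finset.Ioc N N', (n : ℂ) ^ (-((-(2 * π * κ * ξ) : ℝ) : ℂ) * Complex.I) := by
      refine Finset.sum_congr rfl fun m hm => ?_
      rw [Finset.mem_Ioc] at hm
      have := ek_eq (κ := κ) (ξ := ξ) (x := (m : ℝ)) (by exact_mod_cast (by omega : 0 < m))
      rw [this, Complex.ofReal_natCast]
    rw [e, int_eq (by omega) hNN]
    have hN0' : (0 : ℝ) < N' := by exact_mod_cast (by omega : 0 < N')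
    have p1 := prim_norm (t := -(2 * π * κ * ξ)) hN0' hξ0
    have p2 := prim_norm (t := -(2 * π * κ * ξ)) hN0 hξ0
    rw [habs2] at p1 p2
    have h7 : (N' : ℝ) ≤ 2 * N := by exact_mod_cast h2
    have h8 : ‖prim (-(2 * π * κ * ξ)) N' - prim (-(2 * π * κ * ξ)) N‖ ≤ 3 * (N : ℝ) ^ (1 - c) := by
      refine (norm_sub_le _ _).trans ?_
      have h9 : (N' : ℝ) / (w * |ξ|) + N / (w * |ξ|) ≤ 3 * N / (w * |ξ|) := by
        rw [← add_div]
        exact div_le_div_of_nonneg_right (by linarith) hx0.le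
      have h10 : 3 * (N : ℝ) / (w * |ξ|) ≤ 3 * (N : ℝ) ^ (1 / 2 : ℝ) := by
        rw [div_le_iff₀ hx0]
        have h11 : (N : ℝ) = (N : ℝ) ^ (1 / 2 : ℝ) * (N : ℝ) ^ (1 / 2 : ℝ) := by
          rw [← Real.rpow_add hN0]; norm_num
        have h12 : 0 < (N : ℝ) ^ (1 / 2 : ℝ) := Real.rpow_pos_of_pos hN0 _
        nlinarith
      linarith
    linarith

end Pool.Agent.Run7.h129.BU
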