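import Mathlib
import Pool.Agent.Run7.h129.BU.Dif
import Pool.Agent.Run7.h129.BD.Dec

set_option autoImplicit false

/-!
# The mean square of sum minus integral
-/

open Complex Filter Topology Set MeasureTheory Metric
open scoped Real FourierTransform Convolution

namespace Pool.Agent.Run7.h129.BU

open Pool.Agent.W66 Pool.Agent.Run7.h129.BH Pool.Agent.Run7.h129.BD

/-- the smoothed function -/
noncomputable def Ph (g : ℝ → ℝ) (h x : ℝ) : ℝ := ∫ y, g y * tri h (x - y)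

lemma Ph_conv (g : ℝ → ℝ) (h : ℝ) : Ph g h = g ⋆[ContinuousLinearMap.mul ℝ ℝ] tri h := by
  ext x
  rw [MeasureTheory.convolution_def]
  rfl

lemma Ph_cont {g : ℝ → ℝ} (hg : Integrable g) {h : ℝ} (hh : 0 < h) : Continuous (Ph g h) := by
  rw [Ph_conv]
  exact (tri_hasCompactSupport hh).continuous_convolution_right _ hg.locallyIntegrable (tri_continuous h)

lemma Ph_int {g : ℝ → ℝ} (hg : Integrable g) {h : ℝ} (hh : 0 < h) : Integrable (Ph g h) := by
  rw [Ph_conv]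
  exact hg.integrable_convolution _ (tri_integrable hh)

lemma tri_sub_int {h : ℝ} (hh : 0 < h) (x : ℝ) : Integrable fun y => tri h (x - y) :=
  (tri_integrable hh).comp_sub_left x

lemma integral_tri_sub {h : ℝ} (hh : 0 < h) (x : ℝ) : ∫ y, tri h (x - y) = 1 := by
  rw [integral_sub_left_eq_self (fun y => tri h y) volume x]
  exact integral_tri hh

lemma gtri_int {g : ℝ → ℝ} (hg : Integrable g) {h : ℝ} (hh : 0 < h) (x : ℝ) :
    Integrable fun y => g y * tri h (x - y) := by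
  refine hg.mul_bdd (c := 1 / h) ((tri_continuous h).comp (by fun_prop)).aestronglyMeasurable
    (Eventually.of_forall fun y => ?_)
  rw [Real.norm_of_nonneg (tri_nonneg hh _)]
  exact tri_le hh _

lemma Ph_nonneg {g : ℝ → ℝ} (hg0 : ∀ x, 0 ≤ g x) {h : ℝ} (hh : 0 < h) (x : ℝ) : 0 ≤ Ph g h x :=
  integral_nonneg fun y => mul_nonneg (hg0 y) (tri_nonneg hh _)

lemma Ph_le_one {g : ℝ → ℝ} (hg : Integrable g) (hg1 : ∀ x, g x ≤ 1) {h : ℝ} (hh : 0 < h) (x : ℝ) :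
    Ph g h x ≤ 1 := by
  rw [← integral_tri_sub hh x]
  refine integral_mono (gtri_int hg hh x) (tri_sub_int hh x) fun y => ?_
  exact mul_le_of_le_one_left (tri_nonneg hh _) (hg1 y)

/-- the value is one if `g` is one near `x` -/
lemma Ph_one {g : ℝ → ℝ} {h : ℝ} (hh : 0 < h) {x : ℝ} (hg : ∀ y, |y - x| < h → g y = 1) : Ph g h x = 1 := by
  rw [← integral_tri_sub hh x]
  unfold Ph
  refine integral_congr_ae (Eventually.of_forall fun y => ?_)
  simp only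
  by_cases hy : |y - x| < h
  · rw [hg y hy, one_mul]
  · rw [tri_zero_of hh (by rw [abs_sub_comm]; exact not_lt.1 hy), mul_zero]

/-- the value is zero if `g` is zero near `x` -/
lemma Ph_zero {g : ℝ → ℝ} {h : ℝ} (hh : 0 < h) {x : ℝ} (hg : ∀ y, |y - x| < h → g y = 0) : Ph g h x = 0 := by
  unfold Ph
  have e : (fun y => g y * tri h (x - y)) = fun _ => 0 := by
    ext y
    by_cases hy : |y - x| < h
    · rw [hg y hy, zero_mul]
    · rw [tri_zero_of hh (by rw [abs_sub_comm]; exact not_lt.1 hy), mul_zero]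
  rw [e]
  simp

lemma four_Ph {g : ℝ → ℝ} (hg : Integrable g) {h : ℝ} (hh : 0 < h) (ξ : ℝ) :
    𝓕 (fun x => ((Ph g h x : ℝ) : ℂ)) ξ = 𝓕 (fun x => ((g x : ℝ) : ℂ)) ξ * 𝓕 (boxC h) ξ ^ 2 := by
  have h1 : (fun x => ((Ph g h x : ℝ) : ℂ)) =
      (fun x => ((g x : ℝ) : ℂ)) ⋆[ContinuousLinearMap.mul ℂ ℂ] (triC h) := by
    ext x
    rw [MeasureTheory.convolution_def]
    unfold Ph
    rw [← integral_complex_ofReal]
    refine integral_congr_ae (Eventually.of_forall fun y => ?_)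
    simp only [ContinuousLinearMap.mul_apply', triC]
    push_cast
    rfl
  have h2 : Integrable fun x => ((g x : ℝ) : ℂ) := hg.ofReal
  rw [h1, Real.fourier_mul_convolution_eq h2 (triC_integrable hh), four_triC hh]

/-- sum minus integral of the smoothed function -/
noncomputable def FD (κ : ℝ) (N N' : ℕ) (g : ℝ → ℝ) (h x : ℝ) : ℝ :=
  ∑ m ∈ Finset.Ioc N N', Ph g h (x + κ * Real.log m) - ∫ t in (N : ℝ)..N', Ph g h (x + κ * Real.log t)

variable {g : ℝ → ℝ} {h κ : ℝ}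

lemma prod_int (hg : Integrable g) (hh : 0 < h) (κ : ℝ) (N N' : ℕ) (φ : ℝ → ℂ)
    (hφ : Continuous φ) (hφ1 : ∀ x, ‖φ x‖ = 1) :
    Integrable (fun p : ℝ × ℝ => φ p.1 * ((Ph g h (p.1 + κ * Real.log p.2) : ℝ) : ℂ))
      (volume.prod (volume.restrict (Ioc (N : ℝ) N'))) := by
  have hc := Ph_cont hg hh
  have hm : AEStronglyMeasurable (fun p : ℝ × ℝ => φ p.1 * ((Ph g h (p.1 + κ * Real.log p.2) : ℝ) : ℂ))
      (volume.prod (volume.restrict (Ioc (N : ℝ) N'))) := by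
    refine Measurable.aestronglyMeasurable ?_
    refine (hφ.measurable.comp measurable_fst).mul (Complex.measurable_ofReal.comp (hc.measurable.comp ?_))
    exact measurable_fst.add (measurable_const.mul (Real.measurable_log.comp measurable_snd))
  rw [integrable_prod_iff' hm]
  have hi : ∀ s : ℝ, Integrable fun x => ((Ph g h (x + s) : ℝ) : ℂ) := fun s =>
    ((Ph_int hg hh).comp_add_right s).ofReal
  constructor
  · refine Eventually.of_forall fun t => ?_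
    exact (hi (κ * Real.log t)).bdd_mul (c := 1) hφ.aestronglyMeasurable
      (Eventually.of_forall fun x => (hφ1 x).le)
  · have e : (fun t : ℝ => ∫ x, ‖φ x * ((Ph g h (x + κ * Real.log t) : ℝ) : ℂ)‖) =
        fun _ => ∫ x, ‖((Ph g h x : ℝ) : ℂ)‖ := by
      ext t
      have e1 : ∀ x, ‖φ x * ((Ph g h (x + κ * Real.log t) : ℝ) : ℂ)‖ =
          ‖((Ph g h (x + κ * Real.log t) : ℝ) : ℂ)‖ := by
        intro x
        rw [norm_mul, hφ1, one_mul]
      simp only [e1]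
      exact integral_add_right_eq_self (fun x => ‖((Ph g h x : ℝ) : ℂ)‖) (κ * Real.log t)
    rw [show (fun y : ℝ => ∫ x, ‖φ (x, y).1 * ((Ph g h ((x, y).1 + κ * Real.log (x, y).2) : ℝ) : ℂ)‖) =
      (fun t : ℝ => ∫ x, ‖φ x * ((Ph g h (x + κ * Real.log t) : ℝ) : ℂ)‖) from rfl, e]
    exact integrable_const _

lemma J_integrable (hg : Integrable g) (hh : 0 < h) (κ : ℝ) {N N' : ℕ} (hNN : N ≤ N') :
    Integrable fun x => ((∫ t in (N : ℝ)..N', Ph g h (x + κ * Real.log t) : ℝ) : ℂ) := by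
  have h1 := (prod_int hg hh κ N N' (fun _ => 1) continuous_const (by simp)).integral_prod_left
  refine h1.congr (Eventually.of_forall fun x => ?_)
  simp only [one_mul]
  rw [intervalIntegral.integral_of_le (by exact_mod_cast hNN)]
  exact integral_ofReal

lemma four_shift {f : ℝ → ℂ} (hf : Integrable f) (s ξ : ℝ) :
    𝓕 (fun x => f (x + s)) ξ = cexp (((2 * π * ξ * s : ℝ) : ℂ) * I) * 𝓕 f ξ := by
  have h1 := four_sum' hf ({0} : Finset ℕ) (fun _ => 1) (fun _ => -s) ξ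
  simp only [Finset.sum_singleton, one_mul, sub_neg_eq_add] at h1
  rw [h1]
  congr 2
  push_cast
  ring

lemma four_J (hg : Integrable g) (hh : 0 < h) {N N' : ℕ} (hNN : N ≤ N') (ξ : ℝ) :
    𝓕 (fun x => ((∫ t in (N : ℝ)..N', Ph g h (x + κ * Real.log t) : ℝ) : ℂ)) ξ =
      (∫ t in (N : ℝ)..N', ek κ ξ t) * 𝓕 (fun x => ((Ph g h x : ℝ) : ℂ)) ξ := by
  have hle : (N : ℝ) ≤ N' := by exact_mod_cast hNN
  have hφc : Continuous fun x : ℝ => cexp (-(((2 * π * ξ * x : ℝ) : ℂ) * I)) := by fun_prop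
  have hφ1 : ∀ x : ℝ, ‖cexp (-(((2 * π * ξ * x : ℝ) : ℂ) * I))‖ = 1 := by
    intro x
    rw [show -(((2 * π * ξ * x : ℝ) : ℂ) * I) = ((-(2 * π * ξ * x) : ℝ) : ℂ) * I by push_cast; ring,
      Complex.norm_exp_ofReal_mul_I]
  have hF : ∀ f : ℝ → ℂ, 𝓕 f ξ = ∫ x, cexp (-(((2 * π * ξ * x : ℝ) : ℂ) * I)) * f x := by
    intro f
    rw [Real.fourier_real_eq_integral_exp_smul]
    refine integral_congr_ae (Eventually.of_forall fun x => ?_)
    simp only [smul_eq_mul]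
    congr 2
    push_cast
    ring
  rw [hF]
  have h1 := prod_int hg hh κ N N' (fun x => cexp (-(((2 * π * ξ * x : ℝ) : ℂ) * I))) hφc hφ1
  have h2 : ∀ x : ℝ, cexp (-(((2 * π * ξ * x : ℝ) : ℂ) * I)) *
      ((∫ t in (N : ℝ)..N', Ph g h (x + κ * Real.log t) : ℝ) : ℂ) =
      ∫ t in Ioc (N : ℝ) N', cexp (-(((2 * π * ξ * x : ℝ) : ℂ) * I)) *
        ((Ph g h (x + κ * Real.log t) : ℝ) : ℂ) := by
    intro x
    rw [intervalIntegral.integral_of_le hle, integral_const_mul]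
    congr 1
    exact (integral_ofReal).symm
  simp only [h2]
  have h3 := integral_integral_swap (f := fun x t : ℝ => cexp (-(((2 * π * ξ * x : ℝ) : ℂ) * I)) *
    ((Ph g h (x + κ * Real.log t) : ℝ) : ℂ)) (μ := volume) (ν := volume.restrict (Ioc (N : ℝ) N')) h1
  rw [h3, intervalIntegral.integral_of_le hle, ← integral_mul_const]
  refine integral_congr_ae (Eventually.of_forall fun t => ?_)
  simp only
  rw [← hF (fun x => ((Ph g h (x + κ * Real.log t) : ℝ) : ℂ)),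
    four_shift (f := fun x => ((Ph g h x : ℝ) : ℂ)) (Ph_int hg hh).ofReal]
  rfl

lemma S_integrable (hg : Integrable g) (hh : 0 < h) (κ : ℝ) (N N' : ℕ) :
    Integrable fun x => ((∑ m ∈ Finset.Ioc N N', Ph g h (x + κ * Real.log m) : ℝ) : ℂ) := by
  push_cast
  exact integrable_finsetSum _ fun m _ => ((Ph_int hg hh).comp_add_right _).ofReal

lemma four_S (hg : Integrable g) (hh : 0 < h) (N N' : ℕ) (ξ : ℝ) :
    𝓕 (fun x => ((∑ m ∈ Finset.Ioc N N', Ph g h (x + κ * Real.log m) : ℝ) : ℂ)) ξ =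
      (∑ m ∈ Finset.Ioc N N', ek κ ξ m) * 𝓕 (fun x => ((Ph g h x : ℝ) : ℂ)) ξ := by
  have h1 := four_sum' (f := fun x => ((Ph g h x : ℝ) : ℂ)) (Ph_int hg hh).ofReal (Finset.Ioc N N')
    (fun _ => 1) (fun m => -(κ * Real.log m)) ξ
  have e1 : (fun x => ((∑ m ∈ Finset.Ioc N N', Ph g h (x + κ * Real.log m) : ℝ) : ℂ)) =
      fun x => ∑ m ∈ Finset.Ioc N N', (1 : ℂ) * ((Ph g h (x - -(κ * Real.log m)) : ℝ) : ℂ) := by
    ext x
    push_cast
    simp only [sub_neg_eq_add, one_mul]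
  rw [e1, h1]
  congr 1
  refine Finset.sum_congr rfl fun m _ => ?_
  unfold ek
  rw [one_mul]
  congr 1
  push_cast
  ring

lemma FD_integrable (hg : Integrable g) (hh : 0 < h) (κ : ℝ) {N N' : ℕ} (hNN : N ≤ N') :
    Integrable fun x => ((FD κ N N' g h x : ℝ) : ℂ) := by
  have h1 := (S_integrable hg hh κ N N').sub (J_integrable hg hh κ hNN)
  refine h1.congr (Eventually.of_forall fun x => ?_)
  unfold FD
  simp only [Pi.sub_apply]
  push_cast
  rfl

lemma four_FD (hg : Integrable g) (hh : 0 < h) {N N' : ℕ} (hNN : N ≤ N') (ξ : ℝ) :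
    𝓕 (fun x => ((FD κ N N' g h x : ℝ) : ℂ)) ξ =
      DI κ N N' ξ * (𝓕 (fun x => ((g x : ℝ) : ℂ)) ξ * 𝓕 (boxC h) ξ ^ 2) := by
  have e1 : (fun x => ((FD κ N N' g h x : ℝ) : ℂ)) =
      fun x => ((∑ m ∈ Finset.Ioc N N', Ph g h (x + κ * Real.log m) : ℝ) : ℂ) -
        ((∫ t in (N : ℝ)..N', Ph g h (x + κ * Real.log t) : ℝ) : ℂ) := by
    ext x
    unfold FD
    rw [Complex.ofReal_sub]
  rw [e1, four_sub (S_integrable hg hh κ N N') (J_integrable hg hh κ hNN), four_S hg hh, four_J hg hh hNN,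
    ← sub_mul, four_Ph hg hh]
  rfl

lemma FD_bdd (hg : Integrable g) (hg0 : ∀ x, 0 ≤ g x) (hg1 : ∀ x, g x ≤ 1) (hh : 0 < h) (κ : ℝ)
    {N N' : ℕ} (hNN : N ≤ N') (x : ℝ) : |FD κ N N' g h x| ≤ N' - N := by
  have hle : (N : ℝ) ≤ N' := by exact_mod_cast hNN
  have hc := Ph_cont hg hh
  have h1 : ∑ m ∈ Finset.Ioc N N', Ph g h (x + κ * Real.log m) ≤ N' - N := by
    calc ∑ m ∈ Finset.Ioc N N', Ph g h (x + κ * Real.log m) ≤ ∑ m ∈ Finset.Ioc N N', (1 : ℝ) :=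
          Finset.sum_le_sum fun m _ => Ph_le_one hg hg1 hh _
      _ = _ := by simp [Nat.cast_sub hNN]
  have h2 : 0 ≤ ∑ m ∈ Finset.Ioc N N', Ph g h (x + κ * Real.log m) :=
    Finset.sum_nonneg fun m _ => Ph_nonneg hg0 hh _
  have h3 : 0 ≤ ∫ t in (N : ℝ)..N', Ph g h (x + κ * Real.log t) :=
    intervalIntegral.integral_nonneg hle fun t _ => Ph_nonneg hg0 hh _
  have h4 : ∫ t in (N : ℝ)..N', Ph g h (x + κ * Real.log t) ≤ N' - N := by
    have h5 := intervalIntegral.norm_integral_le_of_norm_le_const (a := (N : ℝ)) (b := N') (C := 1)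
      (f := fun t => Ph g h (x + κ * Real.log t)) fun t _ => by
        rw [Real.norm_of_nonneg (Ph_nonneg hg0 hh _)]
        exact Ph_le_one hg hg1 hh _
    rw [one_mul, abs_of_nonneg (by linarith)] at h5
    exact (le_abs_self _).trans h5
  unfold FD
  rw [abs_le]
  constructor <;> linarith

lemma FD_memLp (hg : Integrable g) (hg0 : ∀ x, 0 ≤ g x) (hg1 : ∀ x, g x ≤ 1) (hh : 0 < h) (κ : ℝ)
    {N N' : ℕ} (hNN : N ≤ N') : MemLp (fun x => ((FD κ N N' g h x : ℝ) : ℂ)) 2 := by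
  have h1 := FD_integrable hg hh κ hNN
  rw [memLp_two_iff_integrable_sq_norm h1.aestronglyMeasurable]
  have h2 : Integrable fun x => ((N' : ℝ) - N) * ‖((FD κ N N' g h x : ℝ) : ℂ)‖ := h1.norm.const_mul _
  refine h2.mono' (h1.aestronglyMeasurable.norm.pow 2) (Eventually.of_forall fun x => ?_)
  have h3 := FD_bdd hg hg0 hg1 hh κ hNN x
  rw [Real.norm_of_nonneg (by positivity), sq]
  refine mul_le_mul_of_nonneg_right ?_ (norm_nonneg _)
  rw [Complex.norm_real]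
  exact h3

theorem FD_sq (hg : Integrable g) (hg2 : MemLp g 2) (hg0 : ∀ x, 0 ≤ g x) (hg1 : ∀ x, g x ≤ 1) (hh : 0 < h)
    (κ : ℝ) {N N' : ℕ} (hNN : N ≤ N') {G : ℝ} (hG : ∀ ξ, ‖DI κ N N' ξ‖ * ‖𝓕 (boxC h) ξ‖ ≤ G) :
    Integrable (fun x => FD κ N N' g h x ^ 2) ∧ ∫ x, FD κ N N' g h x ^ 2 ≤ G ^ 2 * ∫ x, g x ^ 2 := by
  have hG0 : 0 ≤ G := le_trans (by positivity) (hG 0)
  have hL := FD_memLp hg hg0 hg1 hh κ hNN
  have hI := FD_integrable hg hh κ hNN
  have e : ∀ x, ‖((FD κ N N' g h x : ℝ) : ℂ)‖ ^ 2 = FD κ N N' g h x ^ 2 := by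
    intro x
    rw [Complex.norm_real, Real.norm_eq_abs, sq_abs]
  have hsq : Integrable (fun x => FD κ N N' g h x ^ 2) := by
    have := hL.integrable_norm_pow (by norm_num)
    simp only [e] at this
    exact this
  refine ⟨hsq, ?_⟩
  have hgC : MemLp (fun x => ((g x : ℝ) : ℂ)) 2 := hg2.ofReal
  have hgI : Integrable fun x => ((g x : ℝ) : ℂ) := hg.ofReal
  calc ∫ x, FD κ N N' g h x ^ 2 = ∫ x, ‖((FD κ N N' g h x : ℝ) : ℂ)‖ ^ 2 := by simp only [e]
    _ = ∫ ξ, ‖𝓕 (fun x => ((FD κ N N' g h x : ℝ) : ℂ)) ξ‖ ^ 2 := (planch hI hL).symm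
    _ ≤ ∫ ξ, G ^ 2 * ‖𝓕 (fun x => ((g x : ℝ) : ℂ)) ξ‖ ^ 2 := by
        refine integral_mono ((four_memLp hI hL).integrable_norm_pow (by norm_num))
          (((four_memLp hgI hgC).integrable_norm_pow (by norm_num)).const_mul _) fun ξ => ?_
        simp only
        rw [four_FD hg hh hNN, ← mul_pow]
        refine pow_le_pow_left₀ (norm_nonneg _) ?_ 2
        rw [norm_mul, norm_mul, norm_pow]
        have h1 := hG ξ
        have h2 := norm_four_box_le_one hh ξ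
        have h3 := norm_nonneg (𝓕 (fun x => ((g x : ℝ) : ℂ)) ξ)
        calc ‖DI κ N N' ξ‖ * (‖𝓕 (fun x => ((g x : ℝ) : ℂ)) ξ‖ * ‖𝓕 (boxC h) ξ‖ ^ 2) =
              (‖DI κ N N' ξ‖ * ‖𝓕 (boxC h) ξ‖) * ‖𝓕 (boxC h) ξ‖ * ‖𝓕 (fun x => ((g x : ℝ) : ℂ)) ξ‖ := by ring
          _ ≤ G * 1 * ‖𝓕 (fun x => ((g x : ℝ) : ℂ)) ξ‖ := by gcongr
          _ = _ := by ring
    _ = G ^ 2 * ∫ ξ, ‖𝓕 (fun x => ((g x : ℝ) : ℂ)) ξ‖ ^ 2 := integral_const_mul _ _
    _ = G ^ 2 * ∫ x, g x ^ 2 := by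
        rw [planch hgI hgC]
        congr 2
        ext x
        rw [Complex.norm_real, Real.norm_eq_abs, sq_abs]

end Pool.Agent.Run7.h129.BU
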