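import Mathlib
import Pool.Agent.Run7.h129.BU.L2

set_option autoImplicit false

/-!
# Sets of integers in the logarithmic scale, and the sandwich
-/

open Complex Filter Topology Set MeasureTheory Metric
open scoped Real

namespace Pool.Agent.Run7.h129.BU

open Pool.Agent.W66 Pool.Agent.Run7.h129.BH Pool.Agent.Run7.h129.BD

/-- the enlarged (`ρ > 0`) or diminished (`ρ < 0`) set of the logarithms of the reals with integer part in `A` -/
def Us (A : Set ℕ) (ρ Z1 Z2 : ℝ) : Set ℝ :=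
  Icc Z1 Z2 ∩ ⋃ n ∈ {n : ℕ | n ∈ A ∧ 1 ≤ n}, Icc (Real.log n - ρ) (Real.log (n + 1) + ρ)

lemma mem_Us {A : Set ℕ} {ρ Z1 Z2 z : ℝ} : z ∈ Us A ρ Z1 Z2 ↔ z ∈ Icc Z1 Z2 ∧
    ∃ n : ℕ, n ∈ A ∧ 1 ≤ n ∧ Real.log n - ρ ≤ z ∧ z ≤ Real.log (n + 1) + ρ := by
  unfold Us
  simp only [mem_inter_iff, mem_iUnion, mem_Icc]
  constructor
  · rintro ⟨h1, n, ⟨h2, h3⟩, h4, h5⟩
    exact ⟨h1, n, h2, h3, h4, h5⟩
  · rintro ⟨h1, n, h2, h3, h4, h5⟩
    exact ⟨h1, n, ⟨h2, h3⟩, h4, h5⟩

lemma Us_meas (A : Set ℕ) (ρ Z1 Z2 : ℝ) : MeasurableSet (Us A ρ Z1 Z2) :=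
  measurableSet_Icc.inter (MeasurableSet.biUnion (Set.to_countable _) fun _ _ => measurableSet_Icc)

/-- the indicator function -/
noncomputable def gs (A : Set ℕ) (ρ Z1 Z2 : ℝ) : ℝ → ℝ := (Us A ρ Z1 Z2).indicator fun _ => 1

lemma gs_nonneg (A : Set ℕ) (ρ Z1 Z2 x : ℝ) : 0 ≤ gs A ρ Z1 Z2 x :=
  Set.indicator_nonneg (fun _ _ => zero_le_one) _

lemma gs_le_one (A : Set ℕ) (ρ Z1 Z2 x : ℝ) : gs A ρ Z1 Z2 x ≤ 1 := by
  unfold gs
  exact Set.indicator_le_self' (fun _ _ => zero_le_one) x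

lemma gs_vol (A : Set ℕ) (ρ Z1 Z2 : ℝ) : volume (Us A ρ Z1 Z2) ≤ ENNReal.ofReal (Z2 - Z1) := by
  refine (measure_mono inter_subset_left).trans ?_
  rw [Real.volume_Icc]

lemma gs_int (A : Set ℕ) (ρ Z1 Z2 : ℝ) : Integrable (gs A ρ Z1 Z2) := by
  unfold gs
  rw [integrable_indicator_iff (Us_meas _ _ _ _)]
  refine integrableOn_const ?_
  exact ((gs_vol A ρ Z1 Z2).trans_lt ENNReal.ofReal_lt_top).ne

lemma gs_memLp (A : Set ℕ) (ρ Z1 Z2 : ℝ) : MemLp (gs A ρ Z1 Z2) 2 := by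
  unfold gs
  refine memLp_indicator_const 2 (Us_meas _ _ _ _) _ (Or.inr ?_)
  exact ((gs_vol A ρ Z1 Z2).trans_lt ENNReal.ofReal_lt_top).ne

lemma gs_sq (A : Set ℕ) (ρ : ℝ) {Z1 Z2 : ℝ} (hZ : Z1 ≤ Z2) : ∫ x, gs A ρ Z1 Z2 x ^ 2 ≤ Z2 - Z1 := by
  have e : ∀ x, gs A ρ Z1 Z2 x ^ 2 = gs A ρ Z1 Z2 x := by
    intro x
    unfold gs
    by_cases hx : x ∈ Us A ρ Z1 Z2
    · rw [Set.indicator_of_mem hx]; norm_num
    · rw [Set.indicator_of_notMem hx]; norm_num
  simp only [e]
  unfold gs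
  rw [integral_indicator (Us_meas _ _ _ _)]
  simp only [integral_const, smul_eq_mul, mul_one, MeasurableSet.univ, measureReal_restrict_apply, univ_inter]
  rw [Measure.real]
  calc (volume (Us A ρ Z1 Z2)).toReal ≤ (ENNReal.ofReal (Z2 - Z1)).toReal :=
        ENNReal.toReal_mono ENNReal.ofReal_ne_top (gs_vol A ρ Z1 Z2)
    _ = Z2 - Z1 := ENNReal.toReal_ofReal (by linarith)

lemma gs_eq_one {A : Set ℕ} {ρ Z1 Z2 x : ℝ} (h : x ∈ Us A ρ Z1 Z2) : gs A ρ Z1 Z2 x = 1 := by
  unfold gs; rw [Set.indicator_of_mem h]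

lemma gs_eq_zero {A : Set ℕ} {ρ Z1 Z2 x : ℝ} (h : x ∉ Us A ρ Z1 Z2) : gs A ρ Z1 Z2 x = 0 := by
  unfold gs; rw [Set.indicator_of_notMem h]

/-- the set of the `z` with `⌊e^z⌋ ∈ A` -/
def Xs (A : Set ℕ) : Set ℝ := {z | ∃ n : ℕ, n ∈ A ∧ 1 ≤ n ∧ Real.log n ≤ z ∧ z < Real.log (n + 1)}

lemma Xs_meas (A : Set ℕ) : MeasurableSet (Xs A) := by
  have h : Xs A = ⋃ n ∈ {n : ℕ | n ∈ A ∧ 1 ≤ n}, Ico (Real.log n) (Real.log (n + 1)) := by
    ext z
    unfold Xs
    simp only [mem_iUnion, mem_Ico]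
    constructor
    · rintro ⟨n, h1, h2, h3, h4⟩
      exact ⟨n, ⟨h1, h2⟩, h3, h4⟩
    · rintro ⟨n, ⟨h1, h2⟩, h3, h4⟩
      exact ⟨n, h1, h2, h3, h4⟩
  rw [h]
  exact MeasurableSet.biUnion (Set.to_countable _) fun _ _ => measurableSet_Ico

/-- the indicator function -/
noncomputable def chi (A : Set ℕ) : ℝ → ℝ := (Xs A).indicator fun _ => 1

lemma chi_meas (A : Set ℕ) : Measurable (chi A) := measurable_const.indicator (Xs_meas A)

lemma chi_nonneg (A : Set ℕ) (x : ℝ) : 0 ≤ chi A x := Set.indicator_nonneg (fun _ _ => zero_le_one) _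

lemma chi_le_one (A : Set ℕ) (x : ℝ) : chi A x ≤ 1 := by
  unfold chi
  exact Set.indicator_le_self' (fun _ _ => zero_le_one) x

/-- the points near the logarithms of the integers -/
def Vs (r : ℝ) : Set ℝ := {z | ∃ n : ℕ, 1 ≤ n ∧ |z - Real.log n| ≤ r}

lemma Vs_meas (r : ℝ) : MeasurableSet (Vs r) := by
  have h : Vs r = ⋃ n ∈ {n : ℕ | 1 ≤ n}, {z | |z - Real.log n| ≤ r} := by
    ext z
    unfold Vs
    simp only [mem_iUnion]
    constructor
    · rintro ⟨n, h1, h2⟩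
      exact ⟨n, h1, h2⟩
    · rintro ⟨n, h1, h2⟩
      exact ⟨n, h1, h2⟩
  rw [h]
  refine MeasurableSet.biUnion (Set.to_countable _) fun n _ => ?_
  exact measurableSet_le (by fun_prop) measurable_const

/-- the indicator function -/
noncomputable def vr (r : ℝ) : ℝ → ℝ := (Vs r).indicator fun _ => 1

lemma vr_meas (r : ℝ) : Measurable (vr r) := measurable_const.indicator (Vs_meas r)

lemma vr_nonneg (r x : ℝ) : 0 ≤ vr r x := Set.indicator_nonneg (fun _ _ => zero_le_one) _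

lemma vr_le_one (r x : ℝ) : vr r x ≤ 1 := by
  unfold vr
  exact Set.indicator_le_self' (fun _ _ => zero_le_one) x

section sandwich

variable {A : Set ℕ} {h Z1 Z2 z z' : ℝ}

lemma up (hh : 0 < h) (h1 : z' ≤ z) (h2 : z ≤ z' + h) (h3 : Z1 + h ≤ z') (h4 : z' + h ≤ Z2) :
    chi A z ≤ Ph (gs A (3 * h) Z1 Z2) h z' ∧ Ph (gs A (3 * h) Z1 Z2) h z' ≤ chi A z + vr (5 * h) z := by
  have hnear : ∀ y, |y - z'| < h → |y - z| ≤ 2 * h ∧ y ∈ Icc Z1 Z2 := by
    intro y hy
    obtain ⟨a1, a2⟩ := abs_lt.1 hy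
    refine ⟨abs_le.2 ⟨by linarith, by linarith⟩, by linarith, by linarith⟩
  constructor
  · by_cases hz : z ∈ Xs A
    · obtain ⟨n, n1, n2, n3, n4⟩ := hz
      have h5 : Ph (gs A (3 * h) Z1 Z2) h z' = 1 := by
        refine Ph_one hh fun y hy => gs_eq_one ?_
        obtain ⟨b1, b2⟩ := hnear y hy
        obtain ⟨b3, b4⟩ := abs_le.1 b1
        rw [mem_Us]
        exact ⟨b2, n, n1, n2, by linarith, by linarith⟩
      rw [h5]
      exact chi_le_one A z
    · unfold chi
      rw [Set.indicator_of_notMem hz]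
      exact Ph_nonneg (gs_nonneg A _ Z1 Z2) hh _
  · by_cases hz : z ∈ Xs A ∪ Vs (5 * h)
    · refine (Ph_le_one (gs_int A _ Z1 Z2) (gs_le_one A _ Z1 Z2) hh _).trans ?_
      rcases hz with hz | hz
      · have : chi A z = 1 := by unfold chi; rw [Set.indicator_of_mem hz]
        have h5 := vr_nonneg (5 * h) z
        linarith
      · have : vr (5 * h) z = 1 := by unfold vr; rw [Set.indicator_of_mem hz]
        have h5 := chi_nonneg A z
        linarith
    · rw [mem_union, not_or] at hz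
      have h5 : Ph (gs A (3 * h) Z1 Z2) h z' = 0 := by
        refine Ph_zero hh fun y hy => gs_eq_zero fun hcon => ?_
        obtain ⟨b1, b2⟩ := hnear y hy
        obtain ⟨b3, b4⟩ := abs_le.1 b1
        rw [mem_Us] at hcon
        obtain ⟨-, n, n1, n2, n3, n4⟩ := hcon
        rcases lt_or_ge z (Real.log n) with h6 | h6
        · exact hz.2 ⟨n, n2, abs_le.2 ⟨by linarith, by linarith⟩⟩
        · rcases lt_or_ge z (Real.log (n + 1)) with h7 | h7
          · exact hz.1 ⟨n, n1, n2, h6, h7⟩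
          · refine hz.2 ⟨n + 1, by omega, ?_⟩
            push_cast
            exact abs_le.2 ⟨by linarith, by linarith⟩
      rw [h5]
      exact add_nonneg (chi_nonneg A z) (vr_nonneg _ z)

lemma lo (hh : 0 < h) (h1 : z' ≤ z) (h2 : z ≤ z' + h) (h3 : Z1 + h ≤ z') (h4 : z' + h ≤ Z2) :
    Ph (gs A (-(3 * h)) Z1 Z2) h z' ≤ chi A z ∧ chi A z - vr (5 * h) z ≤ Ph (gs A (-(3 * h)) Z1 Z2) h z' := by
  have hnear : ∀ y, |y - z'| < h → |y - z| ≤ 2 * h ∧ y ∈ Icc Z1 Z2 := by
    intro y hy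
    obtain ⟨a1, a2⟩ := abs_lt.1 hy
    refine ⟨abs_le.2 ⟨by linarith, by linarith⟩, by linarith, by linarith⟩
  constructor
  · by_cases hz : z ∈ Xs A
    · have : chi A z = 1 := by unfold chi; rw [Set.indicator_of_mem hz]
      rw [this]
      exact Ph_le_one (gs_int A _ Z1 Z2) (gs_le_one A _ Z1 Z2) hh _
    · have h5 : Ph (gs A (-(3 * h)) Z1 Z2) h z' = 0 := by
        refine Ph_zero hh fun y hy => gs_eq_zero fun hcon => ?_
        obtain ⟨b1, b2⟩ := hnear y hy
        obtain ⟨b3, b4⟩ := abs_le.1 b1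
        rw [mem_Us] at hcon
        obtain ⟨-, n, n1, n2, n3, n4⟩ := hcon
        exact hz ⟨n, n1, n2, by linarith, by linarith⟩
      rw [h5]
      exact chi_nonneg A z
  · by_cases hz : z ∈ Xs A ∧ z ∉ Vs (5 * h)
    · obtain ⟨⟨n, n1, n2, n3, n4⟩, hV⟩ := hz
      have h5 : Ph (gs A (-(3 * h)) Z1 Z2) h z' = 1 := by
        refine Ph_one hh fun y hy => gs_eq_one ?_
        obtain ⟨b1, b2⟩ := hnear y hy
        obtain ⟨b3, b4⟩ := abs_le.1 b1
        rw [mem_Us]
        have h6 : Real.log n + 5 * h < z := by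
          by_contra hcon
          exact hV ⟨n, n2, abs_le.2 ⟨by linarith, by linarith⟩⟩
        have h7 : z < Real.log (n + 1) - 5 * h := by
          by_contra hcon
          refine hV ⟨n + 1, by omega, ?_⟩
          push_cast
          exact abs_le.2 ⟨by linarith, by linarith⟩
        exact ⟨b2, n, n1, n2, by linarith, by linarith⟩
      rw [h5]
      have h6 := chi_le_one A z
      have h7 := vr_nonneg (5 * h) z
      linarith
    · have h5 : chi A z - vr (5 * h) z ≤ 0 := by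
        by_cases hx : z ∈ Xs A
        · have hV : z ∈ Vs (5 * h) := by
            by_contra hcon
            exact hz ⟨hx, hcon⟩
          have h6 : vr (5 * h) z = 1 := by unfold vr; rw [Set.indicator_of_mem hV]
          have h7 := chi_le_one A z
          linarith
        · have h6 : chi A z = 0 := by unfold chi; rw [Set.indicator_of_notMem hx]
          have h7 := vr_nonneg (5 * h) z
          linarith
      exact h5.trans (Ph_nonneg (gs_nonneg A _ Z1 Z2) hh _)

end sandwich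

/-- the measure of the arguments near the integers -/
lemma vr_int {κ v r : ℝ} (hκ : 0 < κ) (hr : 0 ≤ r) {N N' : ℕ} (hN : 1 ≤ N) (hNN : N ≤ N') {Z : ℝ}
    (hZ : v + κ * Real.log N' + r ≤ Z) :
    ∫ t in (N : ℝ)..N', vr r (v + κ * Real.log t) ≤ Real.exp Z * (2 * r * N' / κ) := by
  have hN0 : (0 : ℝ) < N := by exact_mod_cast hN
  have hle : (N : ℝ) ≤ N' := by exact_mod_cast hNN
  have hN0' : (0 : ℝ) < N' := by linarith
  rw [intervalIntegral.integral_of_le hle]
  set T : Set ℝ := {t | v + κ * Real.log t ∈ Vs r} with hT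
  have hTm : MeasurableSet T := by
    have hm : Measurable fun t : ℝ => v + κ * Real.log t :=
      measurable_const.add (measurable_const.mul Real.measurable_log)
    exact hm (Vs_meas r)
  have e : ∀ t, vr r (v + κ * Real.log t) = T.indicator (fun _ => (1 : ℝ)) t := by
    intro t
    unfold vr
    by_cases ht : t ∈ T
    · have ht' : v + κ * Real.log t ∈ Vs r := ht
      rw [Set.indicator_of_mem ht, Set.indicator_of_mem ht']
    · have ht' : v + κ * Real.log t ∉ Vs r := ht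
      rw [Set.indicator_of_notMem ht, Set.indicator_of_notMem ht']
  simp only [e]
  rw [integral_indicator hTm, Measure.restrict_restrict hTm]
  simp only [integral_const, smul_eq_mul, mul_one, MeasurableSet.univ, measureReal_restrict_apply, univ_inter]
  set D : ℝ := 2 * r * N' / κ with hD
  have hD0 : 0 ≤ D := by positivity
  have hsub : T ∩ Ioc (N : ℝ) N' ⊆ ⋃ n ∈ Finset.Icc 1 ⌊Real.exp Z⌋₊,
      {t : ℝ | t ∈ Ioc (N : ℝ) N' ∧ |v + κ * Real.log t - Real.log n| ≤ r} := by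
    rintro t ⟨⟨n, n1, n2⟩, ht⟩
    simp only [mem_iUnion]
    refine ⟨n, ?_, ht, n2⟩
    rw [Finset.mem_Icc]
    refine ⟨n1, Nat.le_floor ?_⟩
    have hn0 : (0 : ℝ) < n := by exact_mod_cast n1
    rw [← Real.log_le_iff_le_exp hn0]
    have h1 : Real.log t ≤ Real.log N' := Real.log_le_log (hN0.trans ht.1) ht.2
    have h2 := (abs_le.1 n2).1
    nlinarith
  have hone : ∀ n : ℕ, volume {t : ℝ | t ∈ Ioc (N : ℝ) N' ∧ |v + κ * Real.log t - Real.log n| ≤ r} ≤
      ENNReal.ofReal D := by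
    intro n
    refine (Real.volume_le_diam _).trans ?_
    refine Metric.ediam_le fun x hx y hy => ?_
    rw [edist_dist]
    refine ENNReal.ofReal_le_ofReal ?_
    rw [Real.dist_eq]
    -- the logarithmic distance
    have key : ∀ x y : ℝ, (x ∈ Ioc (N : ℝ) N' ∧ |v + κ * Real.log x - Real.log n| ≤ r) →
        (y ∈ Ioc (N : ℝ) N' ∧ |v + κ * Real.log y - Real.log n| ≤ r) → x - y ≤ D := by
      rintro x y ⟨hx1, hx2⟩ ⟨hy1, hy2⟩
      have hx0 : 0 < x := hN0.trans hx1.1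
      have hy0 : 0 < y := hN0.trans hy1.1
      have a1 := (abs_le.1 hx2).2
      have a2 := (abs_le.1 hy2).1
      have a3 : κ * (Real.log x - Real.log y) ≤ 2 * r := by linarith
      have a4 : Real.log y - Real.log x ≤ y / x - 1 := by
        rw [← Real.log_div hy0.ne' hx0.ne']
        exact Real.log_le_sub_one_of_pos (by positivity)
      have a5 : (x - y) / x ≤ Real.log x - Real.log y := by
        rw [sub_div, div_self hx0.ne']
        linarith
      rcases le_or_gt x y with h1 | h1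
      · linarith
      · have a6 : (x - y) / N' ≤ (x - y) / x :=
          div_le_div_of_nonneg_left (by linarith) hx0 hx1.2
        have a7 : κ * ((x - y) / N') ≤ 2 * r :=
          (mul_le_mul_of_nonneg_left (a6.trans a5) hκ.le).trans a3
        rw [hD, le_div_iff₀ hκ]
        rw [← mul_div_assoc, div_le_iff₀ hN0'] at a7
        linarith
    rw [abs_le]
    constructor
    · linarith [key y x hy hx]
    · exact key x y hx hy
  have hvol : volume (T ∩ Ioc (N : ℝ) N') ≤ ENNReal.ofReal (Real.exp Z * D) := by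
    refine (measure_mono hsub).trans ((measure_biUnion_finset_le _ _).trans ?_)
    refine (Finset.sum_le_sum fun n _ => hone n).trans ?_
    rw [Finset.sum_const, Nat.card_Icc, add_tsub_cancel_right, nsmul_eq_mul,
      ENNReal.ofReal_mul (Real.exp_pos _).le]
    gcongr
    rw [← ENNReal.ofReal_natCast]
    exact ENNReal.ofReal_le_ofReal (Nat.floor_le (Real.exp_pos _).le)
  rw [Measure.real]
  calc (volume (T ∩ Ioc (N : ℝ) N')).toReal ≤ (ENNReal.ofReal (Real.exp Z * D)).toReal :=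
        ENNReal.toReal_mono ENNReal.ofReal_ne_top hvol
    _ = _ := ENNReal.toReal_ofReal (by positivity)

end Pool.Agent.Run7.h129.BU
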