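import Mathlib
import Pool.Agent.Run7.h129.BU.Sets
import Pool.Agent.Run7.h129.BD.Bad
import Pool.Agent.Run7.h129.BD.Dim

set_option autoImplicit false

/-!
# Good cells outside of a set of dimension less than one, for an arbitrary set of integers
-/

open Complex Filter Topology Set MeasureTheory Metric
open scoped Real FourierTransform

namespace Pool.Agent.Run7.h129.BU

open Pool.Agent.W66 Pool.Agent.Run7.h129.BH Pool.Agent.Run7.h129.BD

lemma FD_cont {g : ℝ → ℝ} {h : ℝ} (hg : Integrable g) (hg0 : ∀ x, 0 ≤ g x) (hg1 : ∀ x, g x ≤ 1)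
    (hh : 0 < h) (κ : ℝ) (N N' : ℕ) : Continuous (FD κ N N' g h) := by
  have hc := Ph_cont hg hh
  unfold FD
  refine Continuous.sub (continuous_finsetSum _ fun m _ => hc.comp (by fun_prop)) ?_
  refine intervalIntegral.continuous_of_dominated_interval (bound := fun _ => 1) ?_ ?_ ?_ ?_
  · intro x
    refine Measurable.aestronglyMeasurable ?_
    exact hc.measurable.comp (measurable_const.add (measurable_const.mul Real.measurable_log))
  · intro x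
    refine Eventually.of_forall fun t _ => ?_
    rw [Real.norm_of_nonneg (Ph_nonneg hg0 hh _)]
    exact Ph_le_one hg hg1 hh _
  · exact intervalIntegrable_const
  · refine Eventually.of_forall fun t _ => hc.comp (by fun_prop)

/-- the width of the cells -/
noncomputable def hB (κ δ : ℝ) (i : ℕ) : ℝ := Real.exp (-((κ + δ) * (i * Real.log 2)))

lemma hB_pos (κ δ : ℝ) (i : ℕ) : 0 < hB κ δ i := Real.exp_pos _

lemma L_nonneg (i : ℕ) : 0 ≤ (i : ℝ) * Real.log 2 := by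
  have := Real.log_pos (by norm_num : (1 : ℝ) < 2)
  positivity

lemma hB_le_one {κ δ : ℝ} (hκ : 0 ≤ κ + δ) (i : ℕ) : hB κ δ i ≤ 1 := by
  unfold hB
  rw [Real.exp_le_one_iff, neg_nonpos]
  exact mul_nonneg hκ (L_nonneg i)

lemma two_pow_eq (i : ℕ) : ((2 ^ i : ℕ) : ℝ) = Real.exp (i * Real.log 2) := by
  rw [Real.exp_nat_mul, Real.exp_log (by norm_num)]
  push_cast
  rfl

lemma pow_rpow (i : ℕ) (s : ℝ) : ((2 ^ i : ℕ) : ℝ) ^ s = Real.exp (s * (i * Real.log 2)) := by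
  rw [two_pow_eq, ← Real.exp_mul, mul_comm]

theorem G_le {κ : ℝ} (hκ : 0 < κ) : ∃ C c : ℝ, 0 < C ∧ 0 < c ∧ c ≤ 1 / 10 ∧ ∀ δ : ℝ, 0 < δ → δ ≤ 1 →
    ∀ᶠ i : ℕ in atTop, ∀ N' : ℕ, 2 ^ i ≤ N' → N' ≤ 2 ^ (i + 1) → ∀ ξ : ℝ,
      ‖DI κ (2 ^ i) N' ξ‖ * ‖𝓕 (boxC (hB κ δ i)) ξ‖ ≤ C * Real.exp ((1 - c) * (i * Real.log 2)) := by
  obtain ⟨C, c, hC, hc, hc1, hD⟩ := DI_le hκ (A := κ + 2) (by linarith)
  refine ⟨C + 2, c, by positivity, hc, hc1, fun δ hδ hδ1 => ?_⟩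
  have ht : Tendsto (fun i : ℕ => 2 ^ i) atTop atTop := tendsto_pow_atTop_atTop_of_one_lt (by norm_num)
  filter_upwards [ht.eventually hD] with i hi N' h1 h2 ξ
  have hh0 := hB_pos κ δ i
  have hL := L_nonneg i
  have hE : 1 ≤ Real.exp ((1 - c) * (i * Real.log 2)) :=
    Real.one_le_exp (mul_nonneg (by linarith) hL)
  have h2' : N' ≤ 2 * 2 ^ i := by rw [pow_succ] at h2; omega
  rcases le_or_gt |ξ| (((2 ^ i : ℕ) : ℝ) ^ (κ + 2)) with h3 | h3
  · have h4 := hi N' h1 h2' ξ h3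
    have h5 := norm_four_box_le_one hh0 ξ
    rw [pow_rpow] at h4
    calc ‖DI κ (2 ^ i) N' ξ‖ * ‖𝓕 (boxC (hB κ δ i)) ξ‖ ≤ (C * Real.exp ((1 - c) * (i * Real.log 2))) * 1 :=
          mul_le_mul h4 h5 (norm_nonneg _) (by positivity)
      _ ≤ _ := by nlinarith
  · have hξ : 0 < |ξ| := lt_of_le_of_lt (Real.rpow_nonneg (by positivity) _) h3
    have h4 := DI_triv (κ := κ) h1 h2' ξ
    have h5 := norm_four_box_le hh0 (abs_pos.1 hξ)
    rw [pow_rpow] at h3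
    have h6 : 1 / (hB κ δ i * |ξ|) ≤ Real.exp (-(i * Real.log 2)) := by
      rw [div_le_iff₀ (by positivity)]
      have h7 : Real.exp (i * Real.log 2) ≤ hB κ δ i * |ξ| := by
        calc Real.exp (i * Real.log 2) ≤ hB κ δ i * Real.exp ((κ + 2) * (i * Real.log 2)) := by
              unfold hB
              rw [← Real.exp_add]
              refine Real.exp_le_exp.2 ?_
              nlinarith
          _ ≤ _ := mul_le_mul_of_nonneg_left h3.le hh0.le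
      calc (1 : ℝ) = Real.exp (-(i * Real.log 2)) * Real.exp (i * Real.log 2) := by
            rw [← Real.exp_add]; simp
        _ ≤ _ := mul_le_mul_of_nonneg_left h7 (Real.exp_pos _).le
    rw [two_pow_eq] at h4
    calc ‖DI κ (2 ^ i) N' ξ‖ * ‖𝓕 (boxC (hB κ δ i)) ξ‖ ≤
          (2 * Real.exp (i * Real.log 2)) * Real.exp (-(i * Real.log 2)) :=
          mul_le_mul h4 (h5.trans h6) (norm_nonneg _) (by positivity)
      _ = 2 := by rw [mul_assoc, ← Real.exp_add]; simp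
      _ ≤ _ := by nlinarith

lemma few {f : ℝ → ℝ} (hf0 : ∀ x, 0 ≤ f x) (hfc : Continuous f) (hfi : Integrable f) {a b h T I : ℝ}
    (hh : 0 < h) (hT : 0 < T) (n : ℕ) (hn : a + (n + 1) * h ≤ b) (hI : ∫ x, f x ≤ I) : ∃ θ ∈ Ico 0 h,
    (((Finset.range n).filter fun k : ℕ => T < f (a + θ + k * h)).card : ℝ) ≤ I / T / h := by
  obtain ⟨θ, hθ, hsum⟩ := grid hf0 hfc hh n hn
  refine ⟨θ, hθ, ?_⟩
  have h1 : (((Finset.range n).filter fun k : ℕ => T < f (a + θ + k * h)).card : ℝ) * T ≤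
      ∑ k ∈ Finset.range n, f (a + θ + k * h) := by
    rw [← nsmul_eq_mul, ← Finset.sum_const]
    refine (Finset.sum_le_sum fun k hk => ?_).trans
      (Finset.sum_le_sum_of_subset_of_nonneg (Finset.filter_subset _ _) fun k _ _ => hf0 _)
    exact (Finset.mem_filter.1 hk).2.le
  have h2 : ∫ x in Ico a b, f x ≤ I :=
    (setIntegral_le_integral hfi (Eventually.of_forall fun x => hf0 x)).trans hI
  rw [div_div, mul_comm T h, ← div_div, le_div_iff₀ hT]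
  exact h1.trans (hsum.trans (div_le_div_of_nonneg_right h2 hh.le))

/-- the length of the partial blocks -/
noncomputable def sB (δ : ℝ) (i : ℕ) : ℕ := ⌈Real.exp ((1 - δ) * (i * Real.log 2))⌉₊

/-- the number of the partial blocks -/
noncomputable def JB (δ : ℝ) (i : ℕ) : ℕ := ⌈Real.exp (δ * (i * Real.log 2))⌉₊

/-- the ends of the partial blocks -/
noncomputable def N2 (δ : ℝ) (i j : ℕ) : ℕ := min (2 ^ i + j * sB δ i) (2 ^ (i + 1))

lemma N2_ge (δ : ℝ) (i j : ℕ) : 2 ^ i ≤ N2 δ i j :=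
  le_min (Nat.le_add_right _ _) (Nat.pow_le_pow_right (by norm_num) (Nat.le_succ i))

lemma N2_le (δ : ℝ) (i j : ℕ) : N2 δ i j ≤ 2 ^ (i + 1) := min_le_right _ _

/-- lower end of the window -/
noncomputable def Z1 (κ : ℝ) (l : ℤ) (i : ℕ) : ℝ := l - 2 + κ * (i * Real.log 2)

/-- upper end of the window -/
noncomputable def Z2 (κ : ℝ) (l : ℤ) (i : ℕ) : ℝ := l + 4 + κ * ((i + 1) * Real.log 2)

lemma Z_sub (κ : ℝ) (l : ℤ) (i : ℕ) : Z2 κ l i - Z1 κ l i = 6 + κ * Real.log 2 := by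
  unfold Z1 Z2; ring

/-- the upper function -/
noncomputable def gU (A : Set ℕ) (κ δ : ℝ) (l : ℤ) (i : ℕ) : ℝ → ℝ :=
  gs A (3 * hB κ δ i) (Z1 κ l i) (Z2 κ l i)

/-- the lower function -/
noncomputable def gL (A : Set ℕ) (κ δ : ℝ) (l : ℤ) (i : ℕ) : ℝ → ℝ :=
  gs A (-(3 * hB κ δ i)) (Z1 κ l i) (Z2 κ l i)

/-- the sum of the squares -/
noncomputable def sqf (A : Set ℕ) (κ δ : ℝ) (l : ℤ) (i : ℕ) (x : ℝ) : ℝ :=
  ∑ j ∈ Finset.range (JB δ i + 1),
    (FD κ (2 ^ i) (N2 δ i j) (gU A κ δ l i) (hB κ δ i) x ^ 2 +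
     FD κ (2 ^ i) (N2 δ i j) (gL A κ δ l i) (hB κ δ i) x ^ 2)

lemma sqf_nonneg (A : Set ℕ) (κ δ : ℝ) (l : ℤ) (i : ℕ) (x : ℝ) : 0 ≤ sqf A κ δ l i x := by
  unfold sqf; positivity

lemma sqf_cont (A : Set ℕ) (κ δ : ℝ) (l : ℤ) (i : ℕ) : Continuous (sqf A κ δ l i) := by
  unfold sqf
  refine continuous_finsetSum _ fun j _ => ?_
  refine ((FD_cont (gs_int _ _ _ _) (gs_nonneg _ _ _ _) (gs_le_one _ _ _ _) (hB_pos κ δ i) κ _ _).pow 2).add
    ((FD_cont (gs_int _ _ _ _) (gs_nonneg _ _ _ _) (gs_le_one _ _ _ _) (hB_pos κ δ i) κ _ _).pow 2)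

lemma sqf_int {A : Set ℕ} {κ δ : ℝ} (hκ : 0 < κ) {l : ℤ} {i : ℕ} {G : ℝ}
    (hG : ∀ N' : ℕ, 2 ^ i ≤ N' → N' ≤ 2 ^ (i + 1) → ∀ ξ : ℝ,
      ‖DI κ (2 ^ i) N' ξ‖ * ‖𝓕 (boxC (hB κ δ i)) ξ‖ ≤ G) :
    Integrable (sqf A κ δ l i) ∧ ∫ x, sqf A κ δ l i x ≤
      (JB δ i + 1) * (2 * (G ^ 2 * (6 + κ * Real.log 2))) := by
  have hlog2 := Real.log_pos (by norm_num : (1 : ℝ) < 2)
  have hZ : Z1 κ l i ≤ Z2 κ l i := by
    have := Z_sub κ l i
    have : 0 < κ * Real.log 2 := by positivity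
    linarith
  have h1 : ∀ (ρ : ℝ) (j : ℕ), Integrable (fun x => FD κ (2 ^ i) (N2 δ i j) (gs A ρ (Z1 κ l i) (Z2 κ l i))
      (hB κ δ i) x ^ 2) ∧ ∫ x, FD κ (2 ^ i) (N2 δ i j) (gs A ρ (Z1 κ l i) (Z2 κ l i))
      (hB κ δ i) x ^ 2 ≤ G ^ 2 * (6 + κ * Real.log 2) := by
    intro ρ j
    obtain ⟨a1, a2⟩ := FD_sq (gs_int A ρ (Z1 κ l i) (Z2 κ l i)) (gs_memLp _ _ _ _) (gs_nonneg _ _ _ _)
      (gs_le_one _ _ _ _) (hB_pos κ δ i) κ (N2_ge δ i j) (hG _ (N2_ge δ i j) (N2_le δ i j))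
    refine ⟨a1, a2.trans ?_⟩
    rw [← Z_sub κ l i]
    exact mul_le_mul_of_nonneg_left (gs_sq A ρ hZ) (sq_nonneg G)
  have hj : ∀ j, Integrable (fun x => FD κ (2 ^ i) (N2 δ i j) (gU A κ δ l i) (hB κ δ i) x ^ 2 +
     FD κ (2 ^ i) (N2 δ i j) (gL A κ δ l i) (hB κ δ i) x ^ 2) := fun j =>
    (h1 (3 * hB κ δ i) j).1.add (h1 (-(3 * hB κ δ i)) j).1
  constructor
  · unfold sqf
    exact integrable_finsetSum _ fun j _ => hj j
  · unfold sqf
    rw [integral_finsetSum _ fun j _ => hj j]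
    have h2 : ∀ j ∈ Finset.range (JB δ i + 1),
        ∫ x, (FD κ (2 ^ i) (N2 δ i j) (gU A κ δ l i) (hB κ δ i) x ^ 2 +
          FD κ (2 ^ i) (N2 δ i j) (gL A κ δ l i) (hB κ δ i) x ^ 2) ≤ 2 * (G ^ 2 * (6 + κ * Real.log 2)) := by
      intro j _
      unfold gU gL
      rw [integral_add (h1 (3 * hB κ δ i) j).1 (h1 (-(3 * hB κ δ i)) j).1]
      have b1 := (h1 (3 * hB κ δ i) j).2
      have b2 := (h1 (-(3 * hB κ δ i)) j).2
      linarith
    refine (Finset.sum_le_sum h2).trans (le_of_eq ?_)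
    rw [Finset.sum_const, Finset.card_range, nsmul_eq_mul]
    push_cast
    rfl

lemma FD_le_of_sqf {A : Set ℕ} {κ δ : ℝ} {l : ℤ} {i : ℕ} {x B : ℝ} (hB0 : 0 ≤ B)
    (hx : sqf A κ δ l i x ≤ B ^ 2) {j : ℕ} (hj : j ≤ JB δ i) :
    |FD κ (2 ^ i) (N2 δ i j) (gU A κ δ l i) (hB κ δ i) x| ≤ B ∧
    |FD κ (2 ^ i) (N2 δ i j) (gL A κ δ l i) (hB κ δ i) x| ≤ B := by
  have h1 : FD κ (2 ^ i) (N2 δ i j) (gU A κ δ l i) (hB κ δ i) x ^ 2 +
     FD κ (2 ^ i) (N2 δ i j) (gL A κ δ l i) (hB κ δ i) x ^ 2 ≤ sqf A κ δ l i x := by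
    unfold sqf
    exact Finset.single_le_sum (f := fun j => FD κ (2 ^ i) (N2 δ i j) (gU A κ δ l i) (hB κ δ i) x ^ 2 +
     FD κ (2 ^ i) (N2 δ i j) (gL A κ δ l i) (hB κ δ i) x ^ 2) (fun j _ => by positivity)
      (Finset.mem_range.2 (by omega))
  have h2 := sq_nonneg (FD κ (2 ^ i) (N2 δ i j) (gU A κ δ l i) (hB κ δ i) x)
  have h3 := sq_nonneg (FD κ (2 ^ i) (N2 δ i j) (gL A κ δ l i) (hB κ δ i) x)
  constructor
  · exact abs_le_of_sq_le_sq (by linarith) hB0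
  · exact abs_le_of_sq_le_sq (by linarith) hB0

theorem exc_cell {κ : ℝ} (hκ : 0 < κ) : ∃ c δ : ℝ, 0 < c ∧ c ≤ 1 / 10 ∧ 0 < δ ∧ δ ≤ 1 / 10 ∧ c ≤ κ + δ ∧
    ∀ (A : Set ℕ) (l : ℤ), ∃ E : Set ℝ, dimH E ≤ ENNReal.ofReal (1 - c / (κ + δ)) ∧
    ∀ v ∈ Ico (l : ℝ) (l + 1), v ∉ E → ∀ᶠ i : ℕ in atTop,
      ∃ g : ℝ, g ≤ v ∧ v ≤ g + hB κ δ i ∧ ∀ j ≤ JB δ i,
        |FD κ (2 ^ i) (N2 δ i j) (gU A κ δ l i) (hB κ δ i) g| ≤ Real.exp ((1 - c) * (i * Real.log 2)) ∧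
        |FD κ (2 ^ i) (N2 δ i j) (gL A κ δ l i) (hB κ δ i) g| ≤ Real.exp ((1 - c) * (i * Real.log 2)) := by
  obtain ⟨C, c0, hC, hc0, hc01, hG⟩ := G_le hκ
  set δ : ℝ := c0 / 4 with hδ
  have hδ0 : 0 < δ := by positivity
  have hδ1 : δ ≤ 1 / 10 := by linarith
  have hlog2 := Real.log_pos (by norm_num : (1 : ℝ) < 2)
  set c : ℝ := min (c0 / 2) κ with hc
  have hcp : 0 < c := lt_min (by positivity) hκ
  have hcc0 : c ≤ c0 / 2 := min_le_left _ _
  have hcκ : c ≤ κ := min_le_right _ _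
  refine ⟨c, δ, hcp, by linarith, hδ0, hδ1, by linarith, fun A l => ?_⟩
  have hGδ := hG δ hδ0 (by linarith)
  have hh0 : ∀ i, 0 < hB κ δ i := hB_pos κ δ
  have hh1 : ∀ i, hB κ δ i ≤ 1 := hB_le_one (by linarith)
  set a : ℝ := (l : ℝ) - 1 with ha
  set b : ℝ := (l : ℝ) + 3 with hb
  set n : ℕ → ℕ := fun i => ⌊3 / hB κ δ i⌋₊ with hn
  set P : ℕ → ℝ → Prop := fun i θ => (((Finset.range (n i)).filter fun k : ℕ =>
    Real.exp ((2 - 2 * c) * (i * Real.log 2)) < sqf A κ δ l i (a + θ + k * hB κ δ i)).card : ℝ) ≤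
        Real.exp (-c * (i * Real.log 2)) / hB κ δ i with hP
  have hxt : Tendsto (fun i : ℕ => (i : ℝ) * Real.log 2) atTop atTop :=
    Tendsto.atTop_mul_const hlog2 tendsto_natCast_atTop_atTop
  have hex : ∀ᶠ i : ℕ in atTop, ∃ θ ∈ Ico 0 (hB κ δ i), P i θ := by
    filter_upwards [hGδ, (Real.tendsto_exp_atTop.comp (hxt.const_mul_atTop
      (by positivity : 0 < c0 / 4))).eventually_ge_atTop (3 * (2 * (C ^ 2 * (6 + κ * Real.log 2))))] with i e1 e2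
    simp only [Function.comp_apply] at e2
    have hL := L_nonneg i
    have hI := sqf_int (A := A) hκ (l := l) e1
    have hnb : a + ((n i : ℕ) + 1) * hB κ δ i ≤ b := by
      have h1 : ((n i : ℕ) : ℝ) ≤ 3 / hB κ δ i := Nat.floor_le (by have := hh0 i; positivity)
      rw [le_div_iff₀ (hh0 i)] at h1
      have := hh1 i
      rw [ha, hb]
      linarith
    obtain ⟨θ, hθ, hθ2⟩ := few (sqf_nonneg A κ δ l i) (sqf_cont A κ δ l i) hI.1 (hh0 i)
      (Real.exp_pos ((2 - 2 * c) * (i * Real.log 2))) (n i) hnb hI.2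
    refine ⟨θ, hθ, hθ2.trans ?_⟩
    refine div_le_div_of_nonneg_right ?_ (hh0 i).le
    rw [div_le_iff₀ (Real.exp_pos _), ← Real.exp_add]
    have hJ : (JB δ i : ℝ) + 1 ≤ 3 * Real.exp (δ * (i * Real.log 2)) := by
      have h1 : (JB δ i : ℝ) < Real.exp (δ * (i * Real.log 2)) + 1 := Nat.ceil_lt_add_one (Real.exp_pos _).le
      have h2 : 1 ≤ Real.exp (δ * (i * Real.log 2)) := Real.one_le_exp (by positivity)
      linarith
    have hK : 0 ≤ 2 * ((C * Real.exp ((1 - c0) * (i * Real.log 2))) ^ 2 * (6 + κ * Real.log 2)) := by positivity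
    calc ((JB δ i : ℝ) + 1) * (2 * ((C * Real.exp ((1 - c0) * (i * Real.log 2))) ^ 2 * (6 + κ * Real.log 2))) ≤
          (3 * Real.exp (δ * (i * Real.log 2))) *
            (2 * ((C * Real.exp ((1 - c0) * (i * Real.log 2))) ^ 2 * (6 + κ * Real.log 2))) :=
          mul_le_mul_of_nonneg_right hJ hK
      _ = (3 * (2 * (C ^ 2 * (6 + κ * Real.log 2)))) * (Real.exp (δ * (i * Real.log 2)) *
            (Real.exp ((1 - c0) * (i * Real.log 2))) ^ 2) := by ring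
      _ ≤ Real.exp (c0 / 4 * (i * Real.log 2)) * (Real.exp (δ * (i * Real.log 2)) *
            (Real.exp ((1 - c0) * (i * Real.log 2))) ^ 2) := mul_le_mul_of_nonneg_right e2 (by positivity)
      _ = Real.exp (c0 / 4 * (i * Real.log 2) + (δ * (i * Real.log 2) + 2 * ((1 - c0) * (i * Real.log 2)))) := by
          rw [Real.exp_add, Real.exp_add, ← Real.exp_nat_mul]
          push_cast
          ring
      _ ≤ _ := by
          refine Real.exp_le_exp.2 ?_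
          rw [hδ]
          nlinarith
  have hch : ∀ i, ∃ θ : ℝ, (∃ θ' ∈ Ico 0 (hB κ δ i), P i θ') → (θ ∈ Ico 0 (hB κ δ i) ∧ P i θ) := by
    intro i
    by_cases hx : ∃ θ' ∈ Ico 0 (hB κ δ i), P i θ'
    · obtain ⟨θ', h1, h2⟩ := hx
      exact ⟨θ', fun _ => ⟨h1, h2⟩⟩
    · exact ⟨0, fun h' => absurd h' hx⟩
  choose θ hθ using hch
  set Bad : ℕ → Finset ℕ := fun i => (Finset.range (n i)).filter fun k : ℕ =>
    Real.exp ((2 - 2 * c) * (i * Real.log 2)) < sqf A κ δ l i (a + θ i + k * hB κ δ i) with hBad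
  have hcard : ∀ᶠ i : ℕ in atTop, ((Bad i).card : ℝ) ≤ Real.exp (-c * (i * Real.log 2)) /
      (1 * Real.exp (-((κ + δ) * (i * Real.log 2)))) := by
    filter_upwards [hex] with i hi
    rw [one_mul]
    exact (hθ i hi).2
  refine ⟨{v : ℝ | ∃ᶠ i : ℕ in atTop, ∃ k ∈ Bad i, |v - (a + θ i + k * hB κ δ i)| ≤
    1 * Real.exp (-((κ + δ) * (i * Real.log 2)))}, ?_, ?_⟩
  · exact dim_grid (by linarith) hlog2 hcp (by linarith) one_pos Bad
      (fun i k => a + θ i + k * hB κ δ i) hcard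
  · intro v hv hvE
    rw [Set.mem_ofPred_eq, Filter.not_frequently] at hvE
    filter_upwards [hvE, hex] with i hi e1
    have hθi := (hθ i e1).1
    have hh := hh0 i
    have hhle := hh1 i
    set kk : ℕ := ⌊(v - a - θ i) / hB κ δ i⌋₊ with hkk
    have h1 : 0 ≤ (v - a - θ i) / hB κ δ i := by
      refine div_nonneg ?_ hh.le
      have h2 := hθi.2
      have h3 := hv.1
      rw [ha]
      linarith
    have h2 : (kk : ℝ) ≤ (v - a - θ i) / hB κ δ i := Nat.floor_le h1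
    have h3 : (v - a - θ i) / hB κ δ i < kk + 1 := Nat.lt_floor_add_one _
    have h4 : kk < n i := by
      have h5 : 3 / hB κ δ i < (n i : ℝ) + 1 := Nat.lt_floor_add_one _
      have h6 : (v - a - θ i) / hB κ δ i ≤ 2 / hB κ δ i := by
        refine div_le_div_of_nonneg_right ?_ hh.le
        have h2 := hθi.1
        have h3 := hv.2
        rw [ha]
        linarith
      have h7 : 2 / hB κ δ i + 1 ≤ 3 / hB κ δ i := by
        rw [div_add_one hh.ne']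
        exact div_le_div_of_nonneg_right (by linarith) hh.le
      have : (kk : ℝ) < n i := by linarith
      exact_mod_cast this
    rw [le_div_iff₀ hh] at h2
    rw [div_lt_iff₀ hh] at h3
    refine ⟨a + θ i + kk * hB κ δ i, by linarith, by linarith, fun j hj => ?_⟩
    have h5 : kk ∉ Bad i := by
      intro hcon
      refine hi ⟨kk, hcon, ?_⟩
      rw [one_mul]
      show _ ≤ hB κ δ i
      rw [abs_of_nonneg (by linarith)]
      linarith
    rw [hBad] at h5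
    simp only [Finset.mem_filter, Finset.mem_range, not_and, not_lt] at h5
    refine FD_le_of_sqf (Real.exp_pos _).le ((h5 h4).trans (le_of_eq ?_)) hj
    rw [← Real.exp_nat_mul]
    congr 1
    push_cast
    ring

end Pool.Agent.Run7.h129.BU
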