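import Mathlib
import Pool.Agent.Run7.h129.BU.Cell

set_option autoImplicit false

/-!
# Sum minus integral for an arbitrary set of integers
-/

open Complex Filter Topology Set MeasureTheory Metric
open scoped Real

namespace Pool.Agent.Run7.h129.BU

open Pool.Agent.W66 Pool.Agent.Run7.h129.BH Pool.Agent.Run7.h129.BD

/-- sum minus integral of the indicator function -/
noncomputable def DD (A : Set ℕ) (κ v : ℝ) (N N' : ℕ) : ℝ :=
  ∑ m ∈ Finset.Ioc N N', chi A (v + κ * Real.log m) - ∫ t in (N : ℝ)..N', chi A (v + κ * Real.log t)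

lemma ii_of {f : ℝ → ℝ} (hf : Measurable f) (h0 : ∀ x, 0 ≤ f x) (h1 : ∀ x, f x ≤ 1) (a b : ℝ) :
    IntervalIntegrable f volume a b := by
  have h2 : IntervalIntegrable (fun _ : ℝ => (1 : ℝ)) volume a b := intervalIntegrable_const
  refine h2.mono_fun hf.aestronglyMeasurable (Eventually.of_forall fun x => ?_)
  show ‖f x‖ ≤ ‖(1 : ℝ)‖
  rw [Real.norm_of_nonneg (h0 x), norm_one]
  exact h1 x

lemma lin_meas (κ v : ℝ) : Measurable fun t : ℝ => v + κ * Real.log t :=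
  measurable_const.add (measurable_const.mul Real.measurable_log)

lemma chi_ii (A : Set ℕ) (κ v a b : ℝ) :
    IntervalIntegrable (fun t => chi A (v + κ * Real.log t)) volume a b :=
  ii_of ((chi_meas A).comp (lin_meas κ v)) (fun _ => chi_nonneg _ _) (fun _ => chi_le_one _ _) a b

lemma vr_ii (r κ v a b : ℝ) :
    IntervalIntegrable (fun t => vr r (v + κ * Real.log t)) volume a b :=
  ii_of ((vr_meas r).comp (lin_meas κ v)) (fun _ => vr_nonneg _ _) (fun _ => vr_le_one _ _) a b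

lemma Ph_ii {g : ℝ → ℝ} {h : ℝ} (hg : Integrable g) (hg0 : ∀ x, 0 ≤ g x) (hg1 : ∀ x, g x ≤ 1)
    (hh : 0 < h) (κ v a b : ℝ) :
    IntervalIntegrable (fun t => Ph g h (v + κ * Real.log t)) volume a b :=
  ii_of ((Ph_cont hg hh).measurable.comp (lin_meas κ v)) (fun _ => Ph_nonneg hg0 hh _)
    (fun _ => Ph_le_one hg hg1 hh _) a b

lemma DD_add (A : Set ℕ) (κ v : ℝ) {N N' N'' : ℕ} (h1 : N ≤ N') (h2 : N' ≤ N'') :
    DD A κ v N N'' = DD A κ v N N' + DD A κ v N' N'' := by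
  unfold DD
  rw [← Finset.sum_Ioc_consecutive _ h1 h2,
    ← intervalIntegral.integral_add_adjacent_intervals (chi_ii A κ v N N') (chi_ii A κ v N' N'')]
  ring

lemma DD_triv (A : Set ℕ) (κ v : ℝ) {N N' : ℕ} (h1 : N ≤ N') : |DD A κ v N N'| ≤ N' - N := by
  have hle : (N : ℝ) ≤ N' := by exact_mod_cast h1
  have a1 : ∑ m ∈ Finset.Ioc N N', chi A (v + κ * Real.log m) ≤ N' - N := by
    calc ∑ m ∈ Finset.Ioc N N', chi A (v + κ * Real.log m) ≤ ∑ m ∈ Finset.Ioc N N', (1 : ℝ) :=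
          Finset.sum_le_sum fun m _ => chi_le_one _ _
      _ = _ := by simp [Nat.cast_sub h1]
  have a2 : 0 ≤ ∑ m ∈ Finset.Ioc N N', chi A (v + κ * Real.log m) :=
    Finset.sum_nonneg fun m _ => chi_nonneg _ _
  have a3 : 0 ≤ ∫ t in (N : ℝ)..N', chi A (v + κ * Real.log t) :=
    intervalIntegral.integral_nonneg hle fun t _ => chi_nonneg _ _
  have a4 : ∫ t in (N : ℝ)..N', chi A (v + κ * Real.log t) ≤ N' - N := by
    calc ∫ t in (N : ℝ)..N', chi A (v + κ * Real.log t) ≤ ∫ t in (N : ℝ)..N', (1 : ℝ) :=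
          intervalIntegral.integral_mono_on hle (chi_ii A κ v N N') intervalIntegrable_const
            fun t _ => chi_le_one _ _
      _ = _ := by simp
  unfold DD
  rw [abs_le]
  constructor <;> linarith

lemma cmp {A : Set ℕ} {κ δ : ℝ} (hκ : 0 < κ) (hδ : 0 < δ) {l : ℤ} {v : ℝ} (hv : v ∈ Ico (l : ℝ) (l + 1))
    {i j : ℕ} {g B : ℝ} (hg1 : g ≤ v) (hg2 : v ≤ g + hB κ δ i)
    (hU : |FD κ (2 ^ i) (N2 δ i j) (gU A κ δ l i) (hB κ δ i) g| ≤ B)
    (hL : |FD κ (2 ^ i) (N2 δ i j) (gL A κ δ l i) (hB κ δ i) g| ≤ B) :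
    |DD A κ v (2 ^ i) (N2 δ i j)| ≤ B + Real.exp (l + 6 + κ * ((i + 1) * Real.log 2)) *
      (2 * (5 * hB κ δ i) * (N2 δ i j) / κ) := by
  set h := hB κ δ i with hh
  have hh0 : 0 < h := hB_pos κ δ i
  have hh1 : h ≤ 1 := hB_le_one (by linarith) i
  set N := 2 ^ i with hN
  set N' := N2 δ i j with hN'
  have hNN : N ≤ N' := N2_ge δ i j
  have hN1 : 1 ≤ N := Nat.one_le_two_pow
  have hle : (N : ℝ) ≤ N' := by exact_mod_cast hNN
  have hN0 : (0 : ℝ) < N := by exact_mod_cast hN1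
  have hlogN : Real.log N = i * Real.log 2 := by rw [hN, two_pow_eq, Real.log_exp]
  have hlogN' : Real.log N' ≤ (i + 1) * Real.log 2 := by
    have h1 : (N' : ℝ) ≤ ((2 ^ (i + 1) : ℕ) : ℝ) := by exact_mod_cast N2_le δ i j
    have h2 := Real.log_le_log (hN0.trans_le hle) h1
    rw [two_pow_eq, Real.log_exp] at h2
    push_cast at h2
    exact h2
  have hwin : ∀ t : ℝ, (N : ℝ) ≤ t → t ≤ N' → g + κ * Real.log t ≤ v + κ * Real.log t ∧
      v + κ * Real.log t ≤ g + κ * Real.log t + h ∧ Z1 κ l i + h ≤ g + κ * Real.log t ∧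
      g + κ * Real.log t + h ≤ Z2 κ l i := by
    intro t ht1 ht2
    have h1 : i * Real.log 2 ≤ Real.log t := by rw [← hlogN]; exact Real.log_le_log hN0 ht1
    have h2 : Real.log t ≤ (i + 1) * Real.log 2 := (Real.log_le_log (hN0.trans_le ht1) ht2).trans hlogN'
    have h3 := mul_le_mul_of_nonneg_left h1 hκ.le
    have h4 := mul_le_mul_of_nonneg_left h2 hκ.le
    obtain ⟨h5, h6⟩ := hv
    unfold Z1 Z2
    refine ⟨by linarith, by linarith, by linarith, by linarith⟩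
  have hvr := vr_int (v := v) (r := 5 * h) hκ (by positivity) hN1 hNN
    (Z := l + 6 + κ * ((i + 1) * Real.log 2)) (by
      have := mul_le_mul_of_nonneg_left hlogN' hκ.le
      obtain ⟨h5, h6⟩ := hv
      linarith)
  have iU := Ph_ii (gs_int A (3 * h) (Z1 κ l i) (Z2 κ l i)) (gs_nonneg _ _ _ _) (gs_le_one _ _ _ _) hh0 κ g N N'
  have iL := Ph_ii (gs_int A (-(3 * h)) (Z1 κ l i) (Z2 κ l i)) (gs_nonneg _ _ _ _) (gs_le_one _ _ _ _) hh0 κ g N N'
  have iχ := chi_ii A κ v N N'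
  have iV := vr_ii (5 * h) κ v N N'
  have hmt : ∀ m ∈ Finset.Ioc N N', (N : ℝ) ≤ m ∧ (m : ℝ) ≤ N' := by
    intro m hm
    rw [Finset.mem_Ioc] at hm
    exact ⟨by exact_mod_cast hm.1.le, by exact_mod_cast hm.2⟩
  -- upper bound
  have u1 : ∑ m ∈ Finset.Ioc N N', chi A (v + κ * Real.log m) ≤
      ∑ m ∈ Finset.Ioc N N', Ph (gU A κ δ l i) h (g + κ * Real.log m) := by
    refine Finset.sum_le_sum fun m hm => ?_
    obtain ⟨w1, w2⟩ := hmt m hm
    obtain ⟨w3, w4, w5, w6⟩ := hwin m w1 w2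
    exact (up (A := A) hh0 w3 w4 w5 w6).1
  have u2 : ∫ t in (N : ℝ)..N', Ph (gU A κ δ l i) h (g + κ * Real.log t) ≤
      (∫ t in (N : ℝ)..N', chi A (v + κ * Real.log t)) + ∫ t in (N : ℝ)..N', vr (5 * h) (v + κ * Real.log t) := by
    rw [← intervalIntegral.integral_add iχ iV]
    refine intervalIntegral.integral_mono_on hle iU (iχ.add iV) fun t ht => ?_
    obtain ⟨w3, w4, w5, w6⟩ := hwin t ht.1 ht.2
    exact (up (A := A) hh0 w3 w4 w5 w6).2
  -- lower bound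
  have l1 : ∑ m ∈ Finset.Ioc N N', Ph (gL A κ δ l i) h (g + κ * Real.log m) ≤
      ∑ m ∈ Finset.Ioc N N', chi A (v + κ * Real.log m) := by
    refine Finset.sum_le_sum fun m hm => ?_
    obtain ⟨w1, w2⟩ := hmt m hm
    obtain ⟨w3, w4, w5, w6⟩ := hwin m w1 w2
    exact (lo (A := A) hh0 w3 w4 w5 w6).1
  have l2 : (∫ t in (N : ℝ)..N', chi A (v + κ * Real.log t)) - ∫ t in (N : ℝ)..N', vr (5 * h) (v + κ * Real.log t) ≤
      ∫ t in (N : ℝ)..N', Ph (gL A κ δ l i) h (g + κ * Real.log t) := by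
    rw [← intervalIntegral.integral_sub iχ iV]
    refine intervalIntegral.integral_mono_on hle (iχ.sub iV) iL fun t ht => ?_
    obtain ⟨w3, w4, w5, w6⟩ := hwin t ht.1 ht.2
    exact (lo (A := A) hh0 w3 w4 w5 w6).2
  have hU1 := (abs_le.1 hU).2
  have hL1 := (abs_le.1 hL).1
  unfold FD at hU1 hL1
  unfold DD
  rw [abs_le]
  constructor <;> linarith

theorem blk_D {κ : ℝ} (hκ : 0 < κ) : ∃ c d : ℝ, 0 < c ∧ c ≤ 1 / 10 ∧ 0 < d ∧ d < 1 ∧
    ∀ (A : Set ℕ) (l : ℤ), ∃ E : Set ℝ, dimH E ≤ ENNReal.ofReal d ∧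
    ∀ v ∈ Ico (l : ℝ) (l + 1), v ∉ E → ∃ K : ℝ, ∀ᶠ i : ℕ in atTop,
      ∀ M : ℕ, 2 ^ i ≤ M → M ≤ 2 ^ (i + 1) → |DD A κ v (2 ^ i) M| ≤ K * Real.exp ((1 - c) * (i * Real.log 2)) := by
  obtain ⟨c0, δ, hc0, hc01, hδ, hδ1, hcκ, h⟩ := exc_cell hκ
  have hlog2 := Real.log_pos (by norm_num : (1 : ℝ) < 2)
  have hκδ : 0 < κ + δ := by linarith
  have hd1 : 0 ≤ 1 - c0 / (κ + δ) := by rw [sub_nonneg, div_le_one hκδ]; exact hcκ
  have hd2 : 0 < c0 / (κ + δ) := by positivity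
  refine ⟨min c0 δ, (1 - c0 / (κ + δ) + 1) / 2, lt_min hc0 hδ, (min_le_left _ _).trans hc01, by linarith, by linarith,
    fun A l => ?_⟩
  obtain ⟨E, hE, hv⟩ := h A l
  refine ⟨E, hE.trans (ENNReal.ofReal_le_ofReal (by linarith)), fun v hvl hvE => ?_⟩
  set c : ℝ := min c0 δ with hc
  have hcc : c ≤ c0 := min_le_left _ _
  have hcδ : c ≤ δ := min_le_right _ _
  set K1 : ℝ := Real.exp (l + 6 + κ * Real.log 2) * (20 / κ) with hK1
  refine ⟨1 + K1 + 2, ?_⟩
  filter_upwards [hv v hvl hvE] with i hi M hM1 hM2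
  obtain ⟨g, hg1, hg2, hg3⟩ := hi
  have hL := L_nonneg i
  have hsB0 : 0 < sB δ i := Nat.ceil_pos.2 (Real.exp_pos _)
  set j := (M - 2 ^ i) / sB δ i with hj
  have hj1 : j * sB δ i ≤ M - 2 ^ i := Nat.div_mul_le_self _ _
  have hj2 : M - 2 ^ i < (j + 1) * sB δ i := by
    have := Nat.lt_div_mul_add (a := M - 2 ^ i) hsB0
    rw [add_mul, one_mul]
    omega
  have hJs : ((2 ^ i : ℕ) : ℝ) ≤ (JB δ i : ℝ) * (sB δ i : ℝ) := by
    rw [two_pow_eq]
    calc Real.exp (i * Real.log 2) = Real.exp (δ * (i * Real.log 2)) * Real.exp ((1 - δ) * (i * Real.log 2)) := by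
          rw [← Real.exp_add]; congr 1; ring
      _ ≤ _ := mul_le_mul (Nat.le_ceil _) (Nat.le_ceil _) (Real.exp_pos _).le (by positivity)
  have hJs' : 2 ^ i ≤ JB δ i * sB δ i := by exact_mod_cast hJs
  have hpow : 2 ^ (i + 1) = 2 * 2 ^ i := by rw [pow_succ]; ring
  have hjJ : j ≤ JB δ i := by
    by_contra hcon
    have h1 : JB δ i + 1 ≤ j := by omega
    have h2 : (JB δ i + 1) * sB δ i ≤ j * sB δ i := Nat.mul_le_mul_right _ h1
    rw [add_mul, one_mul] at h2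
    omega
  have hN2 : N2 δ i j = 2 ^ i + j * sB δ i := by
    unfold N2
    exact min_eq_left (by omega)
  obtain ⟨f1, f2⟩ := hg3 j hjJ
  have h1 := cmp hκ hδ hvl hg1 hg2 f1 f2
  have hN2M : N2 δ i j ≤ M := by rw [hN2]; omega
  rw [DD_add A κ v (N2_ge δ i j) hN2M]
  have h2 := DD_triv A κ v hN2M
  have h3 : (M : ℝ) - N2 δ i j ≤ sB δ i := by
    have h4 : M ≤ N2 δ i j + sB δ i := by
      rw [hN2]
      rw [add_mul, one_mul] at hj2
      omega
    have h5 : (M : ℝ) ≤ ((N2 δ i j + sB δ i : ℕ) : ℝ) := by exact_mod_cast h4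
    push_cast at h5
    linarith
  have h4 : (sB δ i : ℝ) ≤ 2 * Real.exp ((1 - c) * (i * Real.log 2)) := by
    have h5 : (sB δ i : ℝ) < Real.exp ((1 - δ) * (i * Real.log 2)) + 1 := Nat.ceil_lt_add_one (Real.exp_pos _).le
    have h6 : 1 ≤ Real.exp ((1 - c) * (i * Real.log 2)) := Real.one_le_exp (mul_nonneg (by linarith) hL)
    have h7 : Real.exp ((1 - δ) * (i * Real.log 2)) ≤ Real.exp ((1 - c) * (i * Real.log 2)) :=
      Real.exp_le_exp.2 (mul_le_mul_of_nonneg_right (by linarith) hL)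
    linarith
  have h5 : Real.exp ((1 - c0) * (i * Real.log 2)) ≤ Real.exp ((1 - c) * (i * Real.log 2)) :=
    Real.exp_le_exp.2 (mul_le_mul_of_nonneg_right (by linarith) hL)
  have h6 : Real.exp (l + 6 + κ * ((i + 1) * Real.log 2)) * (2 * (5 * hB κ δ i) * (N2 δ i j) / κ) ≤
      K1 * Real.exp ((1 - c) * (i * Real.log 2)) := by
    have h7 : (N2 δ i j : ℝ) ≤ 2 * Real.exp (i * Real.log 2) := by
      rw [← two_pow_eq]
      have : N2 δ i j ≤ 2 * 2 ^ i := by rw [← hpow]; exact N2_le δ i j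
      exact_mod_cast this
    have hh0 := hB_pos κ δ i
    calc Real.exp (l + 6 + κ * ((i + 1) * Real.log 2)) * (2 * (5 * hB κ δ i) * (N2 δ i j) / κ) ≤
          Real.exp (l + 6 + κ * ((i + 1) * Real.log 2)) * (2 * (5 * hB κ δ i) * (2 * Real.exp (i * Real.log 2)) / κ) := by
          gcongr
      _ = Real.exp (l + 6 + κ * ((i + 1) * Real.log 2)) * (hB κ δ i * Real.exp (i * Real.log 2)) * (20 / κ) := by ring
      _ = Real.exp (l + 6 + κ * Real.log 2) * Real.exp ((1 - δ) * (i * Real.log 2)) * (20 / κ) := by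
          congr 1
          unfold hB
          rw [← Real.exp_add, ← Real.exp_add, ← Real.exp_add]
          congr 1
          ring
      _ ≤ Real.exp (l + 6 + κ * Real.log 2) * Real.exp ((1 - c) * (i * Real.log 2)) * (20 / κ) := by
          have : Real.exp ((1 - δ) * (i * Real.log 2)) ≤ Real.exp ((1 - c) * (i * Real.log 2)) :=
            Real.exp_le_exp.2 (mul_le_mul_of_nonneg_right (by linarith) hL)
          gcongr
      _ = _ := by rw [hK1]; ring
  refine (abs_add_le _ _).trans ?_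
  have e : (1 + K1 + 2) * Real.exp ((1 - c) * (i * Real.log 2)) = Real.exp ((1 - c) * (i * Real.log 2)) +
    K1 * Real.exp ((1 - c) * (i * Real.log 2)) + 2 * Real.exp ((1 - c) * (i * Real.log 2)) := by ring
  rw [e]
  linarith

theorem main_v {κ : ℝ} (hκ : 0 < κ) : ∃ c d : ℝ, 0 < c ∧ c ≤ 1 / 10 ∧ 0 < d ∧ d < 1 ∧
    ∀ A : Set ℕ, ∃ E : Set ℝ, dimH E ≤ ENNReal.ofReal d ∧
    ∀ v ∉ E, ∃ C : ℝ, ∀ M : ℕ, 1 ≤ M → |DD A κ v 0 M| ≤ C * (M : ℝ) ^ (1 - c) := by
  obtain ⟨c, d, hc, hc1, hd0, hd, h⟩ := blk_D hκ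
  refine ⟨c, d, hc, hc1, hd0, hd, fun A => ?_⟩
  choose E hE hv using h A
  refine ⟨⋃ l : ℤ, E l, ?_, fun v hvE => ?_⟩
  · rw [dimH_iUnion]
    exact iSup_le hE
  have hlog2 := Real.log_pos (by norm_num : (1 : ℝ) < 2)
  obtain ⟨K, hK⟩ := hv ⌊v⌋ v ⟨Int.floor_le v, Int.lt_floor_add_one v⟩
    (fun hcon => hvE (Set.mem_iUnion.2 ⟨⌊v⌋, hcon⟩))
  obtain ⟨i0, hi0⟩ := eventually_atTop.1 hK
  set K2 : ℝ := |K| + 2 ^ i0 with hK2
  have hK20 : 0 ≤ K2 := by positivity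
  have hall : ∀ i : ℕ, ∀ M : ℕ, 2 ^ i ≤ M → M ≤ 2 ^ (i + 1) →
      |DD A κ v (2 ^ i) M| ≤ K2 * Real.exp ((1 - c) * (i * Real.log 2)) := by
    intro i M hM1 hM2
    have hE1 : 1 ≤ Real.exp ((1 - c) * (i * Real.log 2)) :=
      Real.one_le_exp (mul_nonneg (by linarith) (L_nonneg i))
    rcases le_or_gt i0 i with h1 | h1
    · refine (hi0 i h1 M hM1 hM2).trans ?_
      refine mul_le_mul_of_nonneg_right ?_ (by linarith)
      have := le_abs_self K
      have : (0 : ℝ) < 2 ^ i0 := by positivity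
      linarith
    · refine (DD_triv A κ v hM1).trans ?_
      have h2 : (M : ℝ) ≤ 2 ^ (i + 1) := by exact_mod_cast hM2
      have h3 : (2 : ℝ) ^ (i + 1) ≤ 2 ^ i0 := pow_le_pow_right₀ (by norm_num) (by omega)
      have h4 := abs_nonneg K
      have h5 : (0 : ℝ) ≤ ((2 ^ i : ℕ) : ℝ) := by positivity
      have h6 : K2 ≤ K2 * Real.exp ((1 - c) * (i * Real.log 2)) := le_mul_of_one_le_right hK20 hE1
      linarith
  have hdy : ∀ i : ℕ, |DD A κ v 0 (2 ^ i)| ≤ (2 * K2 + 1) * Real.exp ((1 - c) * (i * Real.log 2)) := by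
    intro i
    induction i with
    | zero =>
      refine (DD_triv A κ v (Nat.zero_le _)).trans ?_
      simp
      linarith
    | succ i ih =>
      rw [DD_add A κ v (Nat.zero_le (2 ^ i)) (Nat.pow_le_pow_right (by norm_num) (Nat.le_succ i))]
      have h1 := hall i (2 ^ (i + 1)) (Nat.pow_le_pow_right (by norm_num) (Nat.le_succ i)) le_rfl
      refine (abs_add_le _ _).trans ?_
      have h2 : Real.exp ((1 - c) * (((i + 1 : ℕ) : ℝ) * Real.log 2)) =
          Real.exp ((1 - c) * (i * Real.log 2)) * Real.exp ((1 - c) * Real.log 2) := by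
        rw [← Real.exp_add]
        congr 1
        push_cast
        ring
      have h3 : 3 / 2 ≤ Real.exp ((1 - c) * Real.log 2) := by
        have h4 := Real.add_one_le_exp ((1 - c) * Real.log 2)
        have h5 := Real.log_two_gt_d9
        nlinarith
      rw [h2]
      have hp := Real.exp_pos ((1 - c) * (i * Real.log 2))
      calc |DD A κ v 0 (2 ^ i)| + |DD A κ v (2 ^ i) (2 ^ (i + 1))| ≤
            (2 * K2 + 1) * Real.exp ((1 - c) * (i * Real.log 2)) + K2 * Real.exp ((1 - c) * (i * Real.log 2)) :=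
            add_le_add ih h1
        _ ≤ (2 * K2 + 1) * (Real.exp ((1 - c) * (i * Real.log 2)) * (3 / 2)) := by nlinarith
        _ ≤ _ := by gcongr
  refine ⟨3 * K2 + 1, fun M hM => ?_⟩
  set i := Nat.log 2 M with hi
  have hM1 : 2 ^ i ≤ M := Nat.pow_log_le_self 2 (by omega)
  have hM2 : M ≤ 2 ^ (i + 1) := (Nat.lt_pow_succ_log_self (by norm_num) M).le
  rw [DD_add A κ v (Nat.zero_le (2 ^ i)) hM1]
  refine (abs_add_le _ _).trans ((add_le_add (hdy i) (hall i M hM1 hM2)).trans ?_)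
  have h1 : Real.exp ((1 - c) * (i * Real.log 2)) ≤ (M : ℝ) ^ (1 - c) := by
    rw [← pow_rpow]
    exact Real.rpow_le_rpow (by positivity) (by exact_mod_cast hM1) (by linarith)
  have e : (2 * K2 + 1) * Real.exp ((1 - c) * (i * Real.log 2)) + K2 * Real.exp ((1 - c) * (i * Real.log 2)) =
    (3 * K2 + 1) * Real.exp ((1 - c) * (i * Real.log 2)) := by ring
  rw [e]
  exact mul_le_mul_of_nonneg_left h1 (by linarith)

end Pool.Agent.Run7.h129.BU
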