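import Mathlib
import Pool.Agent.Run7.h129.BU.Cnt

set_option autoImplicit false

/-!
# The universal law along `⌊β m^κ⌋`
-/

open Filter Topology Set MeasureTheory Metric
open scoped Real ENNReal

namespace Pool.Agent.Run7.h129.BU

/-- the number of `1 ≤ m ≤ M` with `⌊β m^κ⌋ ∈ A` -/
noncomputable def cntA (A : Set ℕ) (β κ : ℝ) (M : ℕ) : ℕ :=
  {m : ℕ | 1 ≤ m ∧ m ≤ M ∧ ⌊β * (m : ℝ) ^ κ⌋₊ ∈ A}.ncard

/-- the measure of the reals `0 < t ≤ M` with `⌊β t^κ⌋ ∈ A` -/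
noncomputable def volA (A : Set ℕ) (β κ : ℝ) (M : ℕ) : ℝ :=
  (volume {t : ℝ | 0 < t ∧ t ≤ M ∧ ⌊β * t ^ κ⌋₊ ∈ A}).toReal

lemma mem_Xs {A : Set ℕ} {β κ t : ℝ} (hβ : 0 < β) (ht : 0 < t) :
    Real.log β + κ * Real.log t ∈ Xs A ↔ ⌊β * t ^ κ⌋₊ ∈ A ∧ 1 ≤ ⌊β * t ^ κ⌋₊ := by
  have hy : 0 < β * t ^ κ := mul_pos hβ (Real.rpow_pos_of_pos ht _)
  have e : Real.log β + κ * Real.log t = Real.log (β * t ^ κ) := by
    rw [Real.log_mul hβ.ne' (Real.rpow_pos_of_pos ht _).ne', Real.log_rpow ht]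
  rw [e]
  set y := β * t ^ κ with hyd
  have key : ∀ n : ℕ, 1 ≤ n → ((Real.log n ≤ Real.log y ∧ Real.log y < Real.log (n + 1)) ↔ ⌊y⌋₊ = n) := by
    intro n hn
    have hn0 : (0 : ℝ) < n := by exact_mod_cast hn
    rw [Real.log_le_log_iff hn0 hy, Real.log_lt_log_iff hy (by positivity), Nat.floor_eq_iff hy.le]
  constructor
  · rintro ⟨n, h1, h2, h3, h4⟩
    have h5 := (key n h2).1 ⟨h3, h4⟩
    rw [h5]
    exact ⟨h1, h2⟩
  · rintro ⟨h1, h2⟩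
    have h3 := (key _ h2).2 rfl
    exact ⟨_, h1, h2, h3.1, h3.2⟩

lemma lt_of_floor {β κ t : ℝ} (hβ : 0 < β) (hκ : 0 < κ) (ht : 0 < t) (h : ¬ 1 ≤ ⌊β * t ^ κ⌋₊) :
    t < (β⁻¹) ^ κ⁻¹ := by
  have hy : 0 < β * t ^ κ := mul_pos hβ (Real.rpow_pos_of_pos ht _)
  have h1 : β * t ^ κ < 1 := by
    have h2 : ⌊β * t ^ κ⌋₊ = 0 := by omega
    rwa [Nat.floor_eq_zero] at h2
  have h2 : t ^ κ < β⁻¹ := by
    rw [lt_inv_comm₀ (Real.rpow_pos_of_pos ht _) hβ, ← one_div, lt_div_iff₀ (Real.rpow_pos_of_pos ht _)]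
    exact h1
  calc t = (t ^ κ) ^ κ⁻¹ := by rw [← Real.rpow_mul ht.le, mul_inv_cancel₀ hκ.ne', Real.rpow_one]
    _ < _ := Real.rpow_lt_rpow (Real.rpow_nonneg ht.le _) h2 (by positivity)

lemma cnt_eq {A : Set ℕ} {β κ : ℝ} (hβ : 0 < β) (hκ : 0 < κ) (M : ℕ) :
    |(cntA A β κ M : ℝ) - ∑ m ∈ Finset.Ioc 0 M, chi A (Real.log β + κ * Real.log m)| ≤ (β⁻¹) ^ κ⁻¹ := by
  classical
  set R : ℝ := (β⁻¹) ^ κ⁻¹ with hR
  have hR0 : 0 < R := Real.rpow_pos_of_pos (by positivity) _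
  have h1 : ∑ m ∈ Finset.Ioc 0 M, chi A (Real.log β + κ * Real.log m) =
      (((Finset.Ioc 0 M).filter fun m : ℕ => ⌊β * (m : ℝ) ^ κ⌋₊ ∈ A ∧ 1 ≤ ⌊β * (m : ℝ) ^ κ⌋₊).card : ℝ) := by
    rw [Finset.card_filter]
    push_cast
    refine Finset.sum_congr rfl fun m hm => ?_
    rw [Finset.mem_Ioc] at hm
    have hm0 : (0 : ℝ) < m := by exact_mod_cast hm.1
    unfold chi
    by_cases hx : Real.log β + κ * Real.log m ∈ Xs A
    · rw [Set.indicator_of_mem hx, if_pos ((mem_Xs hβ hm0).1 hx)]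
    · rw [Set.indicator_of_notMem hx, if_neg (fun hcon => hx ((mem_Xs hβ hm0).2 hcon))]
  have h2 : cntA A β κ M = ((Finset.Ioc 0 M).filter fun m : ℕ => ⌊β * (m : ℝ) ^ κ⌋₊ ∈ A).card := by
    unfold cntA
    rw [← Set.ncard_coe_finset]
    congr 1
    ext m
    simp only [Set.mem_ofPred_eq, Finset.coe_filter, Finset.mem_Ioc]
    constructor
    · rintro ⟨a1, a2, a3⟩; exact ⟨⟨by omega, a2⟩, a3⟩
    · rintro ⟨⟨a1, a2⟩, a3⟩; exact ⟨by omega, a2, a3⟩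
  rw [h1, h2]
  have h3 : ((Finset.Ioc 0 M).filter fun m : ℕ => ⌊β * (m : ℝ) ^ κ⌋₊ ∈ A ∧ 1 ≤ ⌊β * (m : ℝ) ^ κ⌋₊).card ≤
      ((Finset.Ioc 0 M).filter fun m : ℕ => ⌊β * (m : ℝ) ^ κ⌋₊ ∈ A).card :=
    Finset.card_le_card fun m hm => by
      rw [Finset.mem_filter] at hm ⊢
      exact ⟨hm.1, hm.2.1⟩
  have h4 : ((Finset.Ioc 0 M).filter fun m : ℕ => ⌊β * (m : ℝ) ^ κ⌋₊ ∈ A).card ≤
      ((Finset.Ioc 0 M).filter fun m : ℕ => ⌊β * (m : ℝ) ^ κ⌋₊ ∈ A ∧ 1 ≤ ⌊β * (m : ℝ) ^ κ⌋₊).card + ⌊R⌋₊ := by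
    have h5 : ((Finset.Ioc 0 M).filter fun m : ℕ => ⌊β * (m : ℝ) ^ κ⌋₊ ∈ A) ⊆
        ((Finset.Ioc 0 M).filter fun m : ℕ => ⌊β * (m : ℝ) ^ κ⌋₊ ∈ A ∧ 1 ≤ ⌊β * (m : ℝ) ^ κ⌋₊) ∪ Finset.Ioc 0 ⌊R⌋₊ := by
      intro m hm
      rw [Finset.mem_filter] at hm
      rw [Finset.mem_union, Finset.mem_filter]
      by_cases h6 : 1 ≤ ⌊β * (m : ℝ) ^ κ⌋₊
      · exact Or.inl ⟨hm.1, hm.2, h6⟩
      · have hm1 := (Finset.mem_Ioc.1 hm.1).1
        refine Or.inr (Finset.mem_Ioc.2 ⟨hm1, Nat.le_floor ?_⟩)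
        exact (lt_of_floor hβ hκ (by exact_mod_cast hm1) h6).le
    refine (Finset.card_le_card h5).trans ((Finset.card_union_le _ _).trans ?_)
    simp
  have h5 : (⌊R⌋₊ : ℝ) ≤ R := Nat.floor_le hR0.le
  have h3' : (((Finset.Ioc 0 M).filter fun m : ℕ => ⌊β * (m : ℝ) ^ κ⌋₊ ∈ A ∧ 1 ≤ ⌊β * (m : ℝ) ^ κ⌋₊).card : ℝ) ≤
      ((Finset.Ioc 0 M).filter fun m : ℕ => ⌊β * (m : ℝ) ^ κ⌋₊ ∈ A).card := by exact_mod_cast h3
  have h4' : (((Finset.Ioc 0 M).filter fun m : ℕ => ⌊β * (m : ℝ) ^ κ⌋₊ ∈ A).card : ℝ) ≤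
      ((Finset.Ioc 0 M).filter fun m : ℕ => ⌊β * (m : ℝ) ^ κ⌋₊ ∈ A ∧ 1 ≤ ⌊β * (m : ℝ) ^ κ⌋₊).card + ⌊R⌋₊ := by
    exact_mod_cast h4
  rw [abs_le]
  constructor <;> linarith

lemma vol_eq {A : Set ℕ} {β κ : ℝ} (hβ : 0 < β) (hκ : 0 < κ) (M : ℕ) :
    |volA A β κ M - ∫ t in ((0 : ℕ) : ℝ)..M, chi A (Real.log β + κ * Real.log t)| ≤ (β⁻¹) ^ κ⁻¹ := by
  set R : ℝ := (β⁻¹) ^ κ⁻¹ with hR
  have hR0 : 0 < R := Real.rpow_pos_of_pos (by positivity) _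
  set T : Set ℝ := {t | Real.log β + κ * Real.log t ∈ Xs A} with hT
  have hTm : MeasurableSet T := (lin_meas κ (Real.log β)) (Xs_meas A)
  set V : Set ℝ := {t : ℝ | 0 < t ∧ t ≤ M ∧ ⌊β * t ^ κ⌋₊ ∈ A} with hV
  have h1 : ∫ t in ((0 : ℕ) : ℝ)..M, chi A (Real.log β + κ * Real.log t) = (volume (T ∩ Ioc (0 : ℝ) M)).toReal := by
    rw [intervalIntegral.integral_of_le (by simp)]
    have e : ∀ t, chi A (Real.log β + κ * Real.log t) = T.indicator (fun _ => (1 : ℝ)) t := by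
      intro t
      unfold chi
      by_cases ht : t ∈ T
      · have ht' : Real.log β + κ * Real.log t ∈ Xs A := ht
        rw [Set.indicator_of_mem ht, Set.indicator_of_mem ht']
      · have ht' : Real.log β + κ * Real.log t ∉ Xs A := ht
        rw [Set.indicator_of_notMem ht, Set.indicator_of_notMem ht']
    simp only [e]
    rw [integral_indicator hTm, Measure.restrict_restrict hTm]
    simp only [integral_const, smul_eq_mul, mul_one, MeasurableSet.univ, measureReal_restrict_apply, univ_inter]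
    simp [Measure.real]
  have hVfin : volume V ≠ ⊤ := by
    refine ne_top_of_le_ne_top (b := volume (Ioc (0 : ℝ) M)) ?_ (measure_mono ?_)
    · rw [Real.volume_Ioc]; exact ENNReal.ofReal_ne_top
    · rintro t ⟨a1, a2, -⟩; exact ⟨a1, a2⟩
  have hsub1 : T ∩ Ioc (0 : ℝ) M ⊆ V := by
    rintro t ⟨a1, a2, a3⟩
    exact ⟨a2, a3, ((mem_Xs hβ a2).1 a1).1⟩
  have hsub2 : V ⊆ (T ∩ Ioc (0 : ℝ) M) ∪ Ioc (0 : ℝ) R := by
    rintro t ⟨a1, a2, a3⟩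
    by_cases h6 : 1 ≤ ⌊β * t ^ κ⌋₊
    · exact Or.inl ⟨(mem_Xs hβ a1).2 ⟨a3, h6⟩, a1, a2⟩
    · exact Or.inr ⟨a1, (lt_of_floor hβ hκ a1 h6).le⟩
  have h2 : (volume (T ∩ Ioc (0 : ℝ) M)).toReal ≤ (volume V).toReal :=
    ENNReal.toReal_mono hVfin (measure_mono hsub1)
  have hTfin : volume (T ∩ Ioc (0 : ℝ) M) ≠ ⊤ := ne_top_of_le_ne_top hVfin (measure_mono hsub1)
  have h3 : (volume V).toReal ≤ (volume (T ∩ Ioc (0 : ℝ) M)).toReal + R := by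
    have h4 : volume V ≤ volume (T ∩ Ioc (0 : ℝ) M) + ENNReal.ofReal R := by
      refine (measure_mono hsub2).trans ((measure_union_le _ _).trans ?_)
      rw [Real.volume_Ioc, sub_zero]
    calc (volume V).toReal ≤ (volume (T ∩ Ioc (0 : ℝ) M) + ENNReal.ofReal R).toReal :=
          ENNReal.toReal_mono (ENNReal.add_ne_top.2 ⟨hTfin, ENNReal.ofReal_ne_top⟩) h4
      _ = _ := by rw [ENNReal.toReal_add hTfin ENNReal.ofReal_ne_top, ENNReal.toReal_ofReal hR0.le]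
  have h5 : volA A β κ M = (volume V).toReal := rfl
  rw [h1, h5, abs_le]
  constructor <;> linarith

/-- **The universal law.** -/
theorem main_U {κ : ℝ} (hκ : 0 < κ) : ∃ c d : ℝ, 0 < c ∧ c ≤ 1 / 10 ∧ 0 < d ∧ d < 1 ∧
    ∀ A : Set ℕ, ∃ E : Set ℝ, dimH E ≤ ENNReal.ofReal d ∧
    ∀ β : ℝ, 0 < β → β ∉ E → ∃ C : ℝ, ∀ M : ℕ, 1 ≤ M →
      |(cntA A β κ M : ℝ) - volA A β κ M| ≤ C * (M : ℝ) ^ (1 - c) := by
  obtain ⟨c, d, hc, hc1, hd0, hd, h⟩ := main_v hκ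
  refine ⟨c, d, hc, hc1, hd0, hd, fun A => ?_⟩
  obtain ⟨E, hE, hv⟩ := h A
  refine ⟨Real.exp '' E, ?_, fun β hβ hβE => ?_⟩
  · exact ((Real.contDiff_exp (n := 1)).contDiffOn.dimH_image_le convex_univ (subset_univ E)).trans hE
  · obtain ⟨C, hC⟩ := hv (Real.log β) (fun hcon => hβE ⟨Real.log β, hcon, Real.exp_log hβ⟩)
    set R : ℝ := (β⁻¹) ^ κ⁻¹ with hR
    have hR0 : 0 < R := Real.rpow_pos_of_pos (by positivity) _
    refine ⟨C + 2 * R, fun M hM => ?_⟩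
    have h1 := cnt_eq (A := A) hβ hκ M
    have h2 := vol_eq (A := A) hβ hκ M
    have h3 := hC M hM
    have hM1 : (1 : ℝ) ≤ (M : ℝ) ^ (1 - c) := Real.one_le_rpow (by exact_mod_cast hM) (by linarith)
    unfold DD at h3
    rw [← hR] at h1 h2
    have h4 : |(cntA A β κ M : ℝ) - volA A β κ M| ≤
        |(cntA A β κ M : ℝ) - ∑ m ∈ Finset.Ioc 0 M, chi A (Real.log β + κ * Real.log m)| +
        |∑ m ∈ Finset.Ioc 0 M, chi A (Real.log β + κ * Real.log m) -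
          ∫ t in ((0 : ℕ) : ℝ)..M, chi A (Real.log β + κ * Real.log t)| +
        |volA A β κ M - ∫ t in ((0 : ℕ) : ℝ)..M, chi A (Real.log β + κ * Real.log t)| := by
      set X := (cntA A β κ M : ℝ)
      set Y := volA A β κ M
      set S := ∑ m ∈ Finset.Ioc 0 M, chi A (Real.log β + κ * Real.log m)
      set J := ∫ t in ((0 : ℕ) : ℝ)..M, chi A (Real.log β + κ * Real.log t)
      have e : X - Y = (X - S) + (S - J) + -(Y - J) := by ring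
      rw [e]
      refine (abs_add_le _ _).trans (add_le_add (abs_add_le _ _) ?_)
      rw [abs_neg]
    have h5 : 2 * R ≤ 2 * R * (M : ℝ) ^ (1 - c) := le_mul_of_one_le_right (by positivity) hM1
    rw [add_mul]
    linarith

/-- lower bound for the measure, `κ ≥ 1` -/
lemma vol_ge {A : Set ℕ} {β κ : ℝ} (hβ : 0 < β) (hκ : 1 ≤ κ) {M : ℕ} (hM : 1 ≤ M) (S : Finset ℕ)
    (hS : ∀ n ∈ S, n ∈ A ∧ (n : ℝ) + 1 ≤ β * (M : ℝ) ^ κ) :
    (S.card : ℝ) * ((M : ℝ) ^ (1 - κ) / (κ * β)) ≤ volA A β κ M := by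
  have hκ0 : 0 < κ := by linarith
  have hM0 : (0 : ℝ) < M := by exact_mod_cast hM
  set V : Set ℝ := {t : ℝ | 0 < t ∧ t ≤ M ∧ ⌊β * t ^ κ⌋₊ ∈ A} with hV
  have hVfin : volume V ≠ ⊤ := by
    refine ne_top_of_le_ne_top (b := volume (Ioc (0 : ℝ) M)) ?_ (measure_mono ?_)
    · rw [Real.volume_Ioc]; exact ENNReal.ofReal_ne_top
    · rintro t ⟨a1, a2, -⟩; exact ⟨a1, a2⟩
  set s : ℝ → ℝ := fun y => (y / β) ^ κ⁻¹ with hs
  have hs0 : ∀ y, 0 ≤ y → 0 ≤ s y := fun y hy => Real.rpow_nonneg (by positivity) _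
  have hsk : ∀ y, 0 ≤ y → (s y) ^ κ = y / β := by
    intro y hy
    rw [hs]
    simp only
    rw [← Real.rpow_mul (by positivity), inv_mul_cancel₀ hκ0.ne', Real.rpow_one]
  set I : ℕ → Set ℝ := fun n => Ioo (s n) (s (n + 1)) with hI
  have hfl : ∀ n : ℕ, ∀ t ∈ I n, 0 < t ∧ ⌊β * t ^ κ⌋₊ = n := by
    intro n t ht
    have h1 : 0 ≤ s n := hs0 n (by positivity)
    have ht0 : 0 < t := lt_of_le_of_lt h1 ht.1
    refine ⟨ht0, ?_⟩
    rw [Nat.floor_eq_iff (mul_nonneg hβ.le (Real.rpow_nonneg ht0.le _))]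
    have h2 : (s n) ^ κ < t ^ κ := Real.rpow_lt_rpow h1 ht.1 hκ0
    have h3 : t ^ κ < (s (n + 1)) ^ κ := Real.rpow_lt_rpow ht0.le ht.2 hκ0
    rw [hsk _ (by positivity), div_lt_iff₀ hβ] at h2
    rw [hsk _ (by positivity), lt_div_iff₀ hβ] at h3
    constructor
    · linarith
    · linarith
  have hdis : (S : Set ℕ).PairwiseDisjoint I := by
    intro n _ n' _ hne
    rw [Function.onFun, Set.disjoint_left]
    intro t ht ht'
    exact hne ((hfl n t ht).2.symm.trans (hfl n' t ht').2)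
  have hsub : (⋃ n ∈ S, I n) ⊆ V := by
    intro t ht
    simp only [mem_iUnion] at ht
    obtain ⟨n, hn, ht⟩ := ht
    obtain ⟨h1, h2⟩ := hfl n t ht
    obtain ⟨h3, h4⟩ := hS n hn
    refine ⟨h1, ?_, by rw [h2]; exact h3⟩
    have h5 : t ^ κ < (s (n + 1)) ^ κ := Real.rpow_lt_rpow h1.le ht.2 hκ0
    rw [hsk _ (by positivity)] at h5
    have h6 : ((n : ℝ) + 1) / β ≤ (M : ℝ) ^ κ := by
      rw [div_le_iff₀ hβ]
      linarith
    exact ((Real.rpow_lt_rpow_iff h1.le hM0.le hκ0).1 (h5.trans_le h6)).le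
  have hlen : ∀ n ∈ S, (M : ℝ) ^ (1 - κ) / (κ * β) ≤ s (n + 1) - s n := by
    intro n hn
    obtain ⟨-, h4⟩ := hS n hn
    set s1 := s n with hs1
    set s2 := s (n + 1) with hs2
    have hs20 : 0 < s2 := Real.rpow_pos_of_pos (by positivity) _
    have hs10 : 0 ≤ s1 := hs0 _ (by positivity)
    have h12 : s2 ^ κ - s1 ^ κ = 1 / β := by
      rw [hs2, hs1, hsk _ (by positivity), hsk _ (by positivity)]
      ring
    have hs2M : s2 ≤ M := by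
      have h6 : s2 ^ κ ≤ (M : ℝ) ^ κ := by
        rw [hs2, hsk _ (by positivity), div_le_iff₀ hβ]
        linarith
      exact (Real.rpow_le_rpow_iff hs20.le hM0.le hκ0).1 h6
    have hbern := one_add_mul_self_le_rpow_one_add (s := s1 / s2 - 1) (by
      have : 0 ≤ s1 / s2 := by positivity
      linarith) hκ
    rw [add_sub_cancel, Real.div_rpow hs10 hs20.le] at hbern
    have hp2 : 0 < s2 ^ κ := Real.rpow_pos_of_pos hs20 _
    rw [le_div_iff₀ hp2] at hbern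
    have e1 : s2 ^ κ = s2 ^ (κ - 1) * s2 := by
      rw [← Real.rpow_add_one hs20.ne']
      congr 1
      ring
    have h13 : s2 ^ κ - s1 ^ κ ≤ κ * (s2 ^ (κ - 1) * (s2 - s1)) := by
      have e2 : (1 + κ * (s1 / s2 - 1)) * s2 ^ κ = s2 ^ κ - κ * (s2 ^ (κ - 1) * (s2 - s1)) := by
        rw [e1]
        field_simp
        ring
      linarith
    rw [h12] at h13
    have h14 : s2 ^ (κ - 1) ≤ (M : ℝ) ^ (κ - 1) := Real.rpow_le_rpow hs20.le hs2M (by linarith)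
    have h15 : 0 ≤ s2 - s1 := by
      have : 0 < s2 ^ κ - s1 ^ κ := by rw [h12]; positivity
      have h16 : s1 ≤ s2 := (Real.rpow_le_rpow_iff hs10 hs20.le hκ0).1 (by linarith)
      linarith
    have h16 : 1 / β ≤ κ * ((M : ℝ) ^ (κ - 1) * (s2 - s1)) := by
      refine h13.trans ?_
      gcongr
    have e3 : (M : ℝ) ^ (1 - κ) * (M : ℝ) ^ (κ - 1) = 1 := by
      rw [← Real.rpow_add hM0]; simp
    rw [div_le_iff₀ (by positivity)]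
    have hMp : 0 < (M : ℝ) ^ (1 - κ) := Real.rpow_pos_of_pos hM0 _
    rw [div_le_iff₀ hβ] at h16
    calc (M : ℝ) ^ (1 - κ) = (M : ℝ) ^ (1 - κ) * 1 := (mul_one _).symm
      _ ≤ (M : ℝ) ^ (1 - κ) * (κ * ((M : ℝ) ^ (κ - 1) * (s2 - s1)) * β) :=
        mul_le_mul_of_nonneg_left h16 hMp.le
      _ = ((M : ℝ) ^ (1 - κ) * (M : ℝ) ^ (κ - 1)) * ((s2 - s1) * (κ * β)) := by ring
      _ = _ := by rw [e3, one_mul]
  have hvol : ENNReal.ofReal ((S.card : ℝ) * ((M : ℝ) ^ (1 - κ) / (κ * β))) ≤ volume V := by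
    have h1 : volume (⋃ n ∈ S, I n) = ∑ n ∈ S, volume (I n) :=
      measure_biUnion_finset hdis fun n _ => measurableSet_Ioo
    refine le_trans ?_ (measure_mono hsub)
    rw [h1, ← nsmul_eq_mul, ENNReal.ofReal_nsmul, ← Finset.sum_const]
    refine Finset.sum_le_sum fun n hn => ?_
    rw [Real.volume_Ioo]
    exact ENNReal.ofReal_le_ofReal (hlen n hn)
  rw [ENNReal.ofReal_le_iff_le_toReal hVfin] at hvol
  exact hvol

end Pool.Agent.Run7.h129.BU
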