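import Mathlib
import Pool.Agent.Run7.h129.BU.Main

set_option autoImplicit false

/-!
# The measure as a weighted sum, and partial summation
-/

open Filter Topology Set MeasureTheory Metric
open scoped Real ENNReal

namespace Pool.Agent.Run7.h129.BU

/-- the point at which `β t^κ = n` -/
noncomputable def ss (β κ : ℝ) (n : ℕ) : ℝ := ((n : ℝ) / β) ^ κ⁻¹

/-- the length of `{t | ⌊β t^κ⌋ = n}` -/
noncomputable def ww (β κ : ℝ) (n : ℕ) : ℝ := ss β κ (n + 1) - ss β κ n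

section

variable {β κ : ℝ}

lemma ss_zero (hκ : 0 < κ) : ss β κ 0 = 0 := by
  unfold ss
  simp [Real.zero_rpow (inv_ne_zero hκ.ne')]

lemma ss_nonneg (hβ : 0 < β) (n : ℕ) : 0 ≤ ss β κ n := by unfold ss; positivity

lemma ss_mono (hβ : 0 < β) (hκ : 0 < κ) : Monotone (ss β κ) := by
  intro m n h
  unfold ss
  exact Real.rpow_le_rpow (by positivity) (by gcongr) (by positivity)

lemma ss_pow (hβ : 0 < β) (hκ : 0 < κ) (n : ℕ) : (ss β κ n) ^ κ = n / β := by
  unfold ss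
  rw [← Real.rpow_mul (by positivity), inv_mul_cancel₀ hκ.ne', Real.rpow_one]

lemma ww_nonneg (hβ : 0 < β) (hκ : 0 < κ) (n : ℕ) : 0 ≤ ww β κ n := by
  unfold ww
  exact sub_nonneg.2 (ss_mono hβ hκ (Nat.le_succ n))

lemma ww_anti (hβ : 0 < β) (hκ : 1 ≤ κ) : Antitone (ww β κ) := by
  have hκ0 : 0 < κ := by linarith
  refine antitone_nat_of_succ_le fun n => ?_
  have h0 := (Real.concaveOn_rpow (p := κ⁻¹) (by positivity) (inv_le_one_of_one_le₀ hκ)).2
  have hx : (n : ℝ) / β ∈ Set.Ici (0 : ℝ) := Set.mem_Ici.2 (by positivity)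
  have hy : ((n + 2 : ℕ) : ℝ) / β ∈ Set.Ici (0 : ℝ) := Set.mem_Ici.2 (by positivity)
  have h := h0 hx hy (by norm_num : (0 : ℝ) ≤ 1 / 2) (by norm_num : (0 : ℝ) ≤ 1 / 2) (by norm_num)
  simp only [smul_eq_mul] at h
  have e : (1 / 2 : ℝ) * ((n : ℝ) / β) + 1 / 2 * (((n + 2 : ℕ) : ℝ) / β) = ((n + 1 : ℕ) : ℝ) / β := by
    push_cast
    ring
  rw [e] at h
  unfold ww ss
  have e2 : (n + 1 + 1 : ℕ) = n + 2 := rfl
  rw [e2]
  linarith

lemma ww_sum (n : ℕ) (hκ : 0 < κ) : ∑ i ∈ Finset.range n, ww β κ i = ss β κ n := by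
  unfold ww
  rw [Finset.sum_range_sub, ss_zero hκ, sub_zero]

lemma floor_iff (hβ : 0 < β) (hκ : 0 < κ) {t : ℝ} (ht : 0 < t) (n : ℕ) :
    ⌊β * t ^ κ⌋₊ = n ↔ ss β κ n ≤ t ∧ t < ss β κ (n + 1) := by
  have ht0 : 0 ≤ t ^ κ := Real.rpow_nonneg ht.le _
  rw [Nat.floor_eq_iff (mul_nonneg hβ.le ht0)]
  have h1 : (n : ℝ) ≤ β * t ^ κ ↔ ss β κ n ≤ t := by
    rw [← Real.rpow_le_rpow_iff (ss_nonneg hβ n) ht.le hκ, ss_pow hβ hκ, div_le_iff₀ hβ, mul_comm β]
  have h2 : β * t ^ κ < n + 1 ↔ t < ss β κ (n + 1) := by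
    rw [← Real.rpow_lt_rpow_iff ht.le (ss_nonneg hβ _) hκ, ss_pow hβ hκ, lt_div_iff₀ hβ, mul_comm β]
    push_cast
    rfl
  rw [h1, h2]

open Classical in
/-- the measure is the weighted sum -/
lemma vol_two (hβ : 0 < β) (hκ : 1 ≤ κ) (A : Set ℕ) (M : ℕ) :
    ∑ n ∈ Finset.range ⌊β * (M : ℝ) ^ κ⌋₊, (if n ∈ A then ww β κ n else 0) ≤ volA A β κ M ∧
    volA A β κ M ≤ ∑ n ∈ Finset.range ⌊β * (M : ℝ) ^ κ⌋₊, (if n ∈ A then ww β κ n else 0) + ww β κ 0 := by
  have hκ0 : 0 < κ := by linarith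
  set K := ⌊β * (M : ℝ) ^ κ⌋₊ with hK
  set V : Set ℝ := {t : ℝ | 0 < t ∧ t ≤ M ∧ ⌊β * t ^ κ⌋₊ ∈ A} with hV
  have hVfin : volume V ≠ ⊤ := by
    refine ne_top_of_le_ne_top (b := volume (Ioc (0 : ℝ) M)) ?_ (measure_mono ?_)
    · rw [Real.volume_Ioc]; exact ENNReal.ofReal_ne_top
    · rintro t ⟨a1, a2, -⟩; exact ⟨a1, a2⟩
  have hMK : ss β κ K ≤ M := by
    rcases Nat.eq_zero_or_pos M with h0 | h0
    · have : K = 0 := by rw [hK, h0]; simp [Real.zero_rpow hκ0.ne']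
      rw [this, ss_zero hκ0]
      positivity
    · exact ((floor_iff hβ hκ0 (by exact_mod_cast h0) K).1 rfl).1
  have hMK2 : (M : ℝ) - ss β κ K ≤ ww β κ 0 := by
    have h1 : ww β κ K ≤ ww β κ 0 := ww_anti hβ hκ (Nat.zero_le K)
    refine le_trans ?_ h1
    unfold ww
    have h2 : (M : ℝ) ≤ ss β κ (K + 1) := by
      rcases Nat.eq_zero_or_pos M with h0 | h0
      · rw [h0]
        simpa using ss_nonneg hβ (K + 1)
      · exact ((floor_iff hβ hκ0 (by exact_mod_cast h0) K).1 rfl).2.le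
    linarith
  set S := (Finset.range K).filter (fun n => n ∈ A) with hS
  have esum : ∑ n ∈ Finset.range K, (if n ∈ A then ww β κ n else 0) = ∑ n ∈ S, ww β κ n := by
    rw [hS, Finset.sum_filter]
  rw [esum]
  constructor
  · have hdis : (S : Set ℕ).PairwiseDisjoint fun n => Ioo (ss β κ n) (ss β κ (n + 1)) := by
      intro n _ n' _ hne
      rw [Function.onFun, Set.disjoint_left]
      intro t ht ht'
      have ht0 : 0 < t := lt_of_le_of_lt (ss_nonneg hβ n) ht.1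
      exact hne (((floor_iff hβ hκ0 ht0 n).2 ⟨ht.1.le, ht.2⟩).symm.trans
        ((floor_iff hβ hκ0 ht0 n').2 ⟨ht'.1.le, ht'.2⟩))
    have hsub : (⋃ n ∈ S, Ioo (ss β κ n) (ss β κ (n + 1))) ⊆ V := by
      intro t ht
      simp only [mem_iUnion] at ht
      obtain ⟨n, hn, ht⟩ := ht
      rw [hS, Finset.mem_filter, Finset.mem_range] at hn
      have ht0 : 0 < t := lt_of_le_of_lt (ss_nonneg hβ n) ht.1
      refine ⟨ht0, ?_, ?_⟩
      · exact (ht.2.le.trans (ss_mono hβ hκ0 (by omega : n + 1 ≤ K))).trans hMK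
      · rw [(floor_iff hβ hκ0 ht0 n).2 ⟨ht.1.le, ht.2⟩]
        exact hn.2
    have h1 : ENNReal.ofReal (∑ n ∈ S, ww β κ n) ≤ volume V := by
      refine le_trans ?_ (measure_mono hsub)
      rw [measure_biUnion_finset hdis fun n _ => measurableSet_Ioo,
        ENNReal.ofReal_sum_of_nonneg fun n _ => ww_nonneg hβ hκ0 n]
      refine Finset.sum_le_sum fun n _ => ?_
      rw [Real.volume_Ioo]
      rfl
    rw [ENNReal.ofReal_le_iff_le_toReal hVfin] at h1
    exact h1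
  · have hsub : V ⊆ (⋃ n ∈ S, Icc (ss β κ n) (ss β κ (n + 1))) ∪ Icc (ss β κ K) M := by
      rintro t ⟨ht0, ht1, ht2⟩
      have h1 := (floor_iff hβ hκ0 ht0 _).1 rfl
      rcases lt_or_ge ⌊β * t ^ κ⌋₊ K with h2 | h2
      · refine Or.inl ?_
        simp only [mem_iUnion]
        exact ⟨_, by rw [hS, Finset.mem_filter, Finset.mem_range]; exact ⟨h2, ht2⟩, h1.1, h1.2.le⟩
      · exact Or.inr ⟨(ss_mono hβ hκ0 h2).trans h1.1, ht1⟩
    have h1 : volume V ≤ ENNReal.ofReal (∑ n ∈ S, ww β κ n + ww β κ 0) := by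
      refine (measure_mono hsub).trans ((measure_union_le _ _).trans ?_)
      rw [ENNReal.ofReal_add (Finset.sum_nonneg fun n _ => ww_nonneg hβ hκ0 n) (ww_nonneg hβ hκ0 0)]
      refine add_le_add ?_ ?_
      · refine (measure_biUnion_finset_le _ _).trans ?_
        rw [ENNReal.ofReal_sum_of_nonneg fun n _ => ww_nonneg hβ hκ0 n]
        refine Finset.sum_le_sum fun n _ => ?_
        rw [Real.volume_Icc]
        rfl
      · rw [Real.volume_Icc]
        exact ENNReal.ofReal_le_ofReal hMK2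
    exact ENNReal.toReal_le_of_le_ofReal (add_nonneg (Finset.sum_nonneg fun n _ => ww_nonneg hβ hκ0 n)
      (ww_nonneg hβ hκ0 0)) h1

end

/-- partial summation for antitone weights -/
lemma abel0 {w a : ℕ → ℝ} (hw : Antitone w) : ∀ K : ℕ,
    (∀ n ≤ K, 0 ≤ ∑ i ∈ Finset.range n, a i) →
    w K * ∑ i ∈ Finset.range K, a i ≤ ∑ i ∈ Finset.range K, a i * w i := by
  intro K
  induction K with
  | zero => intro _; simp
  | succ K ih =>
    intro h
    have h1 := ih fun n hn => h n (by omega)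
    rw [Finset.sum_range_succ, Finset.sum_range_succ]
    have h2 := h (K + 1) le_rfl
    rw [Finset.sum_range_succ] at h2
    have h3 : w (K + 1) ≤ w K := hw (Nat.le_succ K)
    nlinarith

lemma abel_le {w f g : ℕ → ℝ} (hw : Antitone w) (hw0 : ∀ n, 0 ≤ w n) {K : ℕ}
    (h : ∀ n ≤ K, |∑ i ∈ Finset.range n, f i| ≤ ∑ i ∈ Finset.range n, g i) :
    |∑ i ∈ Finset.range K, f i * w i| ≤ ∑ i ∈ Finset.range K, g i * w i := by
  have h1 := abel0 (w := w) (a := fun i => g i - f i) hw K fun n hn => by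
    rw [Finset.sum_sub_distrib]
    have := (abs_le.1 (h n hn)).2
    linarith
  have h2 := abel0 (w := w) (a := fun i => g i + f i) hw K fun n hn => by
    rw [Finset.sum_add_distrib]
    have := (abs_le.1 (h n hn)).1
    linarith
  have h3 := h K le_rfl
  obtain ⟨h4, h5⟩ := abs_le.1 h3
  simp only [sub_mul, add_mul, Finset.sum_sub_distrib, Finset.sum_add_distrib] at h1 h2
  have h6 := hw0 K
  rw [abs_le]
  constructor
  · have : 0 ≤ w K * (∑ i ∈ Finset.range K, g i + ∑ i ∈ Finset.range K, f i) := mul_nonneg h6 (by linarith)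
    linarith
  · have : 0 ≤ w K * (∑ i ∈ Finset.range K, g i - ∑ i ∈ Finset.range K, f i) := mul_nonneg h6 (by linarith)
    linarith

/-- the weighted sum for a function small beyond `n₁` -/
lemma abel_eps {β κ : ℝ} (hβ : 0 < β) (hκ : 1 ≤ κ) {f : ℕ → ℝ} {K n₁ : ℕ} {ε : ℝ} (hε : 0 ≤ ε)
    (hf : ∀ n, |f n| ≤ 1) (h : ∀ n, n₁ < n → n ≤ K → |∑ i ∈ Finset.range n, f i| ≤ ε * n) :
    |∑ i ∈ Finset.range K, f i * ww β κ i| ≤ ε * ss β κ K + ss β κ n₁ := by
  have hκ0 : 0 < κ := by linarith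
  have h1 := abel_le (w := ww β κ) (f := f) (g := fun i => ε + if i < n₁ then 1 else 0) (ww_anti hβ hκ)
    (ww_nonneg hβ hκ0) (K := K) (by
      intro n hn
      rw [Finset.sum_add_distrib, Finset.sum_const, Finset.card_range, nsmul_eq_mul, ← Finset.sum_filter]
      rcases lt_or_ge n₁ n with h2 | h2
      · refine (h n h2 hn).trans ?_
        have : 0 ≤ ∑ i ∈ (Finset.range n).filter (fun i => i < n₁), (1 : ℝ) := by positivity
        linarith
      · have e : (Finset.range n).filter (fun i => i < n₁) = Finset.range n :=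
          Finset.filter_true_of_mem fun i hi => lt_of_lt_of_le (Finset.mem_range.1 hi) h2
        rw [e, Finset.sum_const, Finset.card_range, nsmul_eq_mul, mul_one]
        have h3 : |∑ i ∈ Finset.range n, f i| ≤ n := by
          refine (Finset.abs_sum_le_sum_abs _ _).trans ((Finset.sum_le_sum fun i _ => hf i).trans ?_)
          simp
        have : 0 ≤ (n : ℝ) * ε := by positivity
        linarith)
  refine h1.trans ?_
  simp only [add_mul, Finset.sum_add_distrib]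
  rw [← Finset.mul_sum, ww_sum K hκ0]
  have h2 : ∑ i ∈ Finset.range K, (if i < n₁ then (1 : ℝ) else 0) * ww β κ i ≤ ss β κ n₁ := by
    rw [← ww_sum n₁ hκ0]
    have e : ∀ i, (if i < n₁ then (1 : ℝ) else 0) * ww β κ i = if i < n₁ then ww β κ i else 0 := by
      intro i; split_ifs <;> simp
    simp only [e]
    rw [← Finset.sum_filter]
    refine Finset.sum_le_sum_of_subset_of_nonneg ?_ fun i _ _ => ww_nonneg hβ hκ0 i
    intro i hi
    rw [Finset.mem_filter] at hi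
    exact Finset.mem_range.2 hi.2
  linarith

end Pool.Agent.Run7.h129.BU
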