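import Mathlib
import Pool.Agent.Run7.h129.BU.Main

set_option autoImplicit false

/-!
# From counts of `A` to counts along `⌊β m^κ⌋`
-/

open Filter Topology Set MeasureTheory Metric
open scoped Real ENNReal

namespace Pool.Agent.Run7.h129.BU

lemma vol_ge' {A : Set ℕ} {β κ : ℝ} (hβ : 0 < β) (hκ : 1 ≤ κ) {M : ℕ} (hM : 1 ≤ M) {x : ℝ}
    (hx : x + 1 ≤ β * (M : ℝ) ^ κ) :
    ({n : ℕ | 1 ≤ n ∧ (n : ℝ) ≤ x ∧ n ∈ A}.ncard : ℝ) * ((M : ℝ) ^ (1 - κ) / (κ * β)) ≤ volA A β κ M := by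
  have hfin : {n : ℕ | 1 ≤ n ∧ (n : ℝ) ≤ x ∧ n ∈ A}.Finite := by
    refine (Finset.Icc 1 ⌊x⌋₊).finite_toSet.subset ?_
    rintro n ⟨h1, h2, -⟩
    rw [Finset.coe_Icc]
    exact ⟨h1, Nat.le_floor h2⟩
  have h1 := vol_ge (A := A) hβ hκ hM hfin.toFinset (by
    intro n hn
    rw [Set.Finite.mem_toFinset] at hn
    obtain ⟨-, h2, h3⟩ := hn
    exact ⟨h3, by linarith⟩)
  rwa [← Set.ncard_eq_toFinset_card _ hfin] at h1

lemma pow_nat_tendsto {κ : ℝ} (hκ : 0 < κ) : Tendsto (fun M : ℕ => (M : ℝ) ^ κ) atTop atTop :=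
  (tendsto_rpow_atTop hκ).comp tendsto_natCast_atTop_atTop

lemma neg_pow_nat {s : ℝ} (hs : 0 < s) : Tendsto (fun M : ℕ => (M : ℝ) ^ (-s)) atTop (𝓝 0) :=
  (tendsto_rpow_neg_atTop hs).comp tendsto_natCast_atTop_atTop

theorem tr_pow {A : Set ℕ} {β κ c : ℝ} (hβ : 0 < β) (hκ : 1 ≤ κ) (hc : 0 < c) (hc1 : c ≤ 1 / 10)
    (hlaw : ∃ C : ℝ, ∀ M : ℕ, 1 ≤ M → |(cntA A β κ M : ℝ) - volA A β κ M| ≤ C * (M : ℝ) ^ (1 - c))
    (hA : ∀ ε : ℝ, 0 < ε → ∀ᶠ x : ℝ in atTop, x ^ (1 - ε) ≤ ({n : ℕ | 1 ≤ n ∧ (n : ℝ) ≤ x ∧ n ∈ A}.ncard : ℝ))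
    {ε : ℝ} (hε : 0 < ε) : ∀ᶠ M : ℕ in atTop, (M : ℝ) ^ (1 - ε) ≤ (cntA A β κ M : ℝ) := by
  obtain ⟨C, hC⟩ := hlaw
  have hκ0 : 0 < κ := by linarith
  set e : ℝ := min ε c / (2 * κ) with he
  have hm0 : 0 < min ε c := lt_min hε hc
  have he0 : 0 < e := by positivity
  have heκ : κ * e = min ε c / 2 := by rw [he]; field_simp
  have hle1 : min ε c ≤ ε := min_le_left _ _
  have hle2 : min ε c ≤ c := min_le_right _ _
  have he1 : e ≤ 1 := by
    rw [he, div_le_one (by positivity)]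
    linarith
  set K : ℝ := (β / 2) ^ (1 - e) / (κ * β) with hK
  have hK0 : 0 < K := by positivity
  have hxt : Tendsto (fun M : ℕ => β * (M : ℝ) ^ κ - 1) atTop atTop :=
    tendsto_atTop_add_const_right _ _ ((pow_nat_tendsto hκ0).const_mul_atTop hβ)
  have t1 : Tendsto (fun M : ℕ => (M : ℝ) ^ (-(ε - κ * e)) + |C| * (M : ℝ) ^ (-(c - κ * e))) atTop
      (𝓝 (0 + |C| * 0)) :=
    (neg_pow_nat (by linarith)).add ((neg_pow_nat (by linarith)).const_mul _)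
  rw [mul_zero, add_zero] at t1
  filter_upwards [hxt.eventually (hA e he0), (pow_nat_tendsto hκ0).eventually_ge_atTop (2 / β),
    (tendsto_order.1 t1).2 K hK0, eventually_ge_atTop 1] with M h1 h2 h3 h4
  have hM0 : (0 : ℝ) < M := by exact_mod_cast h4
  have hv := vol_ge' (A := A) hβ hκ h4 (x := β * (M : ℝ) ^ κ - 1) (by linarith)
  have hlo := (abs_le.1 (hC M h4)).1
  have hx : β / 2 * (M : ℝ) ^ κ ≤ β * (M : ℝ) ^ κ - 1 := by
    rw [div_le_iff₀ hβ] at h2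
    linarith
  have hMκ : 0 < (M : ℝ) ^ κ := Real.rpow_pos_of_pos hM0 _
  have h5 : (β / 2) ^ (1 - e) * (M : ℝ) ^ (κ * (1 - e)) ≤ (β * (M : ℝ) ^ κ - 1) ^ (1 - e) := by
    rw [Real.rpow_mul hM0.le, ← Real.mul_rpow (by positivity) hMκ.le]
    exact Real.rpow_le_rpow (by positivity) hx (by linarith)
  have h6 : K * (M : ℝ) ^ (1 - κ * e) ≤ volA A β κ M := by
    refine le_trans ?_ hv
    calc K * (M : ℝ) ^ (1 - κ * e) = ((β / 2) ^ (1 - e) * (M : ℝ) ^ (κ * (1 - e))) *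
          ((M : ℝ) ^ (1 - κ) / (κ * β)) := by
          have e1 : (M : ℝ) ^ (1 - κ * e) = (M : ℝ) ^ (κ * (1 - e)) * (M : ℝ) ^ (1 - κ) := by
            rw [← Real.rpow_add hM0]
            congr 1
            ring
          rw [e1, hK]
          ring
      _ ≤ _ := mul_le_mul_of_nonneg_right (h5.trans h1) (by positivity)
  have hMe : 0 < (M : ℝ) ^ (1 - κ * e) := Real.rpow_pos_of_pos hM0 _
  have h7 : (M : ℝ) ^ (1 - ε) + |C| * (M : ℝ) ^ (1 - c) ≤ K * (M : ℝ) ^ (1 - κ * e) := by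
    have e1 : (M : ℝ) ^ (1 - ε) = (M : ℝ) ^ (-(ε - κ * e)) * (M : ℝ) ^ (1 - κ * e) := by
      rw [← Real.rpow_add hM0]
      congr 1
      ring
    have e2 : (M : ℝ) ^ (1 - c) = (M : ℝ) ^ (-(c - κ * e)) * (M : ℝ) ^ (1 - κ * e) := by
      rw [← Real.rpow_add hM0]
      congr 1
      ring
    rw [e1, e2, ← mul_assoc, ← add_mul]
    exact mul_le_mul_of_nonneg_right h3.le hMe.le
  have h8 : C * (M : ℝ) ^ (1 - c) ≤ |C| * (M : ℝ) ^ (1 - c) :=
    mul_le_mul_of_nonneg_right (le_abs_self C) (Real.rpow_nonneg hM0.le _)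
  linarith

/-- the length with `β M^κ ≈ x` -/
noncomputable def Mx (β κ : ℝ) (x : ℕ) : ℕ := ⌈(((x : ℝ) + 1) / β) ^ κ⁻¹⌉₊

lemma Mx_tendsto {β κ : ℝ} (hβ : 0 < β) (hκ : 0 < κ) : Tendsto (Mx β κ) atTop atTop := by
  unfold Mx
  refine tendsto_nat_ceil_atTop.comp ((tendsto_rpow_atTop (by positivity)).comp ?_)
  exact (tendsto_atTop_add_const_right _ _ tendsto_natCast_atTop_atTop).atTop_div_const hβ

theorem tr_at {A : Set ℕ} {β κ c : ℝ} (hβ : 0 < β) (hκ : 1 ≤ κ) (hc : 0 < c)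
    (hlaw : ∃ C : ℝ, ∀ M : ℕ, 1 ≤ M → |(cntA A β κ M : ℝ) - volA A β κ M| ≤ C * (M : ℝ) ^ (1 - c)) (D : ℕ) :
    ∀ᶠ x : ℕ in atTop, (x : ℝ) / (Real.log x) ^ D ≤ ({n : ℕ | 1 ≤ n ∧ (n : ℝ) ≤ x ∧ n ∈ A}.ncard : ℝ) →
      (Mx β κ x : ℝ) / (Real.log (Mx β κ x)) ^ (D + 1) ≤ (cntA A β κ (Mx β κ x) : ℝ) := by
  obtain ⟨C, hC⟩ := hlaw
  have hκ0 : 0 < κ := by linarith
  set K : ℝ := 1 / (2 ^ (κ + 1) * κ * (2 * κ) ^ D) with hK
  have hK0 : 0 < K := by positivity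
  -- the eventual inequality for `M`
  have ht : Tendsto (fun M : ℕ => 1 / Real.log M + |C| * (Real.log M ^ D / (M : ℝ) ^ c)) atTop
      (𝓝 (0 + |C| * 0)) := by
    have h1 : Tendsto (fun M : ℕ => 1 / Real.log M) atTop (𝓝 0) :=
      (tendsto_const_nhds (x := (1 : ℝ))).div_atTop (Real.tendsto_log_atTop.comp tendsto_natCast_atTop_atTop)
    have h2 : Tendsto (fun x : ℝ => Real.log x ^ D / x ^ c) atTop (𝓝 0) := by
      have h3 := isLittleO_log_rpow_rpow_atTop (s := c) (D : ℝ) hc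
      have h4 := h3.tendsto_div_nhds_zero
      refine h4.congr' ?_
      filter_upwards with x
      rw [Real.rpow_natCast]
    exact h1.add ((h2.comp tendsto_natCast_atTop_atTop).const_mul _)
  rw [mul_zero, add_zero] at ht
  have hlogt : Tendsto (fun M : ℕ => κ * Real.log M) atTop atTop :=
    (Real.tendsto_log_atTop.comp tendsto_natCast_atTop_atTop).const_mul_atTop hκ0
  have hev : ∀ᶠ M : ℕ in atTop, 3 ≤ M ∧ 1 / Real.log M + |C| * (Real.log M ^ D / (M : ℝ) ^ c) < K ∧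
      Real.log β ≤ κ * Real.log M := by
    filter_upwards [eventually_ge_atTop 3, (tendsto_order.1 ht).2 K hK0,
      hlogt.eventually_ge_atTop (Real.log β)] with M h1 h2 h3
    exact ⟨h1, h2, h3⟩
  have hbig : Tendsto (fun x : ℕ => (((x : ℝ) + 1) / β) ^ κ⁻¹) atTop atTop :=
    (tendsto_rpow_atTop (by positivity)).comp
      ((tendsto_atTop_add_const_right _ _ tendsto_natCast_atTop_atTop).atTop_div_const hβ)
  filter_upwards [(Mx_tendsto hβ hκ0).eventually hev, hbig.eventually_ge_atTop 1, eventually_ge_atTop 3]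
    with x hx1 hx2 hx3 hxA
  obtain ⟨hM3, hM4, hM5⟩ := hx1
  set M := Mx β κ x with hM
  have hM1 : 1 ≤ M := by omega
  have hM0 : (0 : ℝ) < M := by exact_mod_cast hM1
  have hx0 : (0 : ℝ) < x := by exact_mod_cast (by omega : 0 < x)
  have hx30 : (3 : ℝ) ≤ x := by exact_mod_cast hx3
  have hMlo : (((x : ℝ) + 1) / β) ^ κ⁻¹ ≤ M := Nat.le_ceil _
  have hMhi : (M : ℝ) ≤ 2 * (((x : ℝ) + 1) / β) ^ κ⁻¹ := by
    have : (M : ℝ) < (((x : ℝ) + 1) / β) ^ κ⁻¹ + 1 := Nat.ceil_lt_add_one (by positivity)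
    linarith
  have hrt : ((((x : ℝ) + 1) / β) ^ κ⁻¹) ^ κ = ((x : ℝ) + 1) / β := by
    rw [← Real.rpow_mul (by positivity), inv_mul_cancel₀ hκ0.ne', Real.rpow_one]
  have hp1 : (x : ℝ) + 1 ≤ β * (M : ℝ) ^ κ := by
    have h1 := Real.rpow_le_rpow (by positivity) hMlo hκ0.le
    rw [hrt, div_le_iff₀ hβ] at h1
    linarith
  have hp2 : β * (M : ℝ) ^ κ ≤ 2 ^ (κ + 1) * x := by
    have h1 := Real.rpow_le_rpow hM0.le hMhi hκ0.le
    rw [Real.mul_rpow (by norm_num) (by positivity), hrt] at h1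
    have h2 : β * (M : ℝ) ^ κ ≤ 2 ^ κ * (x + 1) := by
      calc β * (M : ℝ) ^ κ ≤ β * (2 ^ κ * ((x + 1) / β)) := mul_le_mul_of_nonneg_left h1 hβ.le
        _ = _ := by field_simp
    have h3 : (2 : ℝ) ^ (κ + 1) = 2 ^ κ * 2 := by rw [Real.rpow_add_one (by norm_num)]
    have h4 : (0 : ℝ) < 2 ^ κ := by positivity
    rw [h3]
    nlinarith
  have hlogM : 0 < Real.log M := Real.log_pos (by exact_mod_cast (by omega : 1 < M))
  have hlogx : 0 < Real.log x := Real.log_pos (by linarith)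
  have hlog : Real.log x ≤ 2 * κ * Real.log M := by
    have h1 : Real.log x ≤ Real.log (β * (M : ℝ) ^ κ) := Real.log_le_log hx0 (by linarith)
    rw [Real.log_mul hβ.ne' (Real.rpow_pos_of_pos hM0 _).ne', Real.log_rpow hM0] at h1
    linarith
  have hv := vol_ge' (A := A) hβ hκ hM1 (x := x) hp1
  have hlo := (abs_le.1 (hC M hM1)).1
  have hMκ : 0 < (M : ℝ) ^ κ := Real.rpow_pos_of_pos hM0 _
  have h5 : β * (M : ℝ) ^ κ / 2 ^ (κ + 1) / (2 * κ * Real.log M) ^ D ≤ (x : ℝ) / (Real.log x) ^ D := by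
    have h6 : β * (M : ℝ) ^ κ / 2 ^ (κ + 1) ≤ x := by
      rw [div_le_iff₀ (by positivity)]
      linarith
    exact div_le_div₀ hx0.le h6 (by positivity) (pow_le_pow_left₀ hlogx.le hlog _)
  have h6 : K * (M / Real.log M ^ D) ≤ volA A β κ M := by
    refine le_trans ?_ hv
    calc K * ((M : ℝ) / Real.log M ^ D) = (β * (M : ℝ) ^ κ / 2 ^ (κ + 1) / (2 * κ * Real.log M) ^ D) *
          ((M : ℝ) ^ (1 - κ) / (κ * β)) := by
          have e1 : (M : ℝ) = (M : ℝ) ^ κ * (M : ℝ) ^ (1 - κ) := by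
            rw [← Real.rpow_add hM0]
            simp
          rw [hK, mul_pow (2 * κ) (Real.log M) D]
          nth_rewrite 1 [e1]
          field_simp
      _ ≤ _ := mul_le_mul_of_nonneg_right (h5.trans hxA) (by positivity)
  have hMc : 0 < (M : ℝ) ^ c := Real.rpow_pos_of_pos hM0 _
  have h7 : (M : ℝ) / Real.log M ^ (D + 1) + |C| * (M : ℝ) ^ (1 - c) ≤ K * (M / Real.log M ^ D) := by
    have hMD : 0 < (M : ℝ) / Real.log M ^ D := by positivity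
    have e1 : (M : ℝ) / Real.log M ^ (D + 1) = 1 / Real.log M * (M / Real.log M ^ D) := by
      rw [pow_succ]
      field_simp
    have e2 : (M : ℝ) ^ (1 - c) = (Real.log M ^ D / (M : ℝ) ^ c) * (M / Real.log M ^ D) := by
      rw [Real.rpow_sub hM0, Real.rpow_one]
      field_simp
    rw [e1, e2, ← mul_assoc, ← add_mul]
    exact mul_le_mul_of_nonneg_right hM4.le hMD.le
  have h8 : C * (M : ℝ) ^ (1 - c) ≤ |C| * (M : ℝ) ^ (1 - c) :=
    mul_le_mul_of_nonneg_right (le_abs_self C) (Real.rpow_nonneg hM0.le _)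
  linarith

end Pool.Agent.Run7.h129.BU
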