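import Mathlib
import Pool.Agent.Run7.h129.BU.Abel
import Pool.Agent.Run7.h129.BU.Tr

/-!
# Upper bounds along `⌊β m^κ⌋`, `κ ≥ 1`
-/

set_option autoImplicit false

open Filter MeasureTheory Set

namespace Pool.Agent.Run7.h129.BU

lemma cnt_le (A : Set ℕ) (β κ : ℝ) (M : ℕ) : (cntA A β κ M : ℝ) ≤ M := by
  unfold cntA
  have : {m : ℕ | 1 ≤ m ∧ m ≤ M ∧ ⌊β * (m : ℝ) ^ κ⌋₊ ∈ A} ⊆ ((Finset.Icc 1 M : Finset ℕ) : Set ℕ) := by
    rintro m ⟨h1, h2, -⟩
    rw [Finset.mem_coe, Finset.mem_Icc]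
    exact ⟨h1, h2⟩
  have h := Set.ncard_le_ncard this (Finset.finite_toSet _)
  rw [Set.ncard_coe_finset, Nat.card_Icc, Nat.add_sub_cancel] at h
  exact_mod_cast h

/-- upper bound for the measure -/
theorem vol_up {β κ : ℝ} (hβ : 0 < β) (hκ : 1 ≤ κ) : ∃ C : ℝ, 0 < C ∧ ∀ (A : Set ℕ) (M : ℕ) (ε : ℝ), 1 ≤ M → 0 ≤ ε →
    (∀ n : ℕ, Nat.sqrt ⌊β * (M : ℝ) ^ κ⌋₊ < n → n ≤ ⌊β * (M : ℝ) ^ κ⌋₊ → ({i : ℕ | i < n ∧ i ∈ A}.ncard : ℝ) ≤ ε * n) →
    volA A β κ M ≤ ε * M + C * (M : ℝ) ^ (1 / 2 : ℝ) := by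
  classical
  have hκ0 : 0 < κ := by linarith
  refine ⟨(β ^ (1 / 2 : ℝ) / β) ^ κ⁻¹ + (1 / β) ^ κ⁻¹, by positivity, fun A M ε hM hε h => ?_⟩
  have hM0 : (0 : ℝ) < M := by exact_mod_cast hM
  have hM1 : (1 : ℝ) ≤ M := by exact_mod_cast hM
  set K := ⌊β * (M : ℝ) ^ κ⌋₊ with hK
  have hKle : (K : ℝ) ≤ β * (M : ℝ) ^ κ := Nat.floor_le (by positivity)
  have h1 := (vol_two hβ hκ A M).2
  have h2 := abel_eps (f := fun i => if i ∈ A then (1 : ℝ) else 0) (K := K) (n₁ := Nat.sqrt K) hβ hκ hε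
    (fun n => by split_ifs <;> simp) (by
      intro n hn1 hn2
      have h3 := h n hn1 hn2
      have h4 : ∑ i ∈ Finset.range n, (if i ∈ A then (1 : ℝ) else 0) = ({i : ℕ | i < n ∧ i ∈ A}.ncard : ℝ) := by
        rw [← Finset.sum_filter, Finset.sum_const, nsmul_eq_mul, mul_one]
        congr 1
        rw [← Set.ncard_coe_finset]
        congr 1
        ext i
        simp
      rw [h4, abs_of_nonneg (Nat.cast_nonneg _)]
      exact h3)
  have h3 : ∑ n ∈ Finset.range K, (if n ∈ A then ww β κ n else 0) =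
      ∑ i ∈ Finset.range K, (if i ∈ A then (1 : ℝ) else 0) * ww β κ i := by
    refine Finset.sum_congr rfl fun i _ => ?_
    split_ifs <;> simp
  have h4 : ss β κ K ≤ M := by
    unfold ss
    calc ((K : ℝ) / β) ^ κ⁻¹ ≤ ((M : ℝ) ^ κ) ^ κ⁻¹ := by
          refine Real.rpow_le_rpow (by positivity) ?_ (by positivity)
          rw [div_le_iff₀ hβ]; linarith
      _ = M := by rw [← Real.rpow_mul hM0.le, mul_inv_cancel₀ hκ0.ne', Real.rpow_one]
  have h5 : ss β κ (Nat.sqrt K) ≤ (β ^ (1 / 2 : ℝ) / β) ^ κ⁻¹ * (M : ℝ) ^ (1 / 2 : ℝ) := by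
    unfold ss
    have e1 : (Nat.sqrt K : ℝ) ≤ (β * (M : ℝ) ^ κ) ^ (1 / 2 : ℝ) := by
      have : ((Nat.sqrt K : ℝ)) ^ 2 ≤ β * (M : ℝ) ^ κ := by
        refine le_trans ?_ hKle
        exact_mod_cast Nat.sqrt_le' K
      calc (Nat.sqrt K : ℝ) = (((Nat.sqrt K : ℝ)) ^ 2) ^ (1 / 2 : ℝ) := by
            rw [← Real.rpow_natCast, ← Real.rpow_mul (Nat.cast_nonneg _)]; norm_num
        _ ≤ _ := Real.rpow_le_rpow (by positivity) this (by norm_num)
    calc ((Nat.sqrt K : ℝ) / β) ^ κ⁻¹ ≤ ((β * (M : ℝ) ^ κ) ^ (1 / 2 : ℝ) / β) ^ κ⁻¹ :=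
          Real.rpow_le_rpow (by positivity) (by gcongr) (by positivity)
      _ = ((β ^ (1 / 2 : ℝ) / β) * ((M : ℝ) ^ κ) ^ (1 / 2 : ℝ)) ^ κ⁻¹ := by
          rw [Real.mul_rpow hβ.le (by positivity)]
          congr 1
          ring
      _ = (β ^ (1 / 2 : ℝ) / β) ^ κ⁻¹ * (M : ℝ) ^ (1 / 2 : ℝ) := by
          rw [Real.mul_rpow (by positivity) (by positivity), ← Real.rpow_mul hM0.le, ← Real.rpow_mul hM0.le]
          congr 2
          field_simp
  have h6 : ww β κ 0 ≤ (1 / β) ^ κ⁻¹ * (M : ℝ) ^ (1 / 2 : ℝ) := by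
    have e1 : ww β κ 0 = (1 / β) ^ κ⁻¹ := by
      unfold ww
      rw [ss_zero hκ0]
      unfold ss
      simp
    rw [e1]
    exact le_mul_of_one_le_right (by positivity) (Real.one_le_rpow hM1 (by norm_num))
  rw [h3] at h1
  have h7 := le_of_abs_le h2
  have h8 : ε * ss β κ K ≤ ε * M := mul_le_mul_of_nonneg_left h4 hε
  rw [add_mul]
  linarith

lemma lt_sq_of_sqrt {K n : ℕ} (h : Nat.sqrt K < n) : (K : ℝ) ≤ (n : ℝ) ^ 2 := by
  have : K < n ^ 2 := Nat.sqrt_lt'.1 h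
  exact_mod_cast this.le

/-- **Upper bounds with a power saving pass to the sequence.** -/
theorem tu_pow {A : Set ℕ} {β κ c δ C₀ : ℝ} (hβ : 0 < β) (hκ : 1 ≤ κ) (hc : 0 < c) (hδ : 0 < δ) (hδ1 : δ ≤ 1)
    (hlaw : ∃ C : ℝ, ∀ M : ℕ, 1 ≤ M → |(cntA A β κ M : ℝ) - volA A β κ M| ≤ C * (M : ℝ) ^ (1 - c))
    (hA : ∀ n : ℕ, 1 ≤ n → ({i : ℕ | i < n ∧ i ∈ A}.ncard : ℝ) ≤ C₀ * (n : ℝ) ^ (1 - δ)) :
    ∃ C : ℝ, 0 < C ∧ ∀ M : ℕ, 1 ≤ M → (cntA A β κ M : ℝ) ≤ C * (M : ℝ) ^ (1 - min c (δ / 2)) := by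
  obtain ⟨C, hC⟩ := hlaw
  obtain ⟨C₁, hC₁, h1⟩ := vol_up hβ hκ
  have hκ0 : 0 < κ := by linarith
  have hC₀ : 0 ≤ C₀ := by
    have := hA 1 le_rfl
    simp only [Nat.cast_one, Real.one_rpow, mul_one] at this
    exact (Nat.cast_nonneg _).trans this
  set e := min c (δ / 2) with he
  have he0 : 0 < e := lt_min hc (by linarith)
  have hec : e ≤ c := min_le_left _ _
  have heδ : e ≤ δ / 2 := min_le_right _ _
  refine ⟨|C| + C₀ * (β / 2) ^ (-(δ / 2)) + C₁ + 2 / β + 1, by positivity, fun M hM => ?_⟩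
  have hM0 : (0 : ℝ) < M := by exact_mod_cast hM
  have hM1 : (1 : ℝ) ≤ M := by exact_mod_cast hM
  set K := ⌊β * (M : ℝ) ^ κ⌋₊ with hK
  have hMe : (1 : ℝ) ≤ (M : ℝ) ^ (1 - e) := Real.one_le_rpow hM1 (by linarith)
  by_cases hb : β * (M : ℝ) ^ κ < 2
  · have e1 : (M : ℝ) ≤ 2 / β := by
      rw [le_div_iff₀ hβ]
      have : (M : ℝ) ≤ (M : ℝ) ^ κ := by
        conv_lhs => rw [← Real.rpow_one (M : ℝ)]
        exact Real.rpow_le_rpow_of_exponent_le hM1 hκ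
      nlinarith
    have e2 := cnt_le A β κ M
    have e3 : 0 ≤ |C| + C₀ * (β / 2) ^ (-(δ / 2)) + C₁ := by positivity
    have e4 : 0 < 2 / β := by positivity
    nlinarith
  · push Not at hb
    have hK1 : β * (M : ℝ) ^ κ / 2 ≤ K := by
      have := Nat.lt_floor_add_one (β * (M : ℝ) ^ κ)
      rw [← hK] at this
      linarith
    have hK0 : (0 : ℝ) < K := lt_of_lt_of_le (by positivity) hK1
    have e1 := h1 A M (C₀ * (K : ℝ) ^ (-(δ / 2))) hM (by positivity) (by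
      intro n hn1 hn2
      have hn0 : 1 ≤ n := by omega
      have hnR : (0 : ℝ) < n := by exact_mod_cast hn0
      refine (hA n hn0).trans ?_
      have e2 : (n : ℝ) ^ (1 - δ) = (n : ℝ) ^ (-δ) * n := by
        rw [← Real.rpow_add_one hnR.ne']
        congr 1
        ring
      have e3 : (n : ℝ) ^ (-δ) ≤ (K : ℝ) ^ (-(δ / 2)) := by
        calc (n : ℝ) ^ (-δ) = ((n : ℝ) ^ 2) ^ (-(δ / 2)) := by
              rw [← Real.rpow_natCast, ← Real.rpow_mul hnR.le]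
              congr 1
              push_cast
              ring
          _ ≤ (K : ℝ) ^ (-(δ / 2)) := Real.rpow_le_rpow_of_nonpos hK0 (lt_sq_of_sqrt hn1) (by linarith)
      rw [e2, mul_assoc]
      exact mul_le_mul_of_nonneg_left (mul_le_mul_of_nonneg_right e3 hnR.le) hC₀)
    have e2 : (K : ℝ) ^ (-(δ / 2)) * M ≤ (β / 2) ^ (-(δ / 2)) * (M : ℝ) ^ (1 - e) := by
      have e3 : (K : ℝ) ^ (-(δ / 2)) ≤ (β / 2) ^ (-(δ / 2)) * (M : ℝ) ^ (-(δ / 2)) := by
        rw [← Real.mul_rpow (by positivity) hM0.le]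
        refine Real.rpow_le_rpow_of_nonpos (by positivity) (le_trans ?_ hK1) (by linarith)
        have : (M : ℝ) ≤ (M : ℝ) ^ κ := by
          conv_lhs => rw [← Real.rpow_one (M : ℝ)]
          exact Real.rpow_le_rpow_of_exponent_le hM1 hκ
        nlinarith
      calc (K : ℝ) ^ (-(δ / 2)) * M ≤ (β / 2) ^ (-(δ / 2)) * (M : ℝ) ^ (-(δ / 2)) * M :=
            mul_le_mul_of_nonneg_right e3 hM0.le
        _ = (β / 2) ^ (-(δ / 2)) * (M : ℝ) ^ (1 - δ / 2) := by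
            rw [mul_assoc, ← Real.rpow_add_one hM0.ne']
            congr 2
            ring
        _ ≤ _ := mul_le_mul_of_nonneg_left (Real.rpow_le_rpow_of_exponent_le hM1 (by linarith)) (by positivity)
    have e3 : (M : ℝ) ^ (1 / 2 : ℝ) ≤ (M : ℝ) ^ (1 - e) := Real.rpow_le_rpow_of_exponent_le hM1 (by linarith)
    have e4 : (M : ℝ) ^ (1 - c) ≤ (M : ℝ) ^ (1 - e) := Real.rpow_le_rpow_of_exponent_le hM1 (by linarith)
    have e5 := (abs_le.1 (hC M hM)).2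
    have e6 : C * (M : ℝ) ^ (1 - c) ≤ |C| * (M : ℝ) ^ (1 - e) :=
      (mul_le_mul_of_nonneg_right (le_abs_self C) (by positivity)).trans
        (mul_le_mul_of_nonneg_left e4 (abs_nonneg _))
    have e7 : C₁ * (M : ℝ) ^ (1 / 2 : ℝ) ≤ C₁ * (M : ℝ) ^ (1 - e) := mul_le_mul_of_nonneg_left e3 hC₁.le
    have e8 : C₀ * (K : ℝ) ^ (-(δ / 2)) * M ≤ C₀ * (β / 2) ^ (-(δ / 2)) * (M : ℝ) ^ (1 - e) := by
      rw [mul_assoc, mul_assoc]
      exact mul_le_mul_of_nonneg_left e2 hC₀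
    have e9 : 0 ≤ (2 / β + 1) * (M : ℝ) ^ (1 - e) := by positivity
    nlinarith

lemma log_pow_le (V : ℕ) {e : ℝ} (he : 0 < e) : ∃ C : ℝ, 0 < C ∧ ∀ M : ℕ, 1 ≤ M → (Real.log M) ^ V ≤ C * (M : ℝ) ^ e := by
  set s : ℝ := e / (V + 1) with hs
  have hs0 : 0 < s := by positivity
  refine ⟨(1 / s) ^ V, by positivity, fun M hM => ?_⟩
  have hM1 : (1 : ℝ) ≤ M := by exact_mod_cast hM
  have hM0 : (0 : ℝ) < M := by linarith
  calc (Real.log M) ^ V ≤ ((M : ℝ) ^ s / s) ^ V :=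
        pow_le_pow_left₀ (Real.log_nonneg hM1) (Real.log_le_rpow_div hM0.le hs0) V
    _ = (1 / s) ^ V * (M : ℝ) ^ (s * V) := by
        rw [Real.rpow_mul hM0.le, Real.rpow_natCast]
        ring
    _ ≤ (1 / s) ^ V * (M : ℝ) ^ e := by
        refine mul_le_mul_of_nonneg_left (Real.rpow_le_rpow_of_exponent_le hM1 ?_) (by positivity)
        rw [hs, div_mul_eq_mul_div, div_le_iff₀ (by positivity)]
        nlinarith

/-- **Upper bounds with a saving of a power of the logarithm pass to the sequence.** -/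
theorem tu_log {A : Set ℕ} {β κ c C₀ : ℝ} (V : ℕ) (hβ : 0 < β) (hκ : 1 ≤ κ) (hc : 0 < c) (hc1 : c ≤ 1 / 2)
    (hlaw : ∃ C : ℝ, ∀ M : ℕ, 1 ≤ M → |(cntA A β κ M : ℝ) - volA A β κ M| ≤ C * (M : ℝ) ^ (1 - c))
    (hC₀ : 0 ≤ C₀)
    (hA : ∀ n : ℕ, 2 ≤ n → ({i : ℕ | i < n ∧ i ∈ A}.ncard : ℝ) ≤ C₀ * (n / (Real.log n) ^ V)) :
    ∃ C : ℝ, 0 < C ∧ ∀ M : ℕ, 2 ≤ M → (cntA A β κ M : ℝ) ≤ C * (M / (Real.log M) ^ V) := by
  obtain ⟨C, hC⟩ := hlaw
  obtain ⟨C₁, hC₁, h1⟩ := vol_up hβ hκ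
  have hκ0 : 0 < κ := by linarith
  obtain ⟨L, hL, hL1⟩ := log_pow_le V hc
  obtain ⟨L', hL', hL1'⟩ := log_pow_le V one_pos
  -- beyond `M₀` we have `M^(κ/2) ≥ 4/β`
  set B : ℝ := (4 / β) ^ (2 / κ) + 4 with hB
  have hB0 : 0 < B := by positivity
  refine ⟨L * (|C| + C₁) + C₀ * 4 ^ V + L' * B + 1, by positivity, fun M hM => ?_⟩
  have hM0 : (0 : ℝ) < M := by exact_mod_cast (by omega : 0 < M)
  have hM2 : (2 : ℝ) ≤ M := by exact_mod_cast hM
  have hM1 : (1 : ℝ) ≤ M := by linarith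
  have hl : 0 < Real.log M := Real.log_pos (by linarith)
  have hlV : 0 < (Real.log M) ^ V := by positivity
  have hfin : (cntA A β κ M : ℝ) * (Real.log M) ^ V ≤
      (L * (|C| + C₁) + C₀ * 4 ^ V + L' * B + 1) * M := by
    by_cases hb : (M : ℝ) < B
    · have e1 := cnt_le A β κ M
      have e2 := hL1' M (by omega)
      rw [Real.rpow_one] at e2
      calc (cntA A β κ M : ℝ) * (Real.log M) ^ V ≤ B * (L' * M) :=
            mul_le_mul (e1.trans hb.le) e2 hlV.le hB0.le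
        _ ≤ _ := by
            have : 0 ≤ (L * (|C| + C₁) + C₀ * 4 ^ V + 1) * M := by positivity
            nlinarith
    · push Not at hb
      set K := ⌊β * (M : ℝ) ^ κ⌋₊ with hK
      have hMB : (4 / β) ≤ (M : ℝ) ^ (κ / 2) := by
        have e1 : (4 / β) ^ (2 / κ) ≤ M := by linarith
        have e2 := Real.rpow_le_rpow (by positivity) e1 (by positivity : 0 ≤ κ / 2)
        rw [← Real.rpow_mul (by positivity)] at e2
        have e3 : 2 / κ * (κ / 2) = 1 := by field_simp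
        rwa [e3, Real.rpow_one] at e2
      have hM4 : (4 : ℝ) ≤ M := by
        have : 0 ≤ (4 / β) ^ (2 / κ) := by positivity
        linarith
      have hMκ : (M : ℝ) ^ κ = (M : ℝ) ^ (κ / 2) * (M : ℝ) ^ (κ / 2) := by
        rw [← Real.rpow_add hM0]; congr 1; ring
      have hMh : (2 : ℝ) ≤ (M : ℝ) ^ (κ / 2) := by
        calc (2 : ℝ) = (4 : ℝ) ^ (1 / 2 : ℝ) := by
              rw [show (4 : ℝ) = 2 ^ (2 : ℝ) by norm_num, ← Real.rpow_mul (by norm_num)]; norm_num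
          _ ≤ (M : ℝ) ^ (1 / 2 : ℝ) := Real.rpow_le_rpow (by norm_num) hM4 (by norm_num)
          _ ≤ (M : ℝ) ^ (κ / 2) := Real.rpow_le_rpow_of_exponent_le hM1 (by linarith)
      have hβM : 4 * (M : ℝ) ^ (κ / 2) ≤ β * (M : ℝ) ^ κ := by
        have e4 : 4 ≤ β * (M : ℝ) ^ (κ / 2) := by
          rw [div_le_iff₀ hβ] at hMB
          linarith
        rw [hMκ]
        have : 0 < (M : ℝ) ^ (κ / 2) := by positivity
        nlinarith
      have hK1 : (M : ℝ) ^ (κ / 2) ≤ K := by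
        have := Nat.lt_floor_add_one (β * (M : ℝ) ^ κ)
        rw [← hK] at this
        linarith
      have hK2 : (2 : ℝ) ≤ K := by linarith
      have hlK : Real.log M / 2 ≤ Real.log K := by
        calc Real.log M / 2 ≤ κ / 2 * Real.log M := by nlinarith
          _ = Real.log ((M : ℝ) ^ (κ / 2)) := (Real.log_rpow hM0 _).symm
          _ ≤ Real.log K := Real.log_le_log (by positivity) hK1
      have hlK0 : 0 < Real.log K := by linarith
      have e1 := h1 A M (C₀ * (2 ^ V / (Real.log K) ^ V)) (by omega) (by positivity) (by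
        intro n hn1 hn2
        have hn2' : 2 ≤ n := by
          have h5 := lt_sq_of_sqrt hn1
          by_contra hcon
          have : (n : ℝ) ≤ 1 := by exact_mod_cast (by omega : n ≤ 1)
          have h0 : (0 : ℝ) ≤ n := Nat.cast_nonneg _
          nlinarith
        have hnR : (2 : ℝ) ≤ n := by exact_mod_cast hn2'
        have hln : Real.log K / 2 ≤ Real.log n := by
          have h5 := Real.log_le_log (by linarith) (lt_sq_of_sqrt hn1)
          rw [Real.log_pow] at h5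
          push_cast at h5
          linarith
        refine (hA n hn2').trans ?_
        rw [mul_assoc]
        refine mul_le_mul_of_nonneg_left ?_ hC₀
        have h6 : (Real.log K / 2) ^ V ≤ (Real.log n) ^ V := pow_le_pow_left₀ (by linarith) hln V
        have h7 : 0 < (Real.log K / 2) ^ V := by positivity
        calc (n : ℝ) / (Real.log n) ^ V ≤ n / (Real.log K / 2) ^ V := by gcongr
          _ = 2 ^ V / (Real.log K) ^ V * n := by rw [div_pow]; field_simp)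
      have e2 : 2 ^ V / (Real.log K) ^ V ≤ 4 ^ V / (Real.log M) ^ V := by
        have h6 : (Real.log M / 2) ^ V ≤ (Real.log K) ^ V := pow_le_pow_left₀ (by linarith) hlK V
        calc (2 : ℝ) ^ V / (Real.log K) ^ V ≤ 2 ^ V / (Real.log M / 2) ^ V := by gcongr
          _ = 4 ^ V / (Real.log M) ^ V := by
              rw [div_pow, div_div_eq_mul_div, ← mul_pow]
              norm_num
      have e3 : C₀ * (2 ^ V / (Real.log K) ^ V) * M * (Real.log M) ^ V ≤ C₀ * 4 ^ V * M := by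
        calc C₀ * (2 ^ V / (Real.log K) ^ V) * M * (Real.log M) ^ V
            ≤ C₀ * (4 ^ V / (Real.log M) ^ V) * M * (Real.log M) ^ V := by gcongr
          _ = C₀ * 4 ^ V * M := by field_simp
      have e4 := (abs_le.1 (hC M (by omega))).2
      have e5 := hL1 M (by omega)
      have e6 : (M : ℝ) ^ (1 - c) * (M : ℝ) ^ c = M := by
        rw [← Real.rpow_add hM0]; simp
      have e7 : (M : ℝ) ^ (1 / 2 : ℝ) ≤ (M : ℝ) ^ (1 - c) := Real.rpow_le_rpow_of_exponent_le hM1 (by linarith)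
      have e8 : (cntA A β κ M : ℝ) ≤ C₀ * (2 ^ V / (Real.log K) ^ V) * M + (|C| + C₁) * (M : ℝ) ^ (1 - c) := by
        have h8 : C * (M : ℝ) ^ (1 - c) ≤ |C| * (M : ℝ) ^ (1 - c) :=
          mul_le_mul_of_nonneg_right (le_abs_self C) (by positivity)
        have h9 : C₁ * (M : ℝ) ^ (1 / 2 : ℝ) ≤ C₁ * (M : ℝ) ^ (1 - c) := mul_le_mul_of_nonneg_left e7 hC₁.le
        nlinarith
      have e9 : (M : ℝ) ^ (1 - c) * (Real.log M) ^ V ≤ L * M := by
        calc (M : ℝ) ^ (1 - c) * (Real.log M) ^ V ≤ (M : ℝ) ^ (1 - c) * (L * (M : ℝ) ^ c) :=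
              mul_le_mul_of_nonneg_left e5 (by positivity)
          _ = L * ((M : ℝ) ^ (1 - c) * (M : ℝ) ^ c) := by ring
          _ = L * M := by rw [e6]
      have hCC : 0 ≤ |C| + C₁ := by positivity
      calc (cntA A β κ M : ℝ) * (Real.log M) ^ V
          ≤ (C₀ * (2 ^ V / (Real.log K) ^ V) * M + (|C| + C₁) * (M : ℝ) ^ (1 - c)) * (Real.log M) ^ V :=
            mul_le_mul_of_nonneg_right e8 hlV.le
        _ = C₀ * (2 ^ V / (Real.log K) ^ V) * M * (Real.log M) ^ V +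
            (|C| + C₁) * ((M : ℝ) ^ (1 - c) * (Real.log M) ^ V) := by ring
        _ ≤ C₀ * 4 ^ V * M + (|C| + C₁) * (L * M) := add_le_add e3 (mul_le_mul_of_nonneg_left e9 hCC)
        _ ≤ _ := by
            have : 0 ≤ (L' * B + 1) * M := by positivity
            nlinarith
  calc (cntA A β κ M : ℝ) = (cntA A β κ M : ℝ) * (Real.log M) ^ V / (Real.log M) ^ V := by field_simp
    _ ≤ (L * (|C| + C₁) + C₀ * 4 ^ V + L' * B + 1) * M / (Real.log M) ^ V := by gcongr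
    _ = _ := by ring

end Pool.Agent.Run7.h129.BU
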