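import Mathlib
import Pool.Agent.Run7.h129.BU.TU

/-!
# Sets of small upper density along `⌊β m^κ⌋`, `κ ≥ 1`
-/

set_option autoImplicit false

open Filter MeasureTheory Set

namespace Pool.Agent.Run7.h129.BU

lemma K_tendsto {β κ : ℝ} (hβ : 0 < β) (hκ : 0 < κ) :
    Tendsto (fun M : ℕ => Nat.sqrt ⌊β * (M : ℝ) ^ κ⌋₊) atTop atTop := by
  have h1 : Tendsto (fun M : ℕ => ⌊β * (M : ℝ) ^ κ⌋₊) atTop atTop :=
    tendsto_nat_floor_atTop.comp ((pow_nat_tendsto hκ).const_mul_atTop hβ)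
  have h2 : Tendsto Nat.sqrt atTop atTop := by
    refine tendsto_atTop_mono (f := fun n => Nat.sqrt n) (fun n => le_rfl) ?_
    refine tendsto_atTop.2 fun b => ?_
    filter_upwards [eventually_ge_atTop (b * b)] with n hn
    exact Nat.le_sqrt.2 hn
  exact h2.comp h1

/-- **Small upper density passes to the sequence.** -/
theorem tu_dens {A : Set ℕ} {β κ c ε ε' : ℝ} (hβ : 0 < β) (hκ : 1 ≤ κ) (hc : 0 < c) (hε : 0 ≤ ε) (hεε : ε < ε')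
    (hlaw : ∃ C : ℝ, ∀ M : ℕ, 1 ≤ M → |(cntA A β κ M : ℝ) - volA A β κ M| ≤ C * (M : ℝ) ^ (1 - c))
    (hA : ∀ᶠ n : ℕ in atTop, ({i : ℕ | i < n ∧ i ∈ A}.ncard : ℝ) ≤ ε * n) :
    ∀ᶠ M : ℕ in atTop, (cntA A β κ M : ℝ) ≤ ε' * M := by
  obtain ⟨C, hC⟩ := hlaw
  obtain ⟨C₁, hC₁, h1⟩ := vol_up hβ hκ
  obtain ⟨n₀, hn₀⟩ := eventually_atTop.1 hA
  have h2 := (K_tendsto hβ (by linarith : 0 < κ)).eventually_ge_atTop n₀
  have h3 : Tendsto (fun M : ℕ => |C| * (M : ℝ) ^ (-c) + C₁ * (M : ℝ) ^ (-(1 / 2) : ℝ)) atTop (nhds 0) := by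
    have := ((neg_pow_nat hc).const_mul |C|).add ((neg_pow_nat (by norm_num : (0 : ℝ) < 1 / 2)).const_mul C₁)
    simpa using this
  filter_upwards [h2, h3.eventually (gt_mem_nhds (sub_pos.2 hεε)), eventually_ge_atTop 1] with M hM2 hM3 hM1
  have hM0 : (0 : ℝ) < M := by exact_mod_cast hM1
  have e1 := h1 A M ε hM1 hε (fun n hn _ => hn₀ n (by omega))
  have e2 := (abs_le.1 (hC M hM1)).2
  have e3 : (M : ℝ) ^ (1 - c) = (M : ℝ) ^ (-c) * M := by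
    rw [← Real.rpow_add_one hM0.ne']; congr 1; ring
  have e4 : (M : ℝ) ^ (1 / 2 : ℝ) = (M : ℝ) ^ (-(1 / 2) : ℝ) * M := by
    rw [← Real.rpow_add_one hM0.ne']; congr 1; norm_num
  have e5 : C * (M : ℝ) ^ (1 - c) ≤ |C| * (M : ℝ) ^ (1 - c) :=
    mul_le_mul_of_nonneg_right (le_abs_self C) (by positivity)
  rw [e3] at e5 e2
  rw [e4] at e1
  have e6 : (|C| * (M : ℝ) ^ (-c) + C₁ * (M : ℝ) ^ (-(1 / 2) : ℝ)) * M ≤ (ε' - ε) * M :=
    mul_le_mul_of_nonneg_right hM3.le hM0.le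
  nlinarith

/-- dyadic blocks -/
lemma dyadic_dens {A : Set ℕ} {ε : ℝ} (hε : 0 < ε)
    (h : ∀ᶠ X : ℕ in atTop, ({i : ℕ | X / 2 < i ∧ i ≤ X ∧ i ∈ A}.ncard : ℝ) ≤ ε * X) :
    ∀ᶠ n : ℕ in atTop, ({i : ℕ | i < n ∧ i ∈ A}.ncard : ℝ) ≤ 3 * ε * n := by
  obtain ⟨X₁, hX₁⟩ := eventually_atTop.1 h
  have key : ∀ X : ℕ, ({i : ℕ | i ≤ X ∧ i ∈ A}.ncard : ℝ) ≤ X₁ + 1 + 2 * ε * X := by
    intro X
    induction X using Nat.strong_induction_on with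
    | _ X ih =>
      by_cases hX : X₁ + 1 ≤ X
      · have h1 : {i : ℕ | i ≤ X ∧ i ∈ A} ⊆ {i : ℕ | i ≤ X / 2 ∧ i ∈ A} ∪ {i : ℕ | X / 2 < i ∧ i ≤ X ∧ i ∈ A} := by
          rintro i ⟨h1, h2⟩
          rcases Nat.lt_or_ge (X / 2) i with h3 | h3
          · exact Or.inr ⟨h3, h1, h2⟩
          · exact Or.inl ⟨h3, h2⟩
        have hf1 : ({i : ℕ | i ≤ X / 2 ∧ i ∈ A}).Finite := (Set.finite_Iic (X / 2)).subset fun i hi => hi.1
        have hf2 : ({i : ℕ | X / 2 < i ∧ i ≤ X ∧ i ∈ A}).Finite := (Set.finite_Iic X).subset fun i hi => hi.2.1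
        have h2 := (Set.ncard_le_ncard h1 (hf1.union hf2)).trans (Set.ncard_union_le _ _)
        have h3 := ih (X / 2) (by omega)
        have h4 := hX₁ X (by omega)
        have h5 : ((X / 2 : ℕ) : ℝ) ≤ (X : ℝ) / 2 := Nat.cast_div_le
        have h6 : (({i : ℕ | i ≤ X ∧ i ∈ A}.ncard : ℕ) : ℝ) ≤ ({i : ℕ | i ≤ X / 2 ∧ i ∈ A}.ncard : ℝ) +
            ({i : ℕ | X / 2 < i ∧ i ≤ X ∧ i ∈ A}.ncard : ℝ) := by exact_mod_cast h2
        nlinarith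
      · have h1 : {i : ℕ | i ≤ X ∧ i ∈ A} ⊆ ((Finset.range (X₁ + 1) : Finset ℕ) : Set ℕ) := by
          rintro i ⟨h1, -⟩
          rw [Finset.mem_coe, Finset.mem_range]
          omega
        have h2 := Set.ncard_le_ncard h1 (Finset.finite_toSet _)
        rw [Set.ncard_coe_finset, Finset.card_range] at h2
        have h3 : (({i : ℕ | i ≤ X ∧ i ∈ A}.ncard : ℕ) : ℝ) ≤ X₁ + 1 := by exact_mod_cast h2
        have h4 : 0 ≤ 2 * ε * X := by positivity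
        linarith
  filter_upwards [eventually_ge_atTop ⌈((X₁ : ℝ) + 1) / ε⌉₊] with n hn
  have h1 : ((X₁ : ℝ) + 1) / ε ≤ n := (Nat.le_ceil _).trans (by exact_mod_cast hn)
  rw [div_le_iff₀ hε] at h1
  have h2 : ({i : ℕ | i < n ∧ i ∈ A}.ncard : ℝ) ≤ ({i : ℕ | i ≤ n ∧ i ∈ A}.ncard : ℝ) := by
    rw [Nat.cast_le]
    exact Set.ncard_le_ncard (fun i hi => ⟨hi.1.le, hi.2⟩) ((Set.finite_Iic n).subset fun i hi => hi.1)
  have h3 := key n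
  linarith

end Pool.Agent.Run7.h129.BU
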