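import Mathlib
import Pool.Agent.Run7.h129.BU.Tr

set_option autoImplicit false

/-!
# Frequent lower bounds of power type along `⌊β m^κ⌋`
-/

open Filter Topology Set MeasureTheory Metric
open scoped Real ENNReal

namespace Pool.Agent.Run7.h129.BU

/-- the length with `β M^κ ≈ x` -/
noncomputable def Mr (β κ x : ℝ) : ℕ := ⌈((x + 1) / β) ^ κ⁻¹⌉₊

lemma Mr_tendsto {β κ : ℝ} (hβ : 0 < β) (hκ : 0 < κ) : Tendsto (Mr β κ) atTop atTop := by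
  unfold Mr
  refine tendsto_nat_ceil_atTop.comp ((tendsto_rpow_atTop (by positivity)).comp ?_)
  exact (tendsto_atTop_add_const_right _ _ tendsto_id).atTop_div_const hβ

theorem tr_atp {A : Set ℕ} {β κ c : ℝ} (hβ : 0 < β) (hκ : 1 ≤ κ) (hc : 0 < c) (hc1 : c ≤ 1 / 10)
    (hlaw : ∃ C : ℝ, ∀ M : ℕ, 1 ≤ M → |(cntA A β κ M : ℝ) - volA A β κ M| ≤ C * (M : ℝ) ^ (1 - c))
    {η : ℝ} (hη : 0 < η) : ∃ e : ℝ, 0 < e ∧
    ∀ᶠ x : ℝ in atTop, x ^ (1 - e) ≤ ({n : ℕ | 1 ≤ n ∧ (n : ℝ) ≤ x ∧ n ∈ A}.ncard : ℝ) →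
      (Mr β κ x : ℝ) ^ (1 - η) ≤ (cntA A β κ (Mr β κ x) : ℝ) := by
  obtain ⟨C, hC⟩ := hlaw
  have hκ0 : 0 < κ := by linarith
  set e : ℝ := min η c / (2 * κ) with he
  have hm0 : 0 < min η c := lt_min hη hc
  have he0 : 0 < e := by positivity
  have heκ : κ * e = min η c / 2 := by rw [he]; field_simp
  have hle1 : min η c ≤ η := min_le_left _ _
  have hle2 : min η c ≤ c := min_le_right _ _
  have he1 : e ≤ 1 := by
    rw [he, div_le_one (by positivity)]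
    linarith
  refine ⟨e, he0, ?_⟩
  set K : ℝ := (β / 2 ^ (κ + 1)) ^ (1 - e) / (κ * β) with hK
  have hK0 : 0 < K := by positivity
  have t1 : Tendsto (fun M : ℕ => (M : ℝ) ^ (-(η - κ * e)) + |C| * (M : ℝ) ^ (-(c - κ * e))) atTop
      (𝓝 (0 + |C| * 0)) :=
    (neg_pow_nat (by linarith)).add ((neg_pow_nat (by linarith)).const_mul _)
  rw [mul_zero, add_zero] at t1
  have hev : ∀ᶠ M : ℕ in atTop, 1 ≤ M ∧ (M : ℝ) ^ (-(η - κ * e)) + |C| * (M : ℝ) ^ (-(c - κ * e)) < K := by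
    filter_upwards [eventually_ge_atTop 1, (tendsto_order.1 t1).2 K hK0] with M h1 h2
    exact ⟨h1, h2⟩
  have hbig : Tendsto (fun x : ℝ => ((x + 1) / β) ^ κ⁻¹) atTop atTop :=
    (tendsto_rpow_atTop (by positivity)).comp
      ((tendsto_atTop_add_const_right _ _ tendsto_id).atTop_div_const hβ)
  filter_upwards [(Mr_tendsto hβ hκ0).eventually hev, hbig.eventually_ge_atTop 1, eventually_ge_atTop 1]
    with x hx1 hx2 hx3 hxA
  obtain ⟨hM1, hM4⟩ := hx1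
  set M := Mr β κ x with hM
  have hM0 : (0 : ℝ) < M := by exact_mod_cast hM1
  have hx0 : (0 : ℝ) < x := by linarith
  have hMlo : ((x + 1) / β) ^ κ⁻¹ ≤ M := Nat.le_ceil _
  have hMhi : (M : ℝ) ≤ 2 * ((x + 1) / β) ^ κ⁻¹ := by
    have : (M : ℝ) < ((x + 1) / β) ^ κ⁻¹ + 1 := Nat.ceil_lt_add_one (by positivity)
    linarith
  have hrt : (((x + 1) / β) ^ κ⁻¹) ^ κ = (x + 1) / β := by
    rw [← Real.rpow_mul (by positivity), inv_mul_cancel₀ hκ0.ne', Real.rpow_one]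
  have hp1 : x + 1 ≤ β * (M : ℝ) ^ κ := by
    have h1 := Real.rpow_le_rpow (by positivity) hMlo hκ0.le
    rw [hrt, div_le_iff₀ hβ] at h1
    linarith
  have hp2 : β * (M : ℝ) ^ κ ≤ 2 ^ (κ + 1) * x := by
    have h1 := Real.rpow_le_rpow hM0.le hMhi hκ0.le
    rw [Real.mul_rpow (by norm_num) (by positivity), hrt] at h1
    have h2 : β * (M : ℝ) ^ κ ≤ 2 ^ κ * (x + 1) := by
      calc β * (M : ℝ) ^ κ ≤ β * (2 ^ κ * ((x + 1) / β)) := mul_le_mul_of_nonneg_left h1 hβ.le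
        _ = _ := by field_simp
    have h3 : (2 : ℝ) ^ (κ + 1) = 2 ^ κ * 2 := by rw [Real.rpow_add_one (by norm_num)]
    have h4 : (0 : ℝ) < 2 ^ κ := by positivity
    rw [h3]
    nlinarith
  have hv := vol_ge' (A := A) hβ hκ hM1 (x := x) hp1
  have hlo := (abs_le.1 (hC M hM1)).1
  have hMκ : 0 < (M : ℝ) ^ κ := Real.rpow_pos_of_pos hM0 _
  have h5 : (β / 2 ^ (κ + 1)) ^ (1 - e) * (M : ℝ) ^ (κ * (1 - e)) ≤ x ^ (1 - e) := by
    rw [Real.rpow_mul hM0.le, ← Real.mul_rpow (by positivity) hMκ.le]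
    refine Real.rpow_le_rpow (by positivity) ?_ (by linarith)
    rw [div_mul_eq_mul_div, div_le_iff₀ (by positivity)]
    linarith
  have h6 : K * (M : ℝ) ^ (1 - κ * e) ≤ volA A β κ M := by
    refine le_trans ?_ hv
    calc K * (M : ℝ) ^ (1 - κ * e) = ((β / 2 ^ (κ + 1)) ^ (1 - e) * (M : ℝ) ^ (κ * (1 - e))) *
          ((M : ℝ) ^ (1 - κ) / (κ * β)) := by
          have e1 : (M : ℝ) ^ (1 - κ * e) = (M : ℝ) ^ (κ * (1 - e)) * (M : ℝ) ^ (1 - κ) := by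
            rw [← Real.rpow_add hM0]
            congr 1
            ring
          rw [e1, hK]
          ring
      _ ≤ _ := mul_le_mul_of_nonneg_right (h5.trans hxA) (by positivity)
  have hMe : 0 < (M : ℝ) ^ (1 - κ * e) := Real.rpow_pos_of_pos hM0 _
  have h7 : (M : ℝ) ^ (1 - η) + |C| * (M : ℝ) ^ (1 - c) ≤ K * (M : ℝ) ^ (1 - κ * e) := by
    have e1 : (M : ℝ) ^ (1 - η) = (M : ℝ) ^ (-(η - κ * e)) * (M : ℝ) ^ (1 - κ * e) := by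
      rw [← Real.rpow_add hM0]
      congr 1
      ring
    have e2 : (M : ℝ) ^ (1 - c) = (M : ℝ) ^ (-(c - κ * e)) * (M : ℝ) ^ (1 - κ * e) := by
      rw [← Real.rpow_add hM0]
      congr 1
      ring
    rw [e1, e2, ← mul_assoc, ← add_mul]
    exact mul_le_mul_of_nonneg_right hM4.le hMe.le
  have h8 : C * (M : ℝ) ^ (1 - c) ≤ |C| * (M : ℝ) ^ (1 - c) :=
    mul_le_mul_of_nonneg_right (le_abs_self C) (Real.rpow_nonneg hM0.le _)
  linarith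

theorem tr_fpow {A : Set ℕ} {β κ c : ℝ} (hβ : 0 < β) (hκ : 1 ≤ κ) (hc : 0 < c) (hc1 : c ≤ 1 / 10)
    (hlaw : ∃ C : ℝ, ∀ M : ℕ, 1 ≤ M → |(cntA A β κ M : ℝ) - volA A β κ M| ≤ C * (M : ℝ) ^ (1 - c))
    (hA : ∀ η : ℝ, 0 < η → ∃ᶠ x : ℝ in atTop, x ^ (1 - η) ≤ ({n : ℕ | 1 ≤ n ∧ (n : ℝ) ≤ x ∧ n ∈ A}.ncard : ℝ))
    {η : ℝ} (hη : 0 < η) : ∃ᶠ M : ℕ in atTop, (M : ℝ) ^ (1 - η) ≤ (cntA A β κ M : ℝ) := by
  obtain ⟨e, he, h⟩ := tr_atp hβ hκ hc hc1 hlaw hη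
  have h1 := (hA e he).and_eventually h
  exact (Mr_tendsto hβ (by linarith)).frequently (h1.mono fun x hx => hx.2 hx.1)

/-- zero may be left out -/
theorem drop0 {P : ℕ → Prop}
    (h : ∀ ε : ℝ, 0 < ε → ∀ᶠ X : ℝ in atTop, X ^ (1 - ε) ≤ ({x : ℕ | (x : ℝ) ≤ X ∧ P x}.ncard : ℝ))
    (ε : ℝ) (hε : 0 < ε) :
    ∀ᶠ X : ℝ in atTop, X ^ (1 - ε) ≤ ({n : ℕ | 1 ≤ n ∧ (n : ℝ) ≤ X ∧ P n}.ncard : ℝ) := by
  set e : ℝ := min ε 1 / 2 with he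
  have hm : 0 < min ε 1 := lt_min hε one_pos
  have he0 : 0 < e := by positivity
  have he1 : e < ε := by
    have := min_le_left ε 1
    rw [he]; linarith
  have he2 : e < 1 := by
    have := min_le_right ε 1
    rw [he]; linarith
  have t1 : Tendsto (fun X : ℝ => X ^ (-(ε - e)) + X ^ (-(1 - e))) atTop (𝓝 (0 + 0)) :=
    (tendsto_rpow_neg_atTop (by linarith)).add (tendsto_rpow_neg_atTop (by linarith))
  rw [add_zero] at t1
  filter_upwards [h e he0, (tendsto_order.1 t1).2 1 one_pos, eventually_ge_atTop 1] with X h1 h2 h3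
  have hX0 : 0 < X := by linarith
  have hp : 0 < X ^ (1 - e) := Real.rpow_pos_of_pos hX0 _
  have e1 : X ^ (1 - ε) = X ^ (-(ε - e)) * X ^ (1 - e) := by
    rw [← Real.rpow_add hX0]; congr 1; ring
  have e2 : (1 : ℝ) = X ^ (-(1 - e)) * X ^ (1 - e) := by
    rw [← Real.rpow_add hX0]; simp
  have h4 : X ^ (1 - ε) + 1 ≤ X ^ (1 - e) := by
    calc X ^ (1 - ε) + 1 = (X ^ (-(ε - e)) + X ^ (-(1 - e))) * X ^ (1 - e) := by rw [add_mul, ← e1, ← e2]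
      _ ≤ 1 * X ^ (1 - e) := mul_le_mul_of_nonneg_right h2.le hp.le
      _ = _ := one_mul _
  have hfin : {n : ℕ | 1 ≤ n ∧ (n : ℝ) ≤ X ∧ P n}.Finite := by
    refine (Finset.Icc 1 ⌊X⌋₊).finite_toSet.subset ?_
    rintro n ⟨h1, h2, -⟩
    rw [Finset.coe_Icc]
    exact ⟨h1, Nat.le_floor h2⟩
  have h5 : {x : ℕ | (x : ℝ) ≤ X ∧ P x} ⊆ insert 0 {n : ℕ | 1 ≤ n ∧ (n : ℝ) ≤ X ∧ P n} := by
    rintro x ⟨hx1, hx2⟩
    rcases Nat.eq_zero_or_pos x with h | h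
    · exact Or.inl h
    · exact Or.inr ⟨h, hx1, hx2⟩
  have h6 := (Set.ncard_le_ncard h5 (hfin.insert 0)).trans (Set.ncard_insert_le _ _)
  have h7 : ({x : ℕ | (x : ℝ) ≤ X ∧ P x}.ncard : ℝ) ≤ {n : ℕ | 1 ≤ n ∧ (n : ℝ) ≤ X ∧ P n}.ncard + 1 := by
    exact_mod_cast h6
  linarith

end Pool.Agent.Run7.h129.BU
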