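import Mathlib
import Pool.Agent.Run7.h129.BU.TU

/-!
# Lower bounds with a power of the logarithm along `⌊β m^κ⌋`, `κ ≥ 1`
-/

set_option autoImplicit false

open Filter MeasureTheory Set

namespace Pool.Agent.Run7.h129.BU

/-- **Lower bounds `x / (log x)^D` pass to the sequence without loss.** -/
theorem tr_log {A : Set ℕ} {β κ c c₀ : ℝ} (D : ℕ) (hβ : 0 < β) (hκ : 1 ≤ κ) (hc : 0 < c) (hc₀ : 0 < c₀)
    (hlaw : ∃ C : ℝ, ∀ M : ℕ, 1 ≤ M → |(cntA A β κ M : ℝ) - volA A β κ M| ≤ C * (M : ℝ) ^ (1 - c))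
    (hA : ∀ᶠ x : ℕ in atTop, c₀ * (x / (Real.log x) ^ D) ≤ ({n : ℕ | 1 ≤ n ∧ (n : ℝ) ≤ x ∧ n ∈ A}.ncard : ℝ)) :
    ∀ᶠ M : ℕ in atTop, c₀ / (4 * κ * (2 * κ) ^ D) * (M / (Real.log M) ^ D) ≤ (cntA A β κ M : ℝ) := by
  obtain ⟨C, hC⟩ := hlaw
  have hκ0 : 0 < κ := by linarith
  obtain ⟨x₀, hx₀⟩ := eventually_atTop.1 hA
  obtain ⟨L, hL, hL1⟩ := log_pow_le D (by linarith : 0 < c / 2)
  have h1 : ∀ᶠ M : ℕ in atTop, x₀ + 4 ≤ β * (M : ℝ) ^ κ :=
    ((pow_nat_tendsto hκ0).const_mul_atTop hβ).eventually_ge_atTop _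
  have h2 : ∀ᶠ M : ℕ in atTop, β ≤ (M : ℝ) ^ κ := (pow_nat_tendsto hκ0).eventually_ge_atTop _
  set K : ℝ := c₀ / (4 * κ * (2 * κ) ^ D) with hK
  have hK0 : 0 < K := by positivity
  have h3 : ∀ᶠ M : ℕ in atTop, |C| * L / K ≤ (M : ℝ) ^ (c / 2) :=
    (pow_nat_tendsto (by linarith : 0 < c / 2)).eventually_ge_atTop _
  filter_upwards [h1, h2, h3, eventually_ge_atTop 3] with M hM1 hM2 hM3 hM4
  have hM3' : (3 : ℝ) ≤ M := by exact_mod_cast hM4
  have hM0 : (0 : ℝ) < M := by linarith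
  have hl : 0 < Real.log M := Real.log_pos (by linarith)
  have hx₀0 : (0 : ℝ) ≤ x₀ := Nat.cast_nonneg _
  set y : ℝ := β * (M : ℝ) ^ κ with hy
  set x : ℕ := ⌊y - 1⌋₊ with hx
  have hxy : (x : ℝ) + 1 ≤ y := by
    have := Nat.floor_le (by linarith : 0 ≤ y - 1)
    linarith
  have hxy2 : y / 2 ≤ x := by
    have := Nat.lt_floor_add_one (y - 1)
    rw [← hx] at this
    linarith
  have hxx₀ : x₀ ≤ x := Nat.le_floor (by linarith)
  have hx1 : (2 : ℝ) ≤ x := by linarith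
  have hlx : Real.log x ≤ 2 * κ * Real.log M := by
    have e1 : Real.log x ≤ Real.log y := Real.log_le_log (by linarith) (by linarith)
    have e2 : Real.log y = Real.log β + κ * Real.log M := by
      rw [hy, Real.log_mul hβ.ne' (by positivity), Real.log_rpow hM0]
    have e3 : Real.log β ≤ κ * Real.log M := by
      rw [← Real.log_rpow hM0]
      exact Real.log_le_log hβ hM2
    linarith
  have hlx0 : 0 < Real.log x := Real.log_pos (by linarith)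
  have h4 := vol_ge' (A := A) hβ hκ (by omega : 1 ≤ M) hxy
  have h5 := hx₀ x hxx₀
  have h6 : c₀ * (y / 2 / (2 * κ * Real.log M) ^ D) ≤ c₀ * (x / (Real.log x) ^ D) := by gcongr
  have h7 : 2 * K * (M / (Real.log M) ^ D) ≤ volA A β κ M := by
    refine le_trans ?_ h4
    have e1 : (0 : ℝ) ≤ (M : ℝ) ^ (1 - κ) / (κ * β) := by positivity
    refine le_trans ?_ (mul_le_mul_of_nonneg_right (h6.trans h5) e1)
    apply le_of_eq
    have e2 : (M : ℝ) ^ κ * (M : ℝ) ^ (1 - κ) = M := by rw [← Real.rpow_add hM0]; simp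
    rw [hK, hy, mul_pow (2 * κ) (Real.log M) D]
    have e3 : c₀ * (β * (M : ℝ) ^ κ / 2 / ((2 * κ) ^ D * Real.log M ^ D)) * ((M : ℝ) ^ (1 - κ) / (κ * β)) =
        c₀ * ((M : ℝ) ^ κ * (M : ℝ) ^ (1 - κ)) / (2 * κ * ((2 * κ) ^ D * Real.log M ^ D)) := by
      field_simp
    rw [e3, e2]
    have : (0 : ℝ) < Real.log M ^ D := by positivity
    field_simp
    ring
  have h8 := (abs_le.1 (hC M (by omega))).1
  have h9 : |C| * (M : ℝ) ^ (1 - c) ≤ K * (M / (Real.log M) ^ D) := by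
    have e1 : (0 : ℝ) < Real.log M ^ D := by positivity
    rw [mul_div_assoc', le_div_iff₀ e1]
    have e2 := hL1 M (by omega)
    have e3 : (M : ℝ) ^ (1 - c) * (M : ℝ) ^ (c / 2) * (M : ℝ) ^ (c / 2) = M := by
      rw [← Real.rpow_add hM0, ← Real.rpow_add hM0]
      have : 1 - c + c / 2 + c / 2 = 1 := by ring
      rw [this, Real.rpow_one]
    rw [div_le_iff₀ hK0] at hM3
    have e4 : (0 : ℝ) < (M : ℝ) ^ (1 - c) := by positivity
    have e5 : (0 : ℝ) < (M : ℝ) ^ (c / 2) := by positivity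
    calc |C| * (M : ℝ) ^ (1 - c) * Real.log M ^ D ≤ |C| * (M : ℝ) ^ (1 - c) * (L * (M : ℝ) ^ (c / 2)) := by gcongr
      _ = (|C| * L) * ((M : ℝ) ^ (1 - c) * (M : ℝ) ^ (c / 2)) := by ring
      _ ≤ ((M : ℝ) ^ (c / 2) * K) * ((M : ℝ) ^ (1 - c) * (M : ℝ) ^ (c / 2)) := by gcongr
      _ = K * ((M : ℝ) ^ (1 - c) * (M : ℝ) ^ (c / 2) * (M : ℝ) ^ (c / 2)) := by ring
      _ = K * M := by rw [e3]
  have h10 : C * (M : ℝ) ^ (1 - c) ≤ |C| * (M : ℝ) ^ (1 - c) := mul_le_mul_of_nonneg_right (le_abs_self C) (by positivity)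
  linarith

end Pool.Agent.Run7.h129.BU
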