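import Mathlib
import Pool.Agent.Run7.h129.BU.TU

/-!
# Upper bounds `η x / (log x)^a`, `a` real, along `⌊β m^κ⌋`, `κ ≥ 1`, with explicit dependence on `η`
-/

set_option autoImplicit false

open Filter MeasureTheory Set

namespace Pool.Agent.Run7.h129.BU

/-- `(log M)^a ≤ η M^b` for large `M` -/
lemma log_rpow_small (a : ℝ) {b η : ℝ} (hb : 0 < b) (hη : 0 < η) :
    ∀ᶠ M : ℕ in atTop, (Real.log M) ^ a ≤ η * (M : ℝ) ^ b := by
  have h1 := (isLittleO_log_rpow_rpow_atTop (s := b) a hb).bound hη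
  have h2 := (tendsto_natCast_atTop_atTop (R := ℝ)).eventually h1
  filter_upwards [h2, eventually_ge_atTop 1] with M hM hM1
  have hM1' : (1 : ℝ) ≤ M := by exact_mod_cast hM1
  have hl : 0 ≤ Real.log M := Real.log_nonneg hM1'
  rw [Real.norm_of_nonneg (Real.rpow_nonneg hl a), Real.norm_of_nonneg (by positivity)] at hM
  exact hM

/-- **Upper bounds `η x / (log x)^a` pass to the sequence.** -/
theorem tu_little {A : Set ℕ} {β κ c η a : ℝ} (ha : 0 ≤ a) (hβ : 0 < β) (hκ : 1 ≤ κ) (hc : 0 < c) (hη : 0 < η)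
    (hlaw : ∃ C : ℝ, ∀ M : ℕ, 1 ≤ M → |(cntA A β κ M : ℝ) - volA A β κ M| ≤ C * (M : ℝ) ^ (1 - c))
    (hA : ∀ᶠ n : ℕ in atTop, ({i : ℕ | i < n ∧ i ∈ A}.ncard : ℝ) ≤ η * (n / (Real.log n) ^ a)) :
    ∀ᶠ M : ℕ in atTop, (cntA A β κ M : ℝ) ≤ (4 ^ a + 1) * η * (M / (Real.log M) ^ a) := by
  obtain ⟨C, hC⟩ := hlaw
  obtain ⟨C₁, hC₁, h1⟩ := vol_up hβ hκ
  obtain ⟨n₀, hn₀⟩ := eventually_atTop.1 hA
  have hκ0 : 0 < κ := by linarith
  have hKt : Tendsto (fun M : ℕ => Nat.sqrt ⌊β * (M : ℝ) ^ κ⌋₊) atTop atTop := by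
    have h1 : Tendsto (fun M : ℕ => ⌊β * (M : ℝ) ^ κ⌋₊) atTop atTop :=
      tendsto_nat_floor_atTop.comp ((pow_nat_tendsto hκ0).const_mul_atTop hβ)
    have h2 : Tendsto Nat.sqrt atTop atTop := by
      refine tendsto_atTop.2 fun b => ?_
      filter_upwards [eventually_ge_atTop (b * b)] with n hn
      exact Nat.le_sqrt.2 hn
    exact h2.comp h1
  have h2 := hKt.eventually_ge_atTop (n₀ + 2)
  have h3 : ∀ᶠ M : ℕ in atTop, 1 / β ≤ (M : ℝ) ^ (1 / 2 : ℝ) :=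
    (pow_nat_tendsto (by norm_num : (0 : ℝ) < 1 / 2)).eventually_ge_atTop _
  have h4 := log_rpow_small a (b := min c (1 / 2)) (η := η / (|C| + C₁ + 1)) (lt_min hc (by norm_num)) (by positivity)
  filter_upwards [h2, h3, h4, eventually_ge_atTop 3] with M hM2 hM3 hM4 hM5
  have hM1 : (3 : ℝ) ≤ M := by exact_mod_cast hM5
  have hM0 : (0 : ℝ) < M := by linarith
  have hl : 0 < Real.log M := Real.log_pos (by linarith)
  have hla : 0 < (Real.log M) ^ a := Real.rpow_pos_of_pos hl a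
  have e1 := h1 A M (4 ^ a * η / (Real.log M) ^ a) (by omega) (by positivity) (by
    intro n hn hnK
    have hn2 : n₀ + 2 < n := lt_of_le_of_lt hM2 hn
    have hnR : (2 : ℝ) ≤ n := by exact_mod_cast (by omega : 2 ≤ n)
    have g1 := hn₀ n (by omega)
    refine g1.trans ?_
    -- `n^2 ≥ M^(1/2)`
    have g2 : β * (M : ℝ) ^ κ < (n : ℝ) ^ 2 := by
      have k1 := Nat.lt_floor_add_one (β * (M : ℝ) ^ κ)
      have k2 : ⌊β * (M : ℝ) ^ κ⌋₊ + 1 ≤ n ^ 2 := by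
        have := Nat.sqrt_lt'.1 hn
        omega
      have k3 : ((⌊β * (M : ℝ) ^ κ⌋₊ : ℕ) : ℝ) + 1 ≤ (n : ℝ) ^ 2 := by exact_mod_cast k2
      linarith
    have g3 : (M : ℝ) ^ (1 / 2 : ℝ) ≤ β * (M : ℝ) ^ κ := by
      have k1 : (M : ℝ) ^ (1 : ℝ) ≤ (M : ℝ) ^ κ := Real.rpow_le_rpow_of_exponent_le (by linarith) hκ
      have k2 : (M : ℝ) ^ (1 : ℝ) = (M : ℝ) ^ (1 / 2 : ℝ) * (M : ℝ) ^ (1 / 2 : ℝ) := by
        rw [← Real.rpow_add hM0]; norm_num
      have k3 : 1 ≤ β * (M : ℝ) ^ (1 / 2 : ℝ) := by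
        rw [div_le_iff₀ hβ] at hM3
        linarith
      have k4 : (0 : ℝ) ≤ (M : ℝ) ^ (1 / 2 : ℝ) := by positivity
      calc (M : ℝ) ^ (1 / 2 : ℝ) ≤ (β * (M : ℝ) ^ (1 / 2 : ℝ)) * (M : ℝ) ^ (1 / 2 : ℝ) := le_mul_of_one_le_left k4 k3
        _ = β * (M : ℝ) ^ (1 : ℝ) := by rw [k2]; ring
        _ ≤ β * (M : ℝ) ^ κ := mul_le_mul_of_nonneg_left k1 hβ.le
    have g4 : Real.log M ≤ 4 * Real.log n := by
      have k1 : Real.log ((M : ℝ) ^ (1 / 2 : ℝ)) ≤ Real.log ((n : ℝ) ^ 2) :=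
        Real.log_le_log (by positivity) (g3.trans g2.le)
      rw [Real.log_rpow hM0, Real.log_pow] at k1
      push_cast at k1
      linarith
    have g5 : (Real.log M) ^ a ≤ 4 ^ a * (Real.log n) ^ a := by
      rw [← Real.mul_rpow (by norm_num) (Real.log_nonneg (by linarith))]
      exact Real.rpow_le_rpow hl.le g4 ha
    have hln : 0 < (Real.log n) ^ a := Real.rpow_pos_of_pos (Real.log_pos (by linarith)) a
    rw [mul_div_assoc', div_mul_eq_mul_div, div_le_div_iff₀ hln hla]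
    calc η * n * (Real.log M) ^ a ≤ η * n * (4 ^ a * (Real.log n) ^ a) := by gcongr
      _ = 4 ^ a * η * n * (Real.log n) ^ a := by ring)
  have e2 := (abs_le.1 (hC M (by omega))).2
  set b := min c (1 / 2 : ℝ) with hb
  have e3 : (M : ℝ) ^ (1 - c) ≤ (M : ℝ) ^ (1 - b) :=
    Real.rpow_le_rpow_of_exponent_le (by linarith) (by have := min_le_left c (1 / 2 : ℝ); linarith)
  have e4 : (M : ℝ) ^ (1 / 2 : ℝ) ≤ (M : ℝ) ^ (1 - b) :=
    Real.rpow_le_rpow_of_exponent_le (by linarith) (by have := min_le_right c (1 / 2 : ℝ); linarith)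
  have e5 : C * (M : ℝ) ^ (1 - c) ≤ |C| * (M : ℝ) ^ (1 - b) :=
    (mul_le_mul_of_nonneg_right (le_abs_self C) (by positivity)).trans (mul_le_mul_of_nonneg_left e3 (abs_nonneg C))
  have e6 : C₁ * (M : ℝ) ^ (1 / 2 : ℝ) ≤ C₁ * (M : ℝ) ^ (1 - b) := mul_le_mul_of_nonneg_left e4 hC₁.le
  have e7 : (|C| + C₁) * (M : ℝ) ^ (1 - b) ≤ η * (M / (Real.log M) ^ a) := by
    rw [mul_div_assoc', le_div_iff₀ hla]
    have hD : 0 < |C| + C₁ + 1 := by positivity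
    have k1 : (M : ℝ) ^ (1 - b) * (M : ℝ) ^ b = M := by rw [← Real.rpow_add hM0]; simp
    have k2 : (0 : ℝ) ≤ (M : ℝ) ^ (1 - b) := by positivity
    calc (|C| + C₁) * (M : ℝ) ^ (1 - b) * (Real.log M) ^ a
        ≤ (|C| + C₁) * (M : ℝ) ^ (1 - b) * (η / (|C| + C₁ + 1) * (M : ℝ) ^ b) :=
          mul_le_mul_of_nonneg_left hM4 (by positivity)
      _ = (|C| + C₁) / (|C| + C₁ + 1) * η * ((M : ℝ) ^ (1 - b) * (M : ℝ) ^ b) := by ring
      _ = (|C| + C₁) / (|C| + C₁ + 1) * (η * M) := by rw [k1]; ring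
      _ ≤ 1 * (η * M) := by
          refine mul_le_mul_of_nonneg_right ?_ (by positivity)
          rw [div_le_one hD]
          linarith
      _ = η * M := one_mul _
  have e8 : 4 ^ a * η / (Real.log M) ^ a * M = 4 ^ a * η * (M / (Real.log M) ^ a) := by ring
  rw [e8] at e1
  linarith

end Pool.Agent.Run7.h129.BU
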